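import Pool.Agent.MP_794e6e_pr.Good

/-! The main bound for words. -/

namespace Pool.Agent.MP_794e6e_pr
set_option maxHeartbeats 400000

open Finset Filter
open scoped Classical

theorem rec_m {μ : ℝ} (hμ : 1 ≤ μ) (hb : ∀ n, ((brs n).card : ℝ) ≤ μ ^ n)
    (hc : ∀ n, μ ^ n ≤ (walks n).card) {d g : ℕ} (H1 : 7 * d + 60 ≤ 19 * g)
    (H2 : 13 * g ≤ 5 * d) : ∃ C : ℝ, 0 ≤ C ∧ ∀ᶠ m : ℕ in atTop,
      FF μ (m ^ d) ≤ 1 / 2 * FF μ (3 * m ^ d) + C * m ^ (g + 1) := by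
  obtain ⟨C₁, hC₁, h1⟩ := bad_case hμ hb hc H1 H2
  obtain ⟨C₂, hC₂, h2⟩ := good_case hμ hb (d := d) (g := g) (by omega)
  refine ⟨C₁ + C₂, by linarith, ?_⟩
  filter_upwards [h1, h2] with m h3 h4
  have h5 : (0 : ℝ) ≤ C₁ * (m : ℝ) ^ (g + 1) := by positivity
  have h6 : (0 : ℝ) ≤ C₂ * (m : ℝ) ^ (g + 1) := by positivity
  have h7 := FF_nonneg (μ := μ) (3 * m ^ d)
  rw [add_mul]
  by_cases hbad : Bad μ d g m
  · have := h3 hbad
    linarith
  · have := h4 hbad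
    linarith

theorem exists_root {d : ℕ} (hd : 1 ≤ d) {N : ℕ} (hN : 1 ≤ N) :
    ∃ m : ℕ, 1 ≤ m ∧ N ≤ m ^ d ∧ (m - 1) ^ d < N := by
  have hex : ∃ m : ℕ, N ≤ m ^ d := ⟨N, Nat.le_self_pow (by omega) N⟩
  refine ⟨Nat.find hex, ?_, Nat.find_spec hex, ?_⟩
  · rw [Nat.one_le_iff_ne_zero]
    intro h0
    have h1 := Nat.find_spec hex
    rw [h0, zero_pow (by omega)] at h1
    omega
  · have h0 : Nat.find hex ≠ 0 := by
      intro h0
      have h1 := Nat.find_spec hex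
      rw [h0, zero_pow (by omega)] at h1
      omega
    have h1 := Nat.find_min hex (m := Nat.find hex - 1) (by omega)
    omega

theorem rec_N {μ : ℝ} (hμ : 1 ≤ μ) (hb : ∀ n, ((brs n).card : ℝ) ≤ μ ^ n)
    (hc : ∀ n, μ ^ n ≤ (walks n).card) {d g : ℕ} (H1 : 7 * d + 60 ≤ 19 * g)
    (H2 : 13 * g ≤ 5 * d) : ∃ C : ℝ, 0 ≤ C ∧ ∀ N : ℕ, 1 ≤ N →
      FF μ N ≤ 1 / 2 * FF μ (7 * N / 2) + C * (N : ℝ) ^ (((g : ℝ) + 1) / d) := by
  obtain ⟨C, hC, h1⟩ := rec_m hμ hb hc H1 H2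
  obtain ⟨m₀, hm₀⟩ := eventually_atTop.1 h1
  have hd : 1 ≤ d := by omega
  have hd' : (1 : ℝ) ≤ d := by exact_mod_cast hd
  set θ : ℝ := ((g : ℝ) + 1) / d with hθ
  have hθ0 : 0 ≤ θ := by positivity
  set m₁ := m₀ + 7 * d + 2 with hm₁
  set N₀ := m₁ ^ d with hN₀
  have hFN := FF_nonneg (μ := μ) N₀
  refine ⟨C * 2 ^ (g + 1) + FF μ N₀, by positivity, fun N hN => ?_⟩
  have hN' : (1 : ℝ) ≤ N := by exact_mod_cast hN
  have hNθ : 1 ≤ (N : ℝ) ^ θ := Real.one_le_rpow hN' hθ0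
  have hF2 := FF_nonneg (μ := μ) (7 * N / 2)
  have hCN : 0 ≤ C * 2 ^ (g + 1) * (N : ℝ) ^ θ := by positivity
  rw [add_mul]
  by_cases hcase : N ≤ N₀
  · have h2 : FF μ N ≤ FF μ N₀ := FF_mono μ hcase
    have h3 : FF μ N₀ ≤ FF μ N₀ * (N : ℝ) ^ θ := le_mul_of_one_le_right hFN hNθ
    linarith
  · push Not at hcase
    obtain ⟨m, hm1, hm2, hm3⟩ := exists_root hd hN
    have hmm : m₁ < m := by
      by_contra hcon
      push Not at hcon
      have : m ^ d ≤ m₁ ^ d := Nat.pow_le_pow_left hcon d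
      omega
    have hrec := hm₀ m (by omega)
    have hm0' : (0 : ℝ) < m := by
      have : 0 < m := by omega
      exact_mod_cast this
    -- `m ^ d` is close to `N`
    have hb1 : (m : ℝ) ^ d ≤ 7 / 6 * N := by
      have h2 := one_add_mul_le_pow (a := -(1 / (m : ℝ))) (by
        have : 1 / (m : ℝ) ≤ 1 := by
          rw [div_le_one hm0']
          exact_mod_cast hm1
        linarith) d
      have h3 : (6 : ℝ) / 7 ≤ 1 + d * -(1 / (m : ℝ)) := by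
        have h4 : (d : ℝ) * (1 / (m : ℝ)) ≤ 1 / 7 := by
          rw [mul_one_div, div_le_iff₀ hm0']
          have : 7 * (d : ℝ) ≤ m := by
            have : 7 * d ≤ m := by omega
            exact_mod_cast this
          linarith
        linarith
      have h4 : (1 + -(1 / (m : ℝ))) ^ d * (m : ℝ) ^ d = ((m - 1 : ℕ) : ℝ) ^ d := by
        rw [← mul_pow]
        congr 1
        rw [Nat.cast_sub hm1]
        field_simp
        push_cast
        ring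
      have h5 : ((m - 1 : ℕ) : ℝ) ^ d ≤ N := by exact_mod_cast hm3.le
      have h6 : (6 : ℝ) / 7 * (m : ℝ) ^ d ≤ N := by
        refine le_trans ?_ h5
        rw [← h4]
        exact mul_le_mul_of_nonneg_right (h3.trans h2) (by positivity)
      linarith
    have hb2 : 3 * m ^ d ≤ 7 * N / 2 := by
      rw [Nat.le_div_iff_mul_le (by norm_num)]
      have h2 : (3 * m ^ d * 2 : ℝ) ≤ 7 * N := by linarith
      exact_mod_cast h2
    have hb3 : (m : ℝ) ^ (g + 1) ≤ 2 ^ (g + 1) * (N : ℝ) ^ θ := by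
      have h2 : (m : ℝ) ≤ 2 * ((m - 1 : ℕ) : ℝ) := by
        have : m ≤ 2 * (m - 1) := by omega
        exact_mod_cast this
      have h3 : ((m - 1 : ℕ) : ℝ) ≤ (N : ℝ) ^ (1 / (d : ℝ)) := by
        have h4 : ((m - 1 : ℕ) : ℝ) ^ d ≤ N := by exact_mod_cast hm3.le
        have h5 : (((m - 1 : ℕ) : ℝ) ^ d) ^ (1 / (d : ℝ)) ≤ (N : ℝ) ^ (1 / (d : ℝ)) :=
          Real.rpow_le_rpow (by positivity) h4 (by positivity)
        rwa [← Real.rpow_natCast, ← Real.rpow_mul (Nat.cast_nonneg _), mul_one_div_cancel (by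
          linarith), Real.rpow_one] at h5
      calc (m : ℝ) ^ (g + 1) ≤ (2 * ((m - 1 : ℕ) : ℝ)) ^ (g + 1) :=
            pow_le_pow_left₀ hm0'.le h2 _
        _ = 2 ^ (g + 1) * ((m - 1 : ℕ) : ℝ) ^ (g + 1) := mul_pow _ _ _
        _ ≤ 2 ^ (g + 1) * ((N : ℝ) ^ (1 / (d : ℝ))) ^ (g + 1) :=
            mul_le_mul_of_nonneg_left (pow_le_pow_left₀ (Nat.cast_nonneg _) h3 _) (by positivity)
        _ = _ := by
            rw [← Real.rpow_natCast ((N : ℝ) ^ (1 / (d : ℝ))), ← Real.rpow_mul (by linarith)]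
            congr 2
            rw [hθ]
            push_cast
            ring
    have h6 : FF μ N ≤ FF μ (m ^ d) := FF_mono μ hm2
    have h7 : FF μ (3 * m ^ d) ≤ FF μ (7 * N / 2) := FF_mono μ hb2
    have h8 : C * (m : ℝ) ^ (g + 1) ≤ C * (2 ^ (g + 1) * (N : ℝ) ^ θ) :=
      mul_le_mul_of_nonneg_left hb3 hC
    have h9 : 0 ≤ FF μ N₀ * (N : ℝ) ^ θ := by positivity
    linarith

theorem choose_dg {f : ℝ} (hf : 7 / 19 < f) : ∃ d g : ℕ, 7 * d + 60 ≤ 19 * g ∧ 13 * g ≤ 5 * d ∧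
    1 ≤ d ∧ ((g : ℝ) + 1) / d ≤ f ∧ ((g : ℝ) + 1) / d ≤ 1 / 2 := by
  set t := min f (5 / 13) with ht
  have ht1 : 7 / 19 < t := lt_min hf (by norm_num)
  have ht2 : t ≤ 5 / 13 := min_le_right _ _
  have ht3 : t ≤ f := min_le_left _ _
  obtain ⟨d, hd⟩ := exists_nat_gt (98 / (19 * t - 7))
  have hpos : 0 < 19 * t - 7 := by linarith
  rw [div_lt_iff₀ hpos] at hd
  have hd0 : (0 : ℝ) < d := by
    by_contra hcon
    push Not at hcon
    nlinarith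
  have hd1 : 1 ≤ d := by
    have : 0 < d := by exact_mod_cast hd0
    omega
  have htd : 2 ≤ t * d := by nlinarith
  set g := ⌊t * d⌋₊ - 1 with hg
  have hfl1 : (⌊t * d⌋₊ : ℝ) ≤ t * d := Nat.floor_le (by linarith)
  have hfl2 : t * d < ⌊t * d⌋₊ + 1 := Nat.lt_floor_add_one _
  have hfl3 : 2 ≤ ⌊t * d⌋₊ := Nat.le_floor (by exact_mod_cast htd)
  have hg1 : (g : ℝ) + 1 = ⌊t * d⌋₊ := by
    have : g + 1 = ⌊t * d⌋₊ := by omega
    exact_mod_cast this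
  refine ⟨d, g, ?_, ?_, hd1, ?_, ?_⟩
  · have : (7 : ℝ) * d + 60 ≤ 19 * g := by nlinarith
    exact_mod_cast this
  · have h1 : (13 : ℝ) * g ≤ 5 * d := by nlinarith
    exact_mod_cast h1
  · rw [hg1, div_le_iff₀ hd0]
    nlinarith
  · rw [hg1, div_le_iff₀ hd0]
    nlinarith

/-- **Main bound**, for words. -/
theorem main_words {μ : ℝ} (hμ : 1 ≤ μ) (hb : ∀ n, ((brs n).card : ℝ) ≤ μ ^ n)
    (hc : ∀ n, μ ^ n ≤ (walks n).card) {f : ℝ} (hf : 7 / 19 < f) :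
    ∃ C : ℝ, ∀ n : ℕ, 1 ≤ n → ((walks n).card : ℝ) ≤ μ ^ n * Real.exp (C * (n : ℝ) ^ f) := by
  have hμ0 : 0 < μ := by linarith
  have hlμ : 0 ≤ Real.log μ := Real.log_nonneg hμ
  obtain ⟨d, g, H1, H2, hd, h1, h2⟩ := choose_dg hf
  obtain ⟨C, hC, h3⟩ := rec_N hμ hb hc H1 H2
  have hd' : (1 : ℝ) ≤ d := by exact_mod_cast hd
  obtain ⟨A, hA⟩ := iterate (F := FF μ) (θ := ((g : ℝ) + 1) / d) hC
    (by positivity : 0 ≤ 4 + Real.log μ) (by positivity) h2 h3 (fun N hN => apriori hμ hb hN)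
  refine ⟨max A 0, fun n hn => ?_⟩
  have hn' : (1 : ℝ) ≤ n := by exact_mod_cast hn
  have h4 : FF μ n ≤ max A 0 * (n : ℝ) ^ f := by
    refine (hA n hn).trans ?_
    refine mul_le_mul (le_max_left _ _) (Real.rpow_le_rpow_of_exponent_le hn' h1)
      (Real.rpow_nonneg (by linarith) _) (le_max_right _ _)
  have h5 := term_le_exp hμ (le_refl n)
  have h6 : ((walks n).card : ℝ) * μ⁻¹ ^ n ≤ Real.exp (max A 0 * (n : ℝ) ^ f) :=
    h5.trans (Real.exp_le_exp.2 h4)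
  rw [inv_pow, ← div_eq_mul_inv, div_le_iff₀ (by positivity)] at h6
  linarith

end Pool.Agent.MP_794e6e_pr
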