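import Pool.Agent.MP_794e6e_pr.Spread

/-! Blocks: families of bridges with a common displacement. -/

namespace Pool.Agent.MP_794e6e_pr
set_option maxHeartbeats 400000

open Finset
open scoped Classical

/-- the law of a family of words, weighted by the reference weight -/
theorem exists_law {x : ℝ} (hx : 0 < x) {F : Finset Word} {E : ℝ}
    (hE : Real.exp (-E) ≤ ∑ w ∈ F, x ^ w.length) :
    ∃ B : Law, (∀ i, B.f i ∈ F) ∧ ∀ L, Dom x L B (Real.exp E) := by
  set Z := ∑ w ∈ F, x ^ w.length with hZ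
  have hZ0 : 0 < Z := (Real.exp_pos _).trans_le hE
  refine ⟨⟨{w // w ∈ F}, inferInstance, fun w => x ^ w.1.length / Z, fun w => w.1, ?_, ?_⟩, ?_, ?_⟩
  · intro w; positivity
  · rw [← sum_div, div_eq_one_iff_eq hZ0.ne', hZ, ← sum_coe_sort F (fun w => x ^ w.length)]
  · intro w; exact w.2
  · intro L φ h0 hL
    have h1 : ∑ w : {w // w ∈ F}, x ^ w.1.length / Z * φ w.1
        = Z⁻¹ * ∑ w ∈ F, x ^ w.length * φ w := by
      rw [← sum_coe_sort F (fun w => x ^ w.length * φ w), mul_sum]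
      exact sum_congr rfl fun w _ => by ring
    change ∑ w : {w // w ∈ F}, x ^ w.1.length / Z * φ w.1 ≤ _
    rw [h1]
    have h2 : ∑ w ∈ F, x ^ w.length * φ w ≤ ∑ w ∈ wle L, x ^ w.length * φ w := by
      have h3 : ∑ w ∈ F, x ^ w.length * φ w
          = ∑ w ∈ F.filter (fun w => w.length ≤ L), x ^ w.length * φ w := by
        rw [sum_filter]
        refine sum_congr rfl fun w _ => ?_
        split_ifs with h
        · rfl
        · rw [hL w (by omega), mul_zero]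
      rw [h3]
      refine sum_le_sum_of_subset_of_nonneg ?_ fun w _ _ => mul_nonneg (by positivity) (h0 w)
      intro w hw
      rw [mem_filter] at hw
      exact mem_wle.2 hw.2
    have h4 : Z⁻¹ ≤ Real.exp E := by
      rw [inv_le_comm₀ hZ0 (Real.exp_pos _), ← Real.exp_neg]
      exact hE
    have h5 : 0 ≤ ∑ w ∈ wle L, x ^ w.length * φ w :=
      sum_nonneg fun w _ => mul_nonneg (by positivity) (h0 w)
    calc Z⁻¹ * ∑ w ∈ F, x ^ w.length * φ w
        ≤ Z⁻¹ * ∑ w ∈ wle L, x ^ w.length * φ w :=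
          mul_le_mul_of_nonneg_left h2 (by positivity)
      _ ≤ _ := mul_le_mul_of_nonneg_right h4 h5

/-- selection of a displacement -/
theorem pigeon {x : ℝ} {S : Finset Word} {n : ℕ} {E : ℝ}
    (hS : ∀ w ∈ S, w.length ≤ n) (hE : Real.exp (-E) ≤ ∑ w ∈ S, x ^ w.length) :
    ∃ (v : Pt) (F : Finset Word), F ⊆ S ∧ (∀ w ∈ F, D w = v) ∧
      Real.exp (-(E + 3 * Real.log (2 * n + 1))) ≤ ∑ w ∈ F, x ^ w.length := by
  have hn : (0 : ℝ) < 2 * n + 1 := by positivity
  have hb : Real.exp (-(E + 3 * Real.log (2 * n + 1)))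
      = Real.exp (-E) / ((2 * n + 1) ^ 3 : ℕ) := by
    rw [neg_add, Real.exp_add, Real.exp_neg (3 * _)]
    have : Real.exp (3 * Real.log (2 * n + 1)) = (2 * (n : ℝ) + 1) ^ 3 := by
      have h := Real.exp_nat_mul (Real.log (2 * (n : ℝ) + 1)) 3
      rw [Real.exp_log hn] at h
      exact_mod_cast h
    rw [this]
    push_cast
    rfl
  have hne : S.Nonempty := by
    by_contra h
    rw [not_nonempty_iff_eq_empty] at h
    rw [h, sum_empty] at hE
    exact absurd hE (not_le.2 (Real.exp_pos _))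
  have hcard : (S.image D).card ≤ (2 * n + 1) ^ 3 := by
    have hsub : S.image D ⊆ Fintype.piFinset (fun _ : Fin 3 => Icc (-(n : ℤ)) n) := by
      intro p hp
      obtain ⟨w, hw, rfl⟩ := mem_image.1 hp
      rw [Fintype.mem_piFinset]
      intro k
      rw [mem_Icc]
      have h1 := abs_D_le w k
      have h2 := hS w hw
      rw [abs_le] at h1
      constructor <;> omega
    refine (card_le_card hsub).trans ?_
    rw [Fintype.card_piFinset, prod_const, card_univ, Fintype.card_fin, Int.card_Icc]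
    apply le_of_eq
    congr 1
    omega
  obtain ⟨v, hv, hv2⟩ := exists_le_sum_fiber_of_maps_to_of_nsmul_le_sum
    (s := S) (t := S.image D) (f := D) (w := fun w => x ^ w.length)
    (b := Real.exp (-E) / ((2 * n + 1) ^ 3 : ℕ))
    (fun a ha => mem_image_of_mem D ha) (hne.image D) (by
      refine le_trans ?_ hE
      rw [nsmul_eq_mul]
      have h3 : (0 : ℝ) < ((2 * n + 1) ^ 3 : ℕ) := by positivity
      rw [mul_div_assoc', div_le_iff₀ h3, mul_comm]
      have h4 : ((S.image D).card : ℝ) ≤ ((2 * n + 1) ^ 3 : ℕ) := by exact_mod_cast hcard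
      exact mul_le_mul_of_nonneg_left h4 (Real.exp_pos _).le)
  refine ⟨v, S.filter (fun w => D w = v), filter_subset _ _, fun w hw => (mem_filter.1 hw).2, ?_⟩
  rw [hb]
  exact hv2

theorem log_three_le : Real.log 3 ≤ 6 / 5 := by
  have h := Real.log_two_lt_d9
  have h1 : Real.log 3 ≤ Real.log 4 - 1 / 4 := by
    have h2 : Real.log (3 / 4) ≤ 3 / 4 - 1 := Real.log_le_sub_one_of_pos (by norm_num)
    rw [Real.log_div (by norm_num) (by norm_num)] at h2
    linarith
  have h3 : Real.log 4 = 2 * Real.log 2 := by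
    rw [show (4 : ℝ) = 2 ^ 2 by norm_num, Real.log_pow]; norm_num
  linarith

theorem log_card_le {n P : ℕ} (hP : 1 ≤ P) (hn : n ≤ P ^ 3) :
    Real.log (2 * n + 1) ≤ 6 / 5 + 3 * Real.log P := by
  have hP' : (1 : ℝ) ≤ P := by exact_mod_cast hP
  have h1 : (2 * (n : ℝ) + 1) ≤ 3 * (P : ℝ) ^ 3 := by
    have h2 : (n : ℝ) ≤ (P : ℝ) ^ 3 := by exact_mod_cast hn
    have h3 : (1 : ℝ) ≤ (P : ℝ) ^ 3 := one_le_pow₀ hP'
    linarith
  calc Real.log (2 * n + 1) ≤ Real.log (3 * (P : ℝ) ^ 3) := Real.log_le_log (by positivity) h1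
    _ = Real.log 3 + 3 * Real.log P := by
        rw [Real.log_mul (by norm_num) (by positivity), Real.log_pow]; norm_num
    _ ≤ _ := by have := log_three_le; linarith

/-- what a block provides -/
def IsBlock (μ : ℝ) (q P : ℕ) : Prop :=
  ∃ (v : Pt) (n : ℕ) (F : Finset Word) (E : ℝ) (i : Fin 3),
    (∀ w ∈ F, Br w ∧ D w = v ∧ w.length ≤ n) ∧ Real.exp (-E) ≤ ∑ w ∈ F, μ⁻¹ ^ w.length ∧
    0 ≤ E ∧ n ≤ P ^ 3 ∧ q ≤ 4 * (v i).natAbs ∧ n ≤ 16 * (v i).natAbs * P ^ 2 ∧
    E * q ≤ (v i).natAbs * ((36 + Real.log (6 * μ)) * (1 + Real.log P))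

theorem block_of {μ : ℝ} {S : Finset Word} {n P q : ℕ} {E : ℝ}
    (hE0 : 0 ≤ E) (hP : 1 ≤ P) (hn : n ≤ P ^ 3) (hS : ∀ w ∈ S, Br w ∧ w.length ≤ n)
    (hE : Real.exp (-E) ≤ ∑ w ∈ S, μ⁻¹ ^ w.length)
    (hi : ∀ w ∈ S, ∃ i, q ≤ 4 * (D w i).natAbs ∧ n ≤ 16 * (D w i).natAbs * P ^ 2 ∧
      (E + 3 * (6 / 5 + 3 * Real.log P)) * q
        ≤ (D w i).natAbs * ((36 + Real.log (6 * μ)) * (1 + Real.log P))) : IsBlock μ q P := by
  obtain ⟨v, F, hFS, hFv, hF⟩ := pigeon (fun w hw => (hS w hw).2) hE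
  have hne : F.Nonempty := by
    by_contra h
    rw [not_nonempty_iff_eq_empty] at h
    rw [h, sum_empty] at hF
    exact absurd hF (not_le.2 (Real.exp_pos _))
  obtain ⟨w, hw⟩ := hne
  obtain ⟨i, h1, h2, h3⟩ := hi w (hFS hw)
  rw [hFv w hw] at h1 h2 h3
  have hl : 0 ≤ Real.log (2 * (n : ℝ) + 1) := Real.log_nonneg (by
    have : (0 : ℝ) ≤ n := Nat.cast_nonneg _
    linarith)
  refine ⟨v, n, F, E + 3 * Real.log (2 * n + 1), i, ?_, hF, by linarith, hn, h1, h2, ?_⟩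
  · intro w' hw'
    exact ⟨(hS w' (hFS hw')).1, hFv w' hw', (hS w' (hFS hw')).2⟩
  · refine le_trans ?_ h3
    have := log_card_le hP hn
    refine mul_le_mul_of_nonneg_right ?_ (Nat.cast_nonneg _)
    linarith

end Pool.Agent.MP_794e6e_pr
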