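import Pool.Agent.MP_794e6e_pr.HW

/-! Transverse unfolding of bridges. -/

namespace Pool.Agent.MP_794e6e_pr

open Finset
open scoped Classical

theorem Br.map {w : Word} (h : Br w) (S : Sy) (hS : ∀ v, S.A v 0 = v 0) : Br (w.map S.g) := by
  refine ⟨h.saw.map S, ?_, ?_⟩
  · intro a u hau
    obtain ⟨a', u', h1, h2, h3⟩ := List.map_eq_append_iff.1 hau
    rw [← h3, S.D_map, hS]
    exact h.lo a' u' h1
  · intro u b hub hne
    obtain ⟨u', b', h1, h2, h3⟩ := List.map_eq_append_iff.1 hub
    rw [← h2, S.D_map, hS]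
    refine h.hi u' b' h1 ?_
    intro h0; apply hne; rw [← h2, h0]; rfl

theorem refl_one_zero (v : Pt) : (refl 1).A v 0 = v 0 := by simp

theorem perm12_zero (v : Pt) : (perm (Equiv.swap 1 2)).A v 0 = v 0 := by
  rw [perm_A, Equiv.symm_swap, Equiv.swap_apply_of_ne_of_ne (by decide) (by decide)]

theorem perm12_map (w : Word) :
    (w.map (perm (Equiv.swap 1 2)).g).map (perm (Equiv.swap 1 2)).g = w := by
  rw [List.map_map]
  have : ((perm (Equiv.swap 1 2)).g ∘ (perm (Equiv.swap 1 2)).g) = id := by
    funext s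
    simp [perm]
  rw [this, List.map_id]

/-- the prefix condition -/
def up1 (t : ℤ) (w : Word) : Prop := ∃ c e : Word, w = c ++ e ∧ t ≤ 2 * D c 1

theorem card_up1 (k : ℕ) (t : ℤ) : ((brs k).filter (up1 t)).card
    ≤ (k + 1) * ((brs k).filter (fun w => ∃ i, t ≤ 2 * |D w i|)).card := by
  choose A B hAB hA hB using exists_last_max (ev 1)
  rw [mul_comm, ← card_range (k + 1), ← card_product]
  refine card_le_card_of_injOn
    (fun w => (A w ++ (B w).map (refl 1).g, (A w).length)) ?_ ?_
  · intro w hw
    rw [mem_coe, mem_filter, mem_brs] at hw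
    obtain ⟨⟨hlen, hbr⟩, c, e, hce, ht⟩ := hw
    have hl := congrArg List.length (hAB w)
    rw [List.length_append] at hl
    have hs := hbr.saw
    rw [hAB w] at hs
    have hmax : D c 1 ≤ D (A w) 1 := by
      rw [hAB w] at hce
      rcases List.append_eq_append_iff.1 hce with ⟨g, hg1, hg2⟩ | ⟨g, hg1, hg2⟩
      · rw [hg1, D_append, Pi.add_apply]
        by_cases hg : g = []
        · subst hg; simp
        · have := hB w g e hg2 hg
          rw [ev_apply] at this
          linarith
      · have := hA w c g hg1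
        rw [ev_apply] at this
        rw [hg1, D_append, Pi.add_apply]
        linarith
    have hB1 : D (B w) 1 ≤ 0 := by
      by_cases hg : B w = []
      · rw [hg]; simp
      · have := hB w (B w) [] (by simp) hg
        rw [ev_apply] at this
        exact this.le
    rw [mem_coe, mem_product, mem_filter, mem_brs, mem_range]
    refine ⟨⟨⟨?_, ?_, ?_, ?_⟩, 1, ?_⟩, by simp only; omega⟩
    · simp only [List.length_append, List.length_map]; omega
    · refine saw.append_of (ev 1) hs.left (hs.right.map (refl 1)) (hA w) ?_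
      intro u d hud hne
      obtain ⟨u', d', h1, h2, h3⟩ := List.map_eq_append_iff.1 hud
      have hne' : u' ≠ [] := by
        intro h0; apply hne; rw [← h2, h0]; rfl
      have := hB w u' d' h1 hne'
      rw [ev_apply] at this
      rw [← h2, ev_apply, D_refl, if_pos rfl]
      linarith
    · intro a u hau
      rcases List.append_eq_append_iff.1 hau with ⟨g, hg1, hg2⟩ | ⟨g, hg1, hg2⟩
      · obtain ⟨g', u', h1, h2, h3⟩ := List.map_eq_append_iff.1 hg2
        rw [← h3, Sy.D_map, refl_one_zero]
        refine hbr.lo (A w ++ g') u' ?_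
        rw [List.append_assoc, ← h1]; exact hAB w
      · rw [hg2, D_append, Pi.add_apply, Sy.D_map, refl_one_zero, ← Pi.add_apply, ← D_append]
        refine hbr.lo a (g ++ B w) ?_
        rw [← List.append_assoc, ← hg1]; exact hAB w
    · intro u b hub hne
      rcases List.append_eq_append_iff.1 hub with ⟨g, hg1, hg2⟩ | ⟨g, hg1, hg2⟩
      · obtain ⟨g', u', h1, h2, h3⟩ := List.map_eq_append_iff.1 hg2
        rw [hg1, D_append, Pi.add_apply, ← h2, Sy.D_map, refl_one_zero, ← Pi.add_apply, ← D_append]
        refine hbr.hi (A w ++ g') u' ?_ ?_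
        · rw [List.append_assoc, ← h1]; exact hAB w
        · intro h0
          apply hne
          have h4 := List.append_eq_nil_iff.1 h0
          rw [hg1, h4.1, ← h2, h4.2]; rfl
      · refine hbr.hi u (g ++ B w) ?_ hne
        rw [← List.append_assoc, ← hg1]; exact hAB w
    · simp only
      rw [D_append, Pi.add_apply, D_refl, if_pos rfl]
      have := le_abs_self (D (A w) 1 + - D (B w) 1)
      linarith
  · intro w _ w' _ heq
    simp only [Prod.mk.injEq] at heq
    obtain ⟨h1, h2⟩ := List.append_inj heq.1 heq.2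
    have h3 : B w = B w' := by
      have := congrArg (List.map (refl 1).g) h2
      rwa [refl_refl, refl_refl] at this
    rw [hAB w, hAB w', h1, h3]

/-- third source: a bridge of length `k` can be unfolded to have a large displacement -/
theorem source_three (k t : ℕ) (ht : t ^ 3 < k + 1) : (brs k).card
    ≤ (4 * k + 5) * ((brs k).filter (fun w => ∃ i, (t : ℤ) ≤ 2 * |D w i|)).card := by
  set S := (brs k).filter (fun w => ∃ i, (t : ℤ) ≤ 2 * |D w i|) with hS
  have h0 : (brs k).filter (reach 0 t) ⊆ S := by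
    intro w hw
    rw [mem_filter, mem_brs] at hw
    obtain ⟨hw1, c, e, c', e', h1, h2, h3⟩ := hw
    rw [hS, mem_filter, mem_brs]
    refine ⟨hw1, 0, ?_⟩
    have h4 : D c 0 ≤ D w 0 := by
      have := hw1.2.lo c e h1
      rw [h1, D_append, Pi.add_apply]; linarith
    have h5 : 0 ≤ D c' 0 := by
      by_cases h : c' = []
      · rw [h]; simp
      · exact (hw1.2.hi c' e' h2 h).le
    have h6 := le_abs_self (D w 0)
    have h7 : (0 : ℤ) ≤ t := Int.natCast_nonneg t
    linarith
  have h1 : ((brs k).filter (reach 1 t)).card ≤ 2 * ((brs k).filter (up1 t)).card := by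
    have hsub : (brs k).filter (reach 1 t) ⊆ (brs k).filter (up1 t) ∪
        (brs k).filter (fun w => up1 t (w.map (refl 1).g)) := by
      intro w hw
      rw [mem_filter] at hw
      obtain ⟨hw1, c, e, c', e', h1, h2, h3⟩ := hw
      rw [mem_union, mem_filter, mem_filter]
      by_cases h4 : (t : ℤ) ≤ 2 * D c 1
      · left; exact ⟨hw1, c, e, h1, h4⟩
      · right
        refine ⟨hw1, c'.map (refl 1).g, e'.map (refl 1).g, ?_, ?_⟩
        · rw [← List.map_append, ← h2]
        · rw [D_refl, if_pos rfl]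
          omega
    have h2 : ((brs k).filter (fun w => up1 t (w.map (refl 1).g))).card
        ≤ ((brs k).filter (up1 t)).card := by
      refine card_le_card_of_injOn (fun w => w.map (refl 1).g) ?_ ?_
      · intro w hw
        rw [mem_coe, mem_filter, mem_brs] at hw ⊢
        exact ⟨⟨by rw [List.length_map]; exact hw.1.1, hw.1.2.map _ refl_one_zero⟩, hw.2⟩
      · intro w _ w' _ heq
        have := congrArg (List.map (refl 1).g) heq
        simpa only [refl_refl] using this
    have h3 := (card_le_card hsub).trans (card_union_le _ _)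
    omega
  have h2 : ((brs k).filter (reach 2 t)).card ≤ ((brs k).filter (reach 1 t)).card := by
    refine card_le_card_of_injOn (fun w => w.map (perm (Equiv.swap 1 2)).g) ?_ ?_
    · intro w hw
      rw [mem_coe, mem_filter, mem_brs] at hw
      obtain ⟨hw1, c, e, c', e', h1, h2, h3⟩ := hw
      rw [mem_coe, mem_filter, mem_brs]
      refine ⟨⟨by rw [List.length_map]; exact hw1.1, hw1.2.map _ perm12_zero⟩, ?_⟩
      refine ⟨c.map (perm (Equiv.swap 1 2)).g, e.map (perm (Equiv.swap 1 2)).g,
        c'.map (perm (Equiv.swap 1 2)).g, e'.map (perm (Equiv.swap 1 2)).g, ?_, ?_, ?_⟩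
      · rw [← List.map_append, ← h1]
      · rw [← List.map_append, ← h2]
      · rw [Sy.D_map, Sy.D_map, perm_A, perm_A, Equiv.symm_swap, Equiv.swap_apply_left]
        exact h3
    · intro w _ w' _ heq
      have := congrArg (List.map (perm (Equiv.swap 1 2)).g) heq
      simpa only [perm12_map] using this
  have h3 := card_up1 k t
  have h4 : brs k ⊆ (brs k).filter (reach 0 t) ∪ ((brs k).filter (reach 1 t) ∪
      (brs k).filter (reach 2 t)) := by
    intro w hw
    have hw' := mem_brs.1 hw
    obtain ⟨i, hi⟩ := exists_reach hw'.2.saw (t := t) (by rw [hw'.1]; exact ht)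
    rw [mem_union, mem_union, mem_filter, mem_filter, mem_filter]
    fin_cases i
    · left; exact ⟨hw, hi⟩
    · right; left; exact ⟨hw, hi⟩
    · right; right; exact ⟨hw, hi⟩
  have h5 := (card_le_card h4).trans ((card_union_le _ _).trans
    (Nat.add_le_add_left (card_union_le _ _) _))
  have h6 := card_le_card h0
  rw [← hS] at h3
  calc (brs k).card ≤ S.card + (2 * ((k + 1) * S.card) + 2 * ((k + 1) * S.card)) := by omega
    _ = (4 * k + 5) * S.card := by ring

/-- **Subadditivity** of the total weight of bridges of length at most `n`. -/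
theorem V_subadd {μ : ℝ} (hμ : 1 ≤ μ) (hb : ∀ n, ((brs n).card : ℝ) ≤ μ ^ n) (n m : ℕ) :
    V μ⁻¹ (n + m) ≤ V μ⁻¹ n + V μ⁻¹ m := by
  have hx : (0 : ℝ) ≤ μ⁻¹ := by positivity
  set C : Finset Word := (wle (n + m)).filter (fun w => Br w ∧ n < w.length ∧
    ∀ a b : Word, w = a ++ b → n < a.length → Lo a → Hi b → b = []) with hC
  have h1 : ∑ u ∈ C, (μ⁻¹) ^ u.length ≤ 1 := by
    refine power_trick hμ hb C (n + m) ?_ ?_ ?_
    · intro u hu; exact (mem_filter.1 hu).2.1
    · intro u hu; exact mem_wle.1 (mem_filter.1 hu).1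
    · intro u hu u' hu' e he hH
      have hu1 := (mem_filter.1 hu).2
      exact (mem_filter.1 hu').2.2.2 u e he hu1.2.1 hu1.1.lo hH
  have h2 : ∑ w ∈ ((wle (n + m)).filter Br).filter (fun w => n < w.length), (μ⁻¹) ^ w.length
      ≤ (∑ u ∈ C, (μ⁻¹) ^ u.length) * V μ⁻¹ m := by
    unfold V
    rw [sum_mul_sum, ← sum_product']
    have hcut : ∀ w : Word, ∃ p : Word × Word, w = p.1 ++ p.2 ∧ (Br w → n < w.length →
        n < p.1.length ∧ Lo p.1 ∧ Hi p.2 ∧
        ∀ a b : Word, w = a ++ b → n < a.length → Lo a → Hi b → p.1.length ≤ a.length) := by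
      intro w
      by_cases hw : Br w ∧ n < w.length
      · have hex : ∃ l : ℕ, ∃ a b : Word, w = a ++ b ∧ n < a.length ∧ Lo a ∧ Hi b ∧
            a.length = l := ⟨w.length, w, [], by simp, hw.2, hw.1.lo, Hi_nil, rfl⟩
        obtain ⟨a, b, h3, h4, h5, h6, h7⟩ := Nat.find_spec hex
        refine ⟨(a, b), h3, fun _ _ => ⟨h4, h5, h6, ?_⟩⟩
        intro a' b' h8 h9 h10 h11
        simp only
        rw [h7]
        exact Nat.find_min' hex ⟨a', b', h8, h9, h10, h11, rfl⟩
      · exact ⟨([], w), rfl, fun h3 h4 => absurd ⟨h3, h4⟩ hw⟩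
    choose p hp1 hp2 using hcut
    refine sum_le_of_inj p ?_ ?_ ?_ ?_
    · intro w hw
      rw [mem_filter, mem_filter, mem_wle] at hw
      obtain ⟨⟨h3, h4⟩, h5⟩ := hw
      obtain ⟨h6, h7, h8, h9⟩ := hp2 w h4 h5
      have hl := congrArg List.length (hp1 w)
      rw [List.length_append] at hl
      have hs := h4.saw
      rw [hp1 w] at hs
      have hl1 := h4.lo
      rw [hp1 w] at hl1
      have hh1 := h4.hi
      rw [hp1 w] at hh1
      rw [mem_product, hC, mem_filter, mem_filter, mem_wle, mem_wle]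
      refine ⟨⟨by omega, ⟨hs.left, h7, hh1.left⟩, h6, ?_⟩, by omega, hs.right, hl1.right, h8⟩
      intro a b hab h10 h11 h12
      have h13 := h9 a (b ++ (p w).2) (by rw [← List.append_assoc, ← hab]; exact hp1 w) h10 h11
        (h12.append h8)
      have h14 := congrArg List.length hab
      rw [List.length_append] at h14
      exact List.eq_nil_of_length_eq_zero (by omega)
    · intro w _ w' _ heq
      rw [hp1 w, hp1 w', heq]
    · intro w _
      rw [← pow_add, ← List.length_append, ← hp1 w]
    · intro q _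
      positivity
  have h3 : V μ⁻¹ (n + m) = V μ⁻¹ n
      + ∑ w ∈ ((wle (n + m)).filter Br).filter (fun w => n < w.length), (μ⁻¹) ^ w.length := by
    unfold V
    rw [← sum_filter_add_sum_filter_not ((wle (n + m)).filter Br) (fun w => n < w.length),
      add_comm]
    congr 1
    refine sum_congr ?_ fun _ _ => rfl
    ext w
    simp only [mem_filter, mem_wle]
    constructor
    · rintro ⟨⟨_, h4⟩, h5⟩; exact ⟨by omega, h4⟩
    · rintro ⟨h4, h5⟩; exact ⟨⟨by omega, h5⟩, by omega⟩
  have hV : 0 ≤ V μ⁻¹ m := by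
    rw [V_eq]; have := Zt_nonneg hx m; linarith
  rw [h3]
  have h4 : (∑ u ∈ C, (μ⁻¹) ^ u.length) * V μ⁻¹ m ≤ 1 * V μ⁻¹ m :=
    mul_le_mul_of_nonneg_right h1 hV
  linarith

theorem V_mul {μ : ℝ} (hμ : 1 ≤ μ) (hb : ∀ n, ((brs n).card : ℝ) ≤ μ ^ n) (k n : ℕ) :
    V μ⁻¹ (k * n) ≤ 1 + k * V μ⁻¹ n := by
  have hx : (0 : ℝ) ≤ μ⁻¹ := by positivity
  induction k with
  | zero =>
    rw [zero_mul, V_sum]
    simp only [zero_add, sum_range_one, pow_zero, mul_one, Nat.cast_zero, zero_mul, add_zero]
    have := hb 0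
    simpa using this
  | succ k ih =>
    rw [Nat.succ_mul]
    refine (V_subadd hμ hb (k * n) n).trans ?_
    push_cast
    linarith

end Pool.Agent.MP_794e6e_pr
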