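import Pool.Agent.MP_794e6e_pr.Block
import Pool.Agent.MP_794e6e_pr.Unfold

/-! Existence of blocks. -/

namespace Pool.Agent.MP_794e6e_pr
set_option maxHeartbeats 400000

open Finset
open scoped Classical

theorem block_A {μ : ℝ} (hμ : 1 ≤ μ) (hc : ∀ n, μ ^ n ≤ (walks n).card) {q P : ℕ}
    (hq : 4 ≤ q) (h1 : q ^ 6 + 1 ≤ P ^ 3) (h2 : Zt μ⁻¹ (q ^ 6 + 1) ≤ q) : IsBlock μ q P := by
  have hμ0 : 0 < μ := by linarith
  have hP : 1 ≤ P := by
    by_contra h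
    have : P = 0 := by omega
    subst this
    simp at h1
  have hq2 : q ^ 2 - 1 + 1 = q ^ 2 := Nat.sub_add_cancel (Nat.one_le_pow _ _ (by omega))
  have h3 := source_two hμ hc (q ^ 6) (q ^ 2 - 1) (by rw [hq2, ← pow_mul])
  have hl6 : 0 ≤ Real.log (6 * μ) := Real.log_nonneg (by linarith)
  have hlP : 0 ≤ Real.log P := Real.log_nonneg (by exact_mod_cast hP)
  refine block_of (S := (wle (q ^ 6 + 1)).filter (fun w => Br w ∧ ((q ^ 2 - 1 : ℕ) : ℤ) < D w 0))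
    (n := q ^ 6 + 1) (E := 2 * q + Real.log (6 * μ)) (by positivity) hP h1 ?_ ?_ ?_
  · intro w hw
    rw [mem_filter, mem_wle] at hw
    exact ⟨hw.2.1, hw.1⟩
  · change _ ≤ Wh μ⁻¹ (q ^ 6 + 1) (q ^ 2 - 1)
    have hW := Wh_nonneg (x := μ⁻¹) (by positivity) (q ^ 6 + 1) (q ^ 2 - 1)
    have h4 : Real.exp (2 * Zt μ⁻¹ (q ^ 6 + 1)) ≤ Real.exp (2 * q) :=
      Real.exp_le_exp.2 (by linarith)
    have h5 : 1 ≤ Wh μ⁻¹ (q ^ 6 + 1) (q ^ 2 - 1) * (6 * μ * Real.exp (2 * q)) := by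
      calc 1 ≤ 6 * μ * Wh μ⁻¹ (q ^ 6 + 1) (q ^ 2 - 1) * Real.exp (2 * Zt μ⁻¹ (q ^ 6 + 1)) := h3
        _ ≤ 6 * μ * Wh μ⁻¹ (q ^ 6 + 1) (q ^ 2 - 1) * Real.exp (2 * q) :=
            mul_le_mul_of_nonneg_left h4 (by positivity)
        _ = _ := by ring
    have h6 : Real.exp (2 * q + Real.log (6 * μ)) = 6 * μ * Real.exp (2 * q) := by
      rw [Real.exp_add, Real.exp_log (by positivity)]; ring
    rw [Real.exp_neg, h6, inv_le_iff_one_le_mul₀ (by positivity)]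
    exact h5
  · intro w hw
    rw [mem_filter, mem_wle] at hw
    obtain ⟨-, -, hw2⟩ := hw
    have h7 : q ^ 2 ≤ (D w 0).natAbs := by omega
    have h8 : q ≤ (D w 0).natAbs := (Nat.le_self_pow (by norm_num) q).trans h7
    refine ⟨0, by omega, ?_, ?_⟩
    · have h9 : q ^ 2 ≤ P := by
        have h10 : (q ^ 2) ^ 3 ≤ P ^ 3 := by
          have e0 : (q ^ 2) ^ 3 = q ^ 6 := by ring
          rw [e0]; omega
        exact (Nat.pow_le_pow_iff_left (by norm_num)).1 h10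
      have h11 : 1 ≤ q ^ 6 := Nat.one_le_pow _ _ (by omega)
      calc q ^ 6 + 1 ≤ 2 * q ^ 6 := by omega
        _ = 2 * q ^ 2 * (q ^ 2) ^ 2 := by ring
        _ ≤ 2 * (D w 0).natAbs * P ^ 2 := Nat.mul_le_mul (Nat.mul_le_mul_left _ h7)
            (Nat.pow_le_pow_left h9 _)
        _ ≤ 16 * (D w 0).natAbs * P ^ 2 := by
            refine Nat.mul_le_mul_right _ ?_
            omega
    · have h12 : ((q : ℝ)) ^ 2 ≤ (D w 0).natAbs := by exact_mod_cast h7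
      have h13 : (q : ℝ) ≤ (D w 0).natAbs := by exact_mod_cast h8
      have hq0 : (0 : ℝ) ≤ q := Nat.cast_nonneg _
      set A : ℝ := ((D w 0).natAbs : ℝ) with hA
      have hA0 : 0 ≤ A := Nat.cast_nonneg _
      have e1 : (2 * (q : ℝ) + Real.log (6 * μ) + 3 * (6 / 5 + 3 * Real.log P)) * q
          = 2 * (q : ℝ) ^ 2 + (Real.log (6 * μ) + 3 * (6 / 5 + 3 * Real.log P)) * q := by ring
      rw [e1]
      have h14 : (Real.log (6 * μ) + 3 * (6 / 5 + 3 * Real.log P)) * q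
          ≤ (Real.log (6 * μ) + 3 * (6 / 5 + 3 * Real.log P)) * A :=
        mul_le_mul_of_nonneg_left h13 (by positivity)
      have h15 : 0 ≤ A * Real.log P := by positivity
      have h16 : 0 ≤ A * (Real.log (6 * μ) * Real.log P) := by positivity
      nlinarith

theorem block_B1 {μ : ℝ} (hμ : 1 ≤ μ) (hb : ∀ n, ((brs n).card : ℝ) ≤ μ ^ n) {q P : ℕ}
    (hq : 4 ≤ q) (hqP : q ≤ P) (h2 : (q : ℝ) / 2 ≤ Zt μ⁻¹ (q ^ 3)) : IsBlock μ q P := by
  have hμ0 : 0 < μ := by linarith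
  have hP : 1 ≤ P := by omega
  have hl6 : 0 ≤ Real.log (6 * μ) := Real.log_nonneg (by linarith)
  have hlP : 0 ≤ Real.log P := Real.log_nonneg (by exact_mod_cast hP)
  have h3 := source_one hμ hb (q ^ 3) (q / 4)
  refine block_of (S := (wle (q ^ 3)).filter (fun w => Br w ∧ ((q / 4 : ℕ) : ℤ) < D w 0))
    (n := q ^ 3) (E := 0) le_rfl hP (Nat.pow_le_pow_left hqP _) ?_ ?_ ?_
  · intro w hw
    rw [mem_filter, mem_wle] at hw
    exact ⟨hw.2.1, hw.1⟩
  · change _ ≤ Wh μ⁻¹ (q ^ 3) (q / 4)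
    rw [neg_zero, Real.exp_zero]
    have h4 : ((q / 4 : ℕ) : ℝ) ≤ (q : ℝ) / 4 := Nat.cast_div_le
    have h5 : (4 : ℝ) ≤ q := by exact_mod_cast hq
    linarith
  · intro w hw
    rw [mem_filter, mem_wle] at hw
    obtain ⟨-, -, hw2⟩ := hw
    have h7 : q ≤ 4 * (D w 0).natAbs := by omega
    refine ⟨0, h7, ?_, ?_⟩
    · calc q ^ 3 = q * q ^ 2 := by ring
        _ ≤ (4 * (D w 0).natAbs) * P ^ 2 := Nat.mul_le_mul h7 (Nat.pow_le_pow_left hqP _)
        _ ≤ 16 * (D w 0).natAbs * P ^ 2 := by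
            refine Nat.mul_le_mul_right _ ?_
            omega
    · have h13 : (q : ℝ) ≤ 4 * (D w 0).natAbs := by exact_mod_cast h7
      set A : ℝ := ((D w 0).natAbs : ℝ) with hA
      have hA0 : 0 ≤ A := Nat.cast_nonneg _
      have h14 : (0 + 3 * (6 / 5 + 3 * Real.log P)) * q
          ≤ (0 + 3 * (6 / 5 + 3 * Real.log P)) * (4 * A) :=
        mul_le_mul_of_nonneg_left h13 (by positivity)
      have h15 : 0 ≤ A * Real.log P := by positivity
      have h16 : 0 ≤ A * (Real.log (6 * μ) * Real.log P) := by positivity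
      have h17 : 0 ≤ A * Real.log (6 * μ) := by positivity
      nlinarith

theorem exists_cbrt (k : ℕ) : ∃ t : ℕ, t ^ 3 ≤ k ∧ k < (t + 1) ^ 3 := by
  induction k with
  | zero => exact ⟨0, by norm_num, by norm_num⟩
  | succ k ih =>
    obtain ⟨t, h1, h2⟩ := ih
    by_cases h : k + 1 < (t + 1) ^ 3
    · exact ⟨t, by omega, h⟩
    · refine ⟨t + 1, by omega, ?_⟩
      have : (t + 1) ^ 3 < (t + 1 + 1) ^ 3 := Nat.pow_lt_pow_left (by omega) (by norm_num)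
      omega

theorem block_B2 {μ : ℝ} (hμ : 1 ≤ μ) {q P k : ℕ}
    (hqP : q ≤ P) (hq : 1 ≤ q) (hk1 : q ^ 3 < k) (hk2 : k ≤ P ^ 3)
    (h2 : 1 / (P : ℝ) ^ 3 ≤ (brs k).card * μ⁻¹ ^ k) : IsBlock μ q P := by
  have hμ0 : 0 < μ := by linarith
  have hP : 1 ≤ P := by omega
  have hl6 : 0 ≤ Real.log (6 * μ) := Real.log_nonneg (by linarith)
  have hlP : 0 ≤ Real.log P := Real.log_nonneg (by exact_mod_cast hP)
  have hP' : (1 : ℝ) ≤ P := by exact_mod_cast hP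
  obtain ⟨t, ht1, ht2⟩ := exists_cbrt k
  have hqt : q ≤ t := by
    by_contra hcon
    push Not at hcon
    have : (t + 1) ^ 3 ≤ q ^ 3 := Nat.pow_le_pow_left (by omega) _
    omega
  have htP : t ≤ P := by
    have h10 : t ^ 3 ≤ P ^ 3 := ht1.trans hk2
    exact (Nat.pow_le_pow_iff_left (by norm_num)).1 h10
  have h3 := source_three k t (by omega)
  refine block_of (S := (brs k).filter (fun w => ∃ i, (t : ℤ) ≤ 2 * |D w i|))
    (n := k) (E := 12 / 5 + 6 * Real.log P) (by positivity) hP hk2 ?_ ?_ ?_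
  · intro w hw
    rw [mem_filter, mem_brs] at hw
    exact ⟨hw.1.2, hw.1.1.le⟩
  · set S := (brs k).filter (fun w => ∃ i, (t : ℤ) ≤ 2 * |D w i|) with hS
    have e1 : ∑ w ∈ S, μ⁻¹ ^ w.length = S.card * μ⁻¹ ^ k := by
      rw [← nsmul_eq_mul, ← sum_const]
      refine sum_congr rfl fun w hw => ?_
      rw [hS, mem_filter, mem_brs] at hw
      rw [hw.1.1]
    rw [e1]
    have h4 : ((brs k).card : ℝ) ≤ (4 * k + 5) * S.card := by exact_mod_cast h3
    have h5 : (k : ℝ) ≤ (P : ℝ) ^ 3 := by exact_mod_cast hk2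
    have h6 : (1 : ℝ) ≤ (P : ℝ) ^ 3 := one_le_pow₀ hP'
    have hx : (0 : ℝ) < μ⁻¹ ^ k := by positivity
    have h7 : 1 / (P : ℝ) ^ 3 ≤ 9 * (P : ℝ) ^ 3 * (S.card * μ⁻¹ ^ k) := by
      calc 1 / (P : ℝ) ^ 3 ≤ (brs k).card * μ⁻¹ ^ k := h2
        _ ≤ ((4 * k + 5) * S.card) * μ⁻¹ ^ k := mul_le_mul_of_nonneg_right h4 hx.le
        _ = (4 * k + 5) * (S.card * μ⁻¹ ^ k) := by ring
        _ ≤ 9 * (P : ℝ) ^ 3 * (S.card * μ⁻¹ ^ k) :=
            mul_le_mul_of_nonneg_right (by linarith) (by positivity)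
    have h8 : Real.exp (-(12 / 5 + 6 * Real.log P)) ≤ 1 / (9 * (P : ℝ) ^ 6) := by
      rw [Real.exp_neg, one_div]
      refine inv_anti₀ (by positivity) ?_
      have h9 : Real.exp (6 * Real.log P) = (P : ℝ) ^ 6 := by
        have h := Real.exp_nat_mul (Real.log (P : ℝ)) 6
        rw [Real.exp_log (by linarith)] at h
        exact_mod_cast h
      rw [Real.exp_add, h9]
      refine mul_le_mul_of_nonneg_right ?_ (by positivity)
      have h10 : (9 : ℝ) = Real.exp (Real.log 9) := by rw [Real.exp_log (by norm_num)]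
      rw [h10]
      apply Real.exp_le_exp.2
      have h11 : Real.log 9 = 2 * Real.log 3 := by
        rw [show (9 : ℝ) = 3 ^ 2 by norm_num, Real.log_pow]; norm_num
      have := log_three_le
      linarith
    refine h8.trans ?_
    rw [div_le_iff₀ (by positivity)] at h7 ⊢
    calc (1 : ℝ) ≤ 9 * (P : ℝ) ^ 3 * (S.card * μ⁻¹ ^ k) * (P : ℝ) ^ 3 := h7
      _ = _ := by ring
  · intro w hw
    rw [mem_filter] at hw
    obtain ⟨-, i, hi⟩ := hw
    have hi' : t ≤ 2 * (D w i).natAbs := by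
      have e0 : ((D w i).natAbs : ℤ) = |D w i| := Int.natCast_natAbs _
      omega
    refine ⟨i, by omega, ?_, ?_⟩
    · have ht0 : 1 ≤ t := by omega
      calc k ≤ (t + 1) ^ 3 := ht2.le
        _ ≤ (2 * t) ^ 3 := Nat.pow_le_pow_left (by omega) _
        _ = 8 * t * t ^ 2 := by ring
        _ ≤ 8 * (2 * (D w i).natAbs) * P ^ 2 := Nat.mul_le_mul (Nat.mul_le_mul_left _ hi')
            (Nat.pow_le_pow_left htP _)
        _ = 16 * (D w i).natAbs * P ^ 2 := by ring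
    · have h13 : (q : ℝ) ≤ 2 * (D w i).natAbs := by exact_mod_cast hqt.trans hi'
      set A : ℝ := ((D w i).natAbs : ℝ) with hA
      have hA0 : 0 ≤ A := Nat.cast_nonneg _
      have h14 : (12 / 5 + 6 * Real.log P + 3 * (6 / 5 + 3 * Real.log P)) * q
          ≤ (12 / 5 + 6 * Real.log P + 3 * (6 / 5 + 3 * Real.log P)) * (2 * A) :=
        mul_le_mul_of_nonneg_left h13 (by positivity)
      have h15 : 0 ≤ A * Real.log P := by positivity
      have h16 : 0 ≤ A * (Real.log (6 * μ) * Real.log P) := by positivity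
      have h17 : 0 ≤ A * Real.log (6 * μ) := by positivity
      nlinarith

/-- **Existence of blocks.** -/
theorem exists_block {μ : ℝ} (hμ : 1 ≤ μ) (hb : ∀ n, ((brs n).card : ℝ) ≤ μ ^ n)
    (hc : ∀ n, μ ^ n ≤ (walks n).card) {q P : ℕ} (hq : 4 ≤ q) (hqP : q ≤ P)
    (h : q ^ 6 + 1 ≤ P ^ 3 ∨ (q : ℝ) ≤ Zt μ⁻¹ (P ^ 3)) : IsBlock μ q P := by
  have hx : (0 : ℝ) ≤ μ⁻¹ := by positivity
  by_cases h1 : (q : ℝ) ≤ Zt μ⁻¹ (P ^ 3)
  · by_cases h2 : (q : ℝ) / 2 ≤ Zt μ⁻¹ (q ^ 3)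
    · exact block_B1 hμ hb hq hqP h2
    · push Not at h2
      have hP0 : 0 < P := by omega
      have h3 : ∃ k ∈ Ico (q ^ 3 + 1) (P ^ 3 + 1), 1 / (P : ℝ) ^ 3 ≤ (brs k).card * μ⁻¹ ^ k := by
        by_contra hcon
        push Not at hcon
        have h4 : Zt μ⁻¹ (P ^ 3) = Zt μ⁻¹ (q ^ 3)
            + ∑ k ∈ Ico (q ^ 3 + 1) (P ^ 3 + 1), ((brs k).card : ℝ) * μ⁻¹ ^ k := by
          have e1 := V_sum μ⁻¹ (P ^ 3)
          have e2 := V_sum μ⁻¹ (q ^ 3)
          rw [V_eq] at e1 e2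
          have e3 := Finset.sum_range_add_sum_Ico (fun m => ((brs m).card : ℝ) * μ⁻¹ ^ m)
            (show q ^ 3 + 1 ≤ P ^ 3 + 1 by
              have := Nat.pow_le_pow_left hqP 3
              omega)
          linarith
        have h5 : ∑ k ∈ Ico (q ^ 3 + 1) (P ^ 3 + 1), ((brs k).card : ℝ) * μ⁻¹ ^ k
            ≤ ∑ _k ∈ Ico (q ^ 3 + 1) (P ^ 3 + 1), 1 / (P : ℝ) ^ 3 :=
          sum_le_sum fun k hk => (hcon k hk).le
        rw [sum_const, Nat.card_Ico, nsmul_eq_mul] at h5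
        have h6 : ((P ^ 3 + 1 - (q ^ 3 + 1) : ℕ) : ℝ) ≤ (P : ℝ) ^ 3 := by
          have : P ^ 3 + 1 - (q ^ 3 + 1) ≤ P ^ 3 := by omega
          exact_mod_cast this
        have h7 : ((P ^ 3 + 1 - (q ^ 3 + 1) : ℕ) : ℝ) * (1 / (P : ℝ) ^ 3) ≤ 1 := by
          rw [mul_one_div, div_le_one (by positivity)]
          exact h6
        have h8 : (4 : ℝ) ≤ q := by exact_mod_cast hq
        linarith
      obtain ⟨k, hk, hk2⟩ := h3
      rw [mem_Ico] at hk
      exact block_B2 hμ hqP (by omega) (by omega) (by omega) hk2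
  · push Not at h1
    rcases h with h | h
    · exact block_A hμ hc hq h ((Zt_mono hx h).trans h1.le)
    · exact absurd h (not_le.2 h1)

end Pool.Agent.MP_794e6e_pr
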