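import Pool.Agent.MP_794e6e_pr.Walk

/-! Sorting a vector by symmetries, and the lattice spanned by three of its images. -/

namespace Pool.Agent.MP_794e6e_pr
set_option maxHeartbeats 400000

open Finset
open scoped Classical

theorem exists_sgn (k : Fin 3) (s : Prop) : ∃ S : Sy, ∀ (u : Pt) (j : Fin 3),
    S.A u j = if j = k ∧ s then - u j else u j := by
  by_cases h : s
  · exact ⟨refl k, fun u j => by simp [h, refl]⟩
  · exact ⟨Sy.id, fun u j => by simp [h, Sy.id]⟩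

theorem exists_abs (v : Pt) : ∃ S : Sy, ∀ j, S.A v j = |v j| := by
  obtain ⟨S0, h0⟩ := exists_sgn 0 (v 0 < 0)
  obtain ⟨S1, h1⟩ := exists_sgn 1 (v 1 < 0)
  obtain ⟨S2, h2⟩ := exists_sgn 2 (v 2 < 0)
  refine ⟨S2.comp (S1.comp S0), fun j => ?_⟩
  change S2.A (S1.A (S0.A v)) j = _
  rw [h2, h1, h0]
  fin_cases j
  · by_cases h : v 0 < 0
    · simp [h, abs_of_neg h]
    · simp [h, abs_of_nonneg (not_lt.1 h)]
  · by_cases h : v 1 < 0
    · simp [h, abs_of_neg h]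
    · simp [h, abs_of_nonneg (not_lt.1 h)]
  · by_cases h : v 2 < 0
    · simp [h, abs_of_neg h]
    · simp [h, abs_of_nonneg (not_lt.1 h)]

theorem exists_sort (v : Pt) : ∃ (S : Sy) (a b c : ℕ), c ≤ b ∧ b ≤ a ∧
    S.A v = ![(a : ℤ), b, c] ∧ (∀ i, (v i).natAbs ≤ a) ∧ ∃ i, (v i).natAbs = a := by
  obtain ⟨S, hS⟩ := exists_abs v
  set σ := Tuple.sort (fun i => - |v i|) with hσ
  have hm : Monotone ((fun i => - |v i|) ∘ σ) := Tuple.monotone_sort _
  have h01 := hm (show (0 : Fin 3) ≤ 1 by decide)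
  have h12 := hm (show (1 : Fin 3) ≤ 2 by decide)
  simp only [Function.comp, Int.abs_eq_natAbs] at h01 h12
  refine ⟨(perm σ.symm).comp S, (v (σ 0)).natAbs, (v (σ 1)).natAbs, (v (σ 2)).natAbs,
    by omega, by omega, ?_, ?_, ⟨σ 0, rfl⟩⟩
  · funext j
    change S.A v (σ.symm.symm j) = _
    rw [hS, Equiv.symm_symm]
    fin_cases j <;> simp
  · intro i
    have h := hm (show (0 : Fin 3) ≤ σ.symm i from Fin.zero_le _)
    simp only [Function.comp, Equiv.apply_symm_apply, Int.abs_eq_natAbs] at h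
    omega

/-- three images of a vector -/
theorem exists_three (v : Pt) : ∃ (S₁ S₂ S₃ : Sy) (a b c : ℕ), c ≤ b ∧ b ≤ a ∧
    S₁.A v = ![(a : ℤ), b, -c] ∧ S₂.A v = ![(-c : ℤ), a, b] ∧ S₃.A v = ![(b : ℤ), -c, a] ∧
    (∀ i, (v i).natAbs ≤ a) ∧ ∃ i, (v i).natAbs = a := by
  obtain ⟨S, a, b, c, h1, h2, h3, h4, h5⟩ := exists_sort v
  have e1 : ((refl 2).comp S).A v = ![(a : ℤ), b, -c] := by
    change (refl 2).A (S.A v) = _
    rw [h3]
    funext j
    fin_cases j <;> simp [refl]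
  have e2 : ((perm (finRotate 3)).comp ((refl 2).comp S)).A v = ![(-c : ℤ), a, b] := by
    change (perm (finRotate 3)).A (((refl 2).comp S).A v) = _
    rw [e1]
    funext j
    fin_cases j <;> rfl
  have e3 : ((perm (finRotate 3)).comp ((perm (finRotate 3)).comp ((refl 2).comp S))).A v
      = ![(b : ℤ), -c, a] := by
    change (perm (finRotate 3)).A (((perm (finRotate 3)).comp ((refl 2).comp S)).A v) = _
    rw [e2]
    funext j
    fin_cases j <;> rfl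
  exact ⟨_, _, _, a, b, c, h1, h2, e1, e2, e3, h4, h5⟩

theorem mat_bound {a b c B j1 j2 j3 : ℤ} (hc : 0 ≤ c) (hcb : c ≤ b) (hba : b ≤ a) (ha : 0 < a)
    (h1 : |a * j1 - c * j2 + b * j3| ≤ B) (h2 : |b * j1 + a * j2 - c * j3| ≤ B)
    (h3 : |-c * j1 + b * j2 + a * j3| ≤ B) : |j1| * a ≤ 6 * B := by
  have hb : 0 ≤ b := hc.trans hcb
  have hB : 0 ≤ B := (abs_nonneg _).trans h1
  set Y1 := a * j1 - c * j2 + b * j3 with hY1
  set Y2 := b * j1 + a * j2 - c * j3 with hY2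
  set Y3 := -c * j1 + b * j2 + a * j3 with hY3
  have e1 : (a ^ 3 + b ^ 3 - c ^ 3 + 3 * a * b * c) * j1
      = (a ^ 2 + b * c) * Y1 + (a * c + b ^ 2) * Y2 + (c ^ 2 - a * b) * Y3 := by
    rw [hY1, hY2, hY3]; ring
  have hca : c ≤ a := hcb.trans hba
  have q1 : b * c ≤ a ^ 2 := by nlinarith
  have q2 : a * c ≤ a ^ 2 := by nlinarith
  have q3 : b ^ 2 ≤ a ^ 2 := by nlinarith
  have q4 : c ^ 2 ≤ a * b := by nlinarith
  have q5 : a * b ≤ a ^ 2 := by nlinarith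
  have q6 : 0 ≤ b * c := mul_nonneg hb hc
  have q7 : 0 ≤ a * c := mul_nonneg ha.le hc
  have q8 : 0 ≤ c ^ 2 := sq_nonneg _
  have q9 : 0 ≤ a ^ 2 := sq_nonneg _
  have q10 : 0 ≤ b ^ 2 := sq_nonneg _
  have b1 : |(a ^ 2 + b * c) * Y1| ≤ 2 * a ^ 2 * B := by
    rw [abs_mul, abs_of_nonneg (by linarith)]
    exact mul_le_mul (by linarith) h1 (abs_nonneg _) (by linarith)
  have b2 : |(a * c + b ^ 2) * Y2| ≤ 2 * a ^ 2 * B := by
    rw [abs_mul, abs_of_nonneg (by linarith)]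
    exact mul_le_mul (by linarith) h2 (abs_nonneg _) (by linarith)
  have b3 : |(c ^ 2 - a * b) * Y3| ≤ 2 * a ^ 2 * B := by
    rw [abs_mul, abs_of_nonpos (by linarith)]
    exact mul_le_mul (by linarith) h3 (abs_nonneg _) (by linarith)
  have b4 : |(a ^ 3 + b ^ 3 - c ^ 3 + 3 * a * b * c) * j1| ≤ 6 * a ^ 2 * B := by
    rw [e1]
    have t1 := abs_add_le ((a ^ 2 + b * c) * Y1 + (a * c + b ^ 2) * Y2) ((c ^ 2 - a * b) * Y3)
    have t2 := abs_add_le ((a ^ 2 + b * c) * Y1) ((a * c + b ^ 2) * Y2)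
    linarith
  have hdet : a ^ 3 ≤ a ^ 3 + b ^ 3 - c ^ 3 + 3 * a * b * c := by
    have t1 : c ^ 3 ≤ b ^ 3 := pow_le_pow_left₀ hc hcb 3
    have t2 : 0 ≤ 3 * a * b * c := by positivity
    linarith
  have hdet0 : 0 ≤ a ^ 3 + b ^ 3 - c ^ 3 + 3 * a * b * c :=
    (by positivity : (0 : ℤ) ≤ a ^ 3).trans hdet
  rw [abs_mul, abs_of_nonneg hdet0] at b4
  have b5 : a ^ 3 * |j1| ≤ 6 * a ^ 2 * B :=
    (mul_le_mul_of_nonneg_right hdet (abs_nonneg _)).trans b4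
  have b6 : a ^ 2 * (|j1| * a) ≤ a ^ 2 * (6 * B) := by
    calc a ^ 2 * (|j1| * a) = a ^ 3 * |j1| := by ring
      _ ≤ _ := b5
      _ = _ := by ring
  exact le_of_mul_le_mul_left b6 (by positivity)

/-- few multiples lie near a given point -/
theorem card_near {a b c : ℕ} (hcb : c ≤ b) (hba : b ≤ a) (ha : 0 < a) (z : Pt) (ρ J : ℕ) :
    (((range J ×ˢ (range J ×ˢ range J)).filter (fun j : ℕ × ℕ × ℕ =>
      ∀ k, |(z - j.1 • ![(a : ℤ), b, -c] - j.2.1 • ![(-c : ℤ), a, b]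
        - j.2.2 • ![(b : ℤ), -c, a]) k| ≤ ρ)).card : ℝ) ≤ (24 * ρ / a + 1) ^ 3 := by
  set S := (range J ×ˢ (range J ×ˢ range J)).filter (fun j : ℕ × ℕ × ℕ =>
      ∀ k, |(z - j.1 • ![(a : ℤ), b, -c] - j.2.1 • ![(-c : ℤ), a, b]
        - j.2.2 • ![(b : ℤ), -c, a]) k| ≤ ρ) with hS
  rcases S.eq_empty_or_nonempty with h0 | ⟨i, hi⟩
  · rw [h0]; simp; positivity
  have hclose : ∀ j ∈ S, |(j.1 : ℤ) - i.1| * a ≤ 12 * ρ ∧ |(j.2.1 : ℤ) - i.2.1| * a ≤ 12 * ρ ∧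
      |(j.2.2 : ℤ) - i.2.2| * a ≤ 12 * ρ := by
    intro j hj
    rw [hS, mem_filter] at hi hj
    have i0 := hi.2 0
    have i1 := hi.2 1
    have i2 := hi.2 2
    have j0 := hj.2 0
    have j1 := hj.2 1
    have j2 := hj.2 2
    simp only [Pi.sub_apply, Pi.smul_apply, Matrix.cons_val_zero, Matrix.cons_val_one,
      Matrix.cons_val] at i0 i1 i2 j0 j1 j2
    simp only [nsmul_eq_mul] at i0 i1 i2 j0 j1 j2
    have k0 : |(a : ℤ) * ((j.1 : ℤ) - i.1) - c * ((j.2.1 : ℤ) - i.2.1)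
        + b * ((j.2.2 : ℤ) - i.2.2)| ≤ 2 * ρ := by
      rw [abs_le] at i0 j0 ⊢
      constructor <;> nlinarith
    have k1 : |(b : ℤ) * ((j.1 : ℤ) - i.1) + a * ((j.2.1 : ℤ) - i.2.1)
        - c * ((j.2.2 : ℤ) - i.2.2)| ≤ 2 * ρ := by
      rw [abs_le] at i1 j1 ⊢
      constructor <;> nlinarith
    have k2 : |-(c : ℤ) * ((j.1 : ℤ) - i.1) + b * ((j.2.1 : ℤ) - i.2.1)
        + a * ((j.2.2 : ℤ) - i.2.2)| ≤ 2 * ρ := by
      rw [abs_le] at i2 j2 ⊢
      constructor <;> nlinarith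
    have hc0 : (0 : ℤ) ≤ c := by positivity
    have hcb' : (c : ℤ) ≤ b := by exact_mod_cast hcb
    have hba' : (b : ℤ) ≤ a := by exact_mod_cast hba
    have ha' : (0 : ℤ) < a := by exact_mod_cast ha
    refine ⟨?_, ?_, ?_⟩
    · have := mat_bound hc0 hcb' hba' ha' k0 k1 k2
      linarith
    · have := mat_bound (j1 := (j.2.1 : ℤ) - i.2.1) (j2 := (j.2.2 : ℤ) - i.2.2)
        (j3 := (j.1 : ℤ) - i.1) (B := 2 * ρ) hc0 hcb' hba' ha'
        (by convert k1 using 2; ring) (by convert k2 using 2; ring) (by convert k0 using 2; ring)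
      linarith
    · have := mat_bound (j1 := (j.2.2 : ℤ) - i.2.2) (j2 := (j.1 : ℤ) - i.1)
        (j3 := (j.2.1 : ℤ) - i.2.1) (B := 2 * ρ) hc0 hcb' hba' ha'
        (by convert k2 using 2; ring) (by convert k0 using 2; ring) (by convert k1 using 2; ring)
      linarith
  set t := 12 * ρ / a with ht
  have hdiv : ∀ x : ℤ, |x| * a ≤ 12 * ρ → |x| ≤ t := by
    intro x hx
    have h1 : x.natAbs * a ≤ 12 * ρ := by
      have : ((x.natAbs * a : ℕ) : ℤ) ≤ ((12 * ρ : ℕ) : ℤ) := by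
        push_cast
        exact hx
      exact_mod_cast this
    have h2 : x.natAbs ≤ t := (Nat.le_div_iff_mul_le ha).2 h1
    rw [Int.abs_eq_natAbs]
    exact_mod_cast h2
  have hcard : S.card ≤ (2 * t + 1) ^ 3 := by
    have h1 : (range (2 * t + 1) ×ˢ (range (2 * t + 1) ×ˢ range (2 * t + 1))).card
        = (2 * t + 1) ^ 3 := by
      rw [card_product, card_product, card_range]; ring
    rw [← h1]
    refine card_le_card_of_injOn (fun j => (j.1 + t - i.1, j.2.1 + t - i.2.1, j.2.2 + t - i.2.2))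
      ?_ ?_
    · intro j hj
      obtain ⟨h1, h2, h3⟩ := hclose j hj
      have h1 := hdiv _ h1
      have h2 := hdiv _ h2
      have h3 := hdiv _ h3
      rw [abs_le] at h1 h2 h3
      simp only [mem_coe, mem_product, mem_range]
      omega
    · rintro ⟨j1, j2, j3⟩ hj ⟨k1, k2, k3⟩ hk heq
      obtain ⟨h1, h2, h3⟩ := hclose _ hj
      obtain ⟨h1', h2', h3'⟩ := hclose _ hk
      have h1 := hdiv _ h1
      have h2 := hdiv _ h2
      have h3 := hdiv _ h3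
      have h1' := hdiv _ h1'
      have h2' := hdiv _ h2'
      have h3' := hdiv _ h3'
      rw [abs_le] at h1 h2 h3 h1' h2' h3'
      simp only [Prod.mk.injEq] at heq ⊢
      simp only at h1 h2 h3 h1' h2' h3'
      omega
  have h2 : (S.card : ℝ) ≤ ((2 * t + 1 : ℕ) : ℝ) ^ 3 := by exact_mod_cast hcard
  refine h2.trans (pow_le_pow_left₀ (Nat.cast_nonneg _) ?_ 3)
  have h3 : (t : ℝ) ≤ ((12 * ρ : ℕ) : ℝ) / a := by rw [ht]; exact Nat.cast_div_le
  push_cast at h3 ⊢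
  have e : (24 : ℝ) * ρ / a = 2 * (12 * ρ / a) := by ring
  rw [e]
  linarith

end Pool.Agent.MP_794e6e_pr
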