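import Pool.Agent.MP_794e6e_pr.Spread
import Pool.Agent.MP_794e6e_pr.Lattice

/-! Chains of blocks; the averaging operators. -/

namespace Pool.Agent.MP_794e6e_pr
set_option maxHeartbeats 400000

open Finset
open scoped Classical

/-- averaging operator of a law -/
noncomputable def op (P : Law) (ψ : Pt → ℝ) (z : Pt) : ℝ := P.E (fun w => ψ (z - D w))

theorem op_conv (P Q : Law) (ψ : Pt → ℝ) : op (P.conv Q) ψ = op P (op Q ψ) := by
  funext z
  unfold op
  rw [Law.E_conv]
  congr 1
  funext u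
  congr 1
  funext v
  rw [D_append, sub_sub]

theorem op_comm (P Q : Law) (ψ : Pt → ℝ) : op P (op Q ψ) = op Q (op P ψ) := by
  funext z
  unfold op
  rw [Law.E_comm]
  congr 1
  funext u
  congr 1
  funext v
  rw [sub_right_comm]

theorem op_mono {ψ φ : Pt → ℝ} (h : ∀ z, ψ z ≤ φ z) (P : Law) (z : Pt) : op P ψ z ≤ op P φ z :=
  P.E_mono fun _ => h _

theorem op_le {ψ : Pt → ℝ} {c : ℝ} (h : ∀ z, ψ z ≤ c) (P : Law) (z : Pt) : op P ψ z ≤ c :=
  P.E_le fun _ => h _

/-- indicator of the origin -/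
noncomputable def dz (z : Pt) : ℝ := if z = 0 then 1 else 0

/-- indicator of a box -/
noncomputable def bx (ρ : ℕ) (z : Pt) : ℝ := if ∀ k, |z k| ≤ ρ then 1 else 0

theorem E_eq_op (P : Law) (y : Pt) :
    P.E (fun w => if D w = y then (1 : ℝ) else 0) = op P dz y := by
  unfold op dz
  congr 1
  funext w
  by_cases h : D w = y
  · rw [if_pos h, if_pos (by rw [h, sub_self])]
  · rw [if_neg h, if_neg (fun h1 => h (sub_eq_zero.1 h1).symm)]

theorem op_dz_le {U : Law} {π : ℝ} {ρ : ℕ}
    (hπ : ∀ y, U.E (fun w => if D w = y then (1 : ℝ) else 0) ≤ π)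
    (hbox : ∀ i k, |D (U.f i) k| ≤ ρ) (z : Pt) : op U dz z ≤ π * bx ρ z := by
  unfold bx
  split_ifs with h
  · rw [mul_one, ← E_eq_op]
    exact hπ z
  · rw [mul_zero]
    refine U.E_le fun i => ?_
    unfold dz
    rw [if_neg]
    intro h1
    apply h
    intro k
    rw [sub_eq_zero.1 h1]
    exact hbox i k

theorem op_map_mul (P : Law) (π : ℝ) (ψ : Pt → ℝ) (z : Pt) :
    op P (fun z => π * ψ z) z = π * op P ψ z := P.E_smul π _

/-- concatenations of `j` bridges of displacement `v` and length at most `n` -/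
inductive Ch (v : Pt) (n : ℕ) : ℕ → Word → Prop
  | nil : Ch v n 0 []
  | cons (j : ℕ) (u w : Word) : Br u → D u = v → u.length ≤ n → Ch v n j w → Ch v n (j + 1) (u ++ w)

theorem Ch.br {v : Pt} {n j : ℕ} {w : Word} (h : Ch v n j w) : Br w := by
  induction h with
  | nil => exact Br_nil
  | cons j u w h1 _ _ _ ih => exact h1.append ih

theorem Ch.D {v : Pt} {n j : ℕ} {w : Word} (h : Ch v n j w) : D w = j • v := by
  induction h with
  | nil => simp
  | cons j u w _ h2 _ _ ih => rw [D_append, h2, ih, succ_nsmul, add_comm]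

theorem Ch.length {v : Pt} {n j : ℕ} {w : Word} (h : Ch v n j w) : w.length ≤ j * n := by
  induction h with
  | nil => simp
  | cons j u w _ _ h3 _ ih => rw [List.length_append, Nat.succ_mul]; omega

theorem Ch.pow {B : Law} {v : Pt} {n : ℕ} (h : ∀ i, Br (B.f i) ∧ MP_794e6e_pr.D (B.f i) = v ∧
    (B.f i).length ≤ n) (j : ℕ) : ∀ i, Ch v n j ((B.pow j).f i) := by
  induction j with
  | zero => intro i; exact Ch.nil
  | succ j ih =>
    rintro ⟨i, i'⟩
    obtain ⟨h1, h2, h3⟩ := h i
    exact Ch.cons j _ _ h1 h2 h3 (ih i')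

theorem Br.pts_range {u : Word} (h : Br u) {p : Pt} (hp : p ∈ pts u) : 0 ≤ p 0 ∧ p 0 ≤ D u 0 := by
  obtain ⟨a, b, hab, rfl⟩ := mem_pts.1 hp
  constructor
  · by_cases ha : a = []
    · subst ha; simp
    · exact (h.hi a b hab ha).le
  · have := h.lo a b hab
    rw [hab, D_append, Pi.add_apply]
    omega

theorem card_near_int {h : ℕ} (hh : 0 < h) (α β : ℤ) (d N : ℕ) (hd : β - α ≤ d) :
    ((range N).filter (fun i : ℕ => α ≤ (i + 1) * h ∧ (i : ℤ) * h ≤ β)).card ≤ d / h + 2 := by
  set S := (range N).filter (fun i : ℕ => α ≤ (i + 1) * h ∧ (i : ℤ) * h ≤ β) with hS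
  rcases S.eq_empty_or_nonempty with h0 | hne
  · rw [h0]; simp
  set i0 := S.min' hne with hi0
  have hi0S : i0 ∈ S := min'_mem _ _
  have hsub : S ⊆ Icc i0 (i0 + (d / h + 1)) := by
    intro i hi
    have h1 : i0 ≤ i := min'_le _ _ hi
    rw [mem_Icc]
    refine ⟨h1, ?_⟩
    rw [hS, mem_filter] at hi hi0S
    have h2 : ((i : ℤ) - i0 - 1) * h ≤ d := by nlinarith [hi.2.2, hi0S.2.1]
    have h3 : (i - i0 - 1) * h ≤ d := by
      by_cases h4 : i0 + 1 ≤ i
      · have h5 : ((i - i0 - 1 : ℕ) : ℤ) = (i : ℤ) - i0 - 1 := by omega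
        have h6 : (((i - i0 - 1 : ℕ) * h : ℕ) : ℤ) ≤ d := by
          rw [Nat.cast_mul, h5]; exact h2
        exact_mod_cast h6
      · have : i - i0 - 1 = 0 := by omega
        rw [this]; simp
    have h7 : i - i0 - 1 ≤ d / h := (Nat.le_div_iff_mul_le hh).2 h3
    generalize d / h = g at h7 ⊢
    omega
  refine (card_le_card hsub).trans ?_
  rw [Nat.card_Icc]
  generalize d / h = g
  omega

theorem Ch.window_aux {v : Pt} {n h : ℕ} (hv : v 0 = h) {j : ℕ} {w : Word}
    (hw : Ch v n j w) : ∀ α β : ℤ, ((pts w).filter (fun p => α ≤ p 0 ∧ p 0 ≤ β)).card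
      ≤ (n + 1) * ((range (j + 1)).filter
        (fun i : ℕ => α ≤ (i + 1) * h ∧ (i : ℤ) * h ≤ β)).card := by
  induction hw with
  | nil =>
    intro α β
    by_cases hc : α ≤ 0 ∧ 0 ≤ β
    · have h1 : ((pts []).filter (fun p : Pt => α ≤ p 0 ∧ p 0 ≤ β)).card ≤ 1 := by
        refine (card_filter_le _ _).trans ((card_pts_le []).trans ?_)
        simp
      have h2 : 1 ≤ ((range (0 + 1)).filter
          (fun i : ℕ => α ≤ ((i : ℤ) + 1) * h ∧ (i : ℤ) * h ≤ β)).card := by
        rw [Nat.one_le_iff_ne_zero, ← Nat.pos_iff_ne_zero, card_pos]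
        refine ⟨0, ?_⟩
        rw [mem_filter, mem_range]
        refine ⟨by omega, ?_, ?_⟩
        · push_cast; nlinarith [hc.1, hc.2, Int.natCast_nonneg h]
        · push_cast; linarith [hc.2]
      exact h1.trans (h2.trans (Nat.le_mul_of_pos_left _ (by omega)))
    · have h1 : (pts []).filter (fun p : Pt => α ≤ p 0 ∧ p 0 ≤ β) = ∅ := by
        rw [filter_eq_empty_iff]
        intro p hp hcon
        obtain ⟨a, b, hab, rfl⟩ := mem_pts.1 hp
        have := List.append_eq_nil_iff.1 hab.symm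
        rw [this.1] at hcon
        exact hc (by simpa using hcon)
      rw [h1, card_empty]
      exact Nat.zero_le _
  | cons j u w h1 h2 h3 _ ih =>
    intro α β
    have hpu : ((pts u).filter (fun p => α ≤ p 0 ∧ p 0 ≤ β)).card
        ≤ (n + 1) * (if α ≤ (h : ℤ) ∧ 0 ≤ β then 1 else 0) := by
      split_ifs with hc
      · rw [mul_one]
        exact (card_filter_le _ _).trans ((card_pts_le u).trans (by omega))
      · rw [mul_zero, Nat.le_zero, card_eq_zero, filter_eq_empty_iff]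
        intro p hp hcon
        obtain ⟨h4, h5⟩ := h1.pts_range hp
        rw [h2, hv] at h5
        exact hc ⟨by linarith [hcon.1], by linarith [hcon.2]⟩
    have hpw : ((tr (MP_794e6e_pr.D u) (pts w)).filter (fun p => α ≤ p 0 ∧ p 0 ≤ β)).card
        ≤ ((pts w).filter (fun p => α - h ≤ p 0 ∧ p 0 ≤ β - h)).card := by
      refine card_le_card_of_injOn (fun p => p - v) ?_ ?_
      · intro p hp
        rw [mem_coe, mem_filter, mem_tr, h2] at hp
        rw [mem_coe, mem_filter]
        refine ⟨hp.1, ?_⟩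
        simp only [Pi.sub_apply, hv]
        constructor
        · linarith [hp.2.1]
        · linarith [hp.2.2]
      · intro p _ q _ hpq
        exact sub_left_injective hpq
    have hcount : (if α ≤ (h : ℤ) ∧ 0 ≤ β then 1 else 0) + ((range (j + 1)).filter
        (fun i : ℕ => α - h ≤ (i + 1) * h ∧ (i : ℤ) * h ≤ β - h)).card
        = ((range (j + 1 + 1)).filter
        (fun i : ℕ => α ≤ (i + 1) * h ∧ (i : ℤ) * h ≤ β)).card := by
      rw [card_filter, card_filter, sum_range_succ' _ (j + 1), add_comm]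
      congr 1
      · refine sum_congr rfl fun i _ => ?_
        have e : (α - h ≤ ((i : ℤ) + 1) * h ∧ (i : ℤ) * h ≤ β - h)
            ↔ (α ≤ (((i + 1 : ℕ) : ℤ) + 1) * h ∧ (((i + 1 : ℕ) : ℤ)) * h ≤ β) := by
          push_cast
          constructor
          · rintro ⟨h4, h5⟩; constructor <;> linarith
          · rintro ⟨h4, h5⟩; constructor <;> linarith
        simp only [e]
      · simp
    calc ((pts (u ++ w)).filter (fun p => α ≤ p 0 ∧ p 0 ≤ β)).card
        ≤ ((pts u).filter (fun p => α ≤ p 0 ∧ p 0 ≤ β)).card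
          + ((tr (MP_794e6e_pr.D u) (pts w)).filter (fun p => α ≤ p 0 ∧ p 0 ≤ β)).card := by
          rw [pts_append, filter_union]
          exact card_union_le _ _
      _ ≤ (n + 1) * (if α ≤ (h : ℤ) ∧ 0 ≤ β then 1 else 0) + (n + 1) * ((range (j + 1)).filter
        (fun i : ℕ => α - h ≤ (i + 1) * h ∧ (i : ℤ) * h ≤ β - h)).card :=
          add_le_add hpu (hpw.trans (ih _ _))
      _ = _ := by rw [← mul_add, hcount]

/-- **few points of a chain lie in a window** -/
theorem Ch.window {v : Pt} {n h : ℕ} (hv : v 0 = h) (hh : 0 < h) {j : ℕ} {w : Word}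
    (hw : Ch v n j w) (ρ : ℕ) (c : ℤ) : ((pts w).filter (fun p => |c - p 0| ≤ ρ)).card
      ≤ (n + 1) * (2 * ρ / h + 2) := by
  have h1 := hw.window_aux hv (c - ρ) (c + ρ)
  have h2 := card_near_int hh (c - ρ) (c + ρ) (2 * ρ) (j + 1) (by push_cast; linarith)
  have h3 : ((pts w).filter (fun p => |c - p 0| ≤ ρ)).card
      ≤ ((pts w).filter (fun p => c - ρ ≤ p 0 ∧ p 0 ≤ c + ρ)).card := by
    refine card_le_card fun p hp => ?_
    rw [mem_filter] at hp ⊢
    refine ⟨hp.1, ?_⟩
    have := hp.2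
    rw [abs_le] at this
    constructor <;> linarith [this.1, this.2]
  exact h3.trans (h1.trans (Nat.mul_le_mul_left _ h2))

end Pool.Agent.MP_794e6e_pr
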