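import Pool.Agent.MP_794e6e_pr.Step2
import Pool.Agent.MP_794e6e_pr.Loops

/-! The recursive inequality. -/

namespace Pool.Agent.MP_794e6e_pr
set_option maxHeartbeats 1000000

open Finset Filter
open scoped Classical

theorem Lev_all {μ : ℝ} (hμ : 1 ≤ μ) (hb : ∀ n, ((brs n).card : ℝ) ≤ μ ^ n)
    (hc : ∀ n, μ ^ n ≤ (walks n).card) {d g X : ℕ} (H1 : 7 * d + 60 ≤ 19 * g)
    (H2 : 13 * g ≤ 5 * d) (hX : g ≤ X) : 2 * X ≤ d → Lev μ d g X := by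
  induction X, hX using Nat.le_induction with
  | base => intro _; exact Lev_base hμ (by omega)
  | succ X hX ih => intro h; exact Lev_step hμ hb hc H1 H2 hX (by omega) (ih (by omega))

/-- the maximal excess -/
noncomputable def FF (μ : ℝ) (N : ℕ) : ℝ :=
  (range (N + 1)).sup' ⟨0, by simp⟩ (fun k => Real.log (((walks k).card : ℝ) * μ⁻¹ ^ k))

theorem le_FF (μ : ℝ) {k N : ℕ} (h : k ≤ N) :
    Real.log (((walks k).card : ℝ) * μ⁻¹ ^ k) ≤ FF μ N :=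
  le_sup' (fun k => Real.log (((walks k).card : ℝ) * μ⁻¹ ^ k)) (mem_range.2 (by omega))

theorem FF_le {μ : ℝ} {N : ℕ} {B : ℝ}
    (h : ∀ k ≤ N, Real.log (((walks k).card : ℝ) * μ⁻¹ ^ k) ≤ B) : FF μ N ≤ B :=
  sup'_le _ _ fun k hk => h k (by rw [mem_range] at hk; omega)

theorem FF_mono (μ : ℝ) {N N' : ℕ} (h : N ≤ N') : FF μ N ≤ FF μ N' :=
  FF_le fun _ hk => le_FF μ (hk.trans h)

theorem term_pos {μ : ℝ} (hμ : 1 ≤ μ) (k : ℕ) : 0 < ((walks k).card : ℝ) * μ⁻¹ ^ k := by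
  have h1 : (0 : ℝ) < (walks k).card := by exact_mod_cast walks_card_pos k
  have h2 : 0 < μ := by linarith
  positivity

theorem term_le_exp {μ : ℝ} (hμ : 1 ≤ μ) {k N : ℕ} (h : k ≤ N) :
    ((walks k).card : ℝ) * μ⁻¹ ^ k ≤ Real.exp (FF μ N) := by
  rw [← Real.exp_log (term_pos hμ k)]
  exact Real.exp_le_exp.2 (le_FF μ h)

theorem FF_nonneg {μ : ℝ} (N : ℕ) : 0 ≤ FF μ N := by
  refine le_trans ?_ (le_FF μ (Nat.zero_le N))
  have : (walks 0).card = 1 := by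
    rw [card_eq_one]
    refine ⟨[], ?_⟩
    ext w
    rw [mem_walks, mem_singleton, List.length_eq_zero_iff]
    constructor
    · exact fun h => h.1
    · rintro rfl; exact ⟨rfl, saw_nil⟩
  rw [this]
  simp

theorem TT_zero_le {μ : ℝ} (hμ : 1 ≤ μ) (L : ℕ) :
    TT μ⁻¹ 0 L ≤ (L + 1) * Real.exp (FF μ L) := by
  rw [TT_zero]
  calc ∑ n ∈ range (L + 1), ((walks n).card : ℝ) * μ⁻¹ ^ n
      ≤ ∑ _n ∈ range (L + 1), Real.exp (FF μ L) :=
        sum_le_sum fun n hn => term_le_exp hμ (by rw [mem_range] at hn; omega)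
    _ = _ := by rw [sum_const, card_range, nsmul_eq_mul]; push_cast; ring

/-- a long block in the bad case -/
theorem long_block {μ : ℝ} (hμ : 1 ≤ μ) (hb : ∀ n, ((brs n).card : ℝ) ≤ μ ^ n) {d g m : ℕ}
    (hm : 2 ≤ m) (hg : 1 ≤ g) (hbad : Bad μ d g m) :
    ∃ (v : Pt) (F : Finset Word) (H : ℕ), (∀ w ∈ F, Br w ∧ D w = v ∧ w.length ≤ m ^ (d - g + 1)) ∧
      Real.exp (-(0 + 3 * Real.log (2 * ((m ^ (d - g + 1) : ℕ) : ℝ) + 1)))
        ≤ ∑ w ∈ F, μ⁻¹ ^ w.length ∧ v 0 = H ∧ m ^ g ≤ 2 * H := by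
  unfold Bad at hbad
  set n₀ := m ^ (d - g + 1) with hn₀
  set t := m ^ g / 2 with ht
  have h1 := source_one hμ hb n₀ t
  have ht2 : (t : ℝ) ≤ (m : ℝ) ^ g / 2 := by
    have h2 : (t : ℝ) ≤ ((m ^ g : ℕ) : ℝ) / (2 : ℕ) := by rw [ht]; exact Nat.cast_div_le
    push_cast at h2
    exact h2
  have hm' : (2 : ℝ) ≤ m := by exact_mod_cast hm
  have hmg : (2 : ℝ) ≤ (m : ℝ) ^ g := by
    calc (2 : ℝ) ≤ m := hm'
      _ = (m : ℝ) ^ 1 := (pow_one _).symm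
      _ ≤ _ := pow_le_pow_right₀ (by linarith) hg
  have h3 : Real.exp (-0) ≤ Wh μ⁻¹ n₀ t := by
    rw [neg_zero, Real.exp_zero]
    linarith
  unfold Wh at h3
  obtain ⟨v, F, hFS, hFv, hF⟩ := pigeon (n := n₀)
    (fun w hw => mem_wle.1 (mem_filter.1 hw).1) h3
  have hne : F.Nonempty := by
    by_contra h
    rw [not_nonempty_iff_eq_empty] at h
    rw [h, sum_empty] at hF
    exact absurd hF (not_le.2 (Real.exp_pos _))
  obtain ⟨w, hw⟩ := hne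
  have h4 := hFS hw
  rw [mem_filter, hFv w hw] at h4
  have h5 : (t : ℤ) < v 0 := h4.2.2
  have h6 : 0 < v 0 := lt_of_le_of_lt (by positivity) h5
  refine ⟨v, F, (v 0).toNat, ?_, hF, ?_, ?_⟩
  · intro w' hw'
    have h7 := hFS hw'
    rw [mem_filter, mem_wle] at h7
    exact ⟨h7.2.1, hFv w' hw', h7.1⟩
  · omega
  · omega

/-- the last spreader in the bad case -/
theorem last_spreader {μ : ℝ} (hμ : 1 ≤ μ) (hb : ∀ n, ((brs n).card : ℝ) ≤ μ ^ n)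
    (hc : ∀ n, μ ^ n ≤ (walks n).card) {d g : ℕ} (H1 : 7 * d + 60 ≤ 19 * g)
    (H2 : 13 * g ≤ 5 * d) : ∃ C : ℝ, 0 < C ∧ ∀ᶠ m : ℕ in atTop, Bad μ d g m →
      ∃ (W : Law) (π : ℝ) (ρ T : ℕ) (h M : ℝ), Spr μ⁻¹ (m ^ d) (2 * m ^ d) W π ρ T h M ∧
        T ≤ m ^ d ∧ 0 < M ∧ 0 ≤ π ∧ h + ((m : ℝ) ^ d + 1) ^ 2 * π ≤ C * (m : ℝ) ^ g ∧
        Real.log (2 * M) ≤ C * (m : ℝ) ^ (g + 1) := by
  have hμ0 : 0 < μ := by linarith
  have hlμ : 0 ≤ Real.log μ := Real.log_nonneg hμ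
  obtain ⟨C, hC1, hC⟩ := Lev_all hμ hb hc H1 H2 (X := d / 2) (by omega) (by omega)
  set X := d / 2 with hX
  have hX1 : 2 * X ≤ d := by omega
  have hX2 : d ≤ 2 * X + 1 := by omega
  set C6 := 2 * C + 76 * C ^ 2 with hC6
  have hC6' : 0 < C6 := by positivity
  set C8 := 1 + 2 * C + 10 * (d + 1) with hC8
  have hC8' : 0 < C8 := by positivity
  refine ⟨C6 + C8, by positivity, ?_⟩
  filter_upwards [hC, eventually_ge_atTop 6,
    (tendsto_natCast_atTop_atTop (R := ℝ)).eventually_ge_atTop (2 * C + 1)] with m hm hm6 hmC hbad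
  obtain ⟨U, π, ρ, T, h, M, hU, hM0, hρ, hπ, hT, hh, hM⟩ := hm hbad
  obtain ⟨v, F, H, b1, b2, b3, b4⟩ := long_block hμ hb (by omega) (by omega) hbad
  have hm1 : (1 : ℝ) ≤ m := by
    have : 1 ≤ m := by omega
    exact_mod_cast this
  have hm6' : (6 : ℝ) ≤ m := by exact_mod_cast hm6
  have hm0 : (0 : ℝ) < m := by linarith
  have hmg1 : 1 ≤ m ^ g := Nat.one_le_pow _ _ (by omega)
  have hH0 : 0 < H := by omega
  have hH0' : (0 : ℝ) < H := by exact_mod_cast hH0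
  have hH : (m : ℝ) ^ g ≤ 2 * H := by exact_mod_cast b4
  set n₀ := m ^ (d - g + 1) with hn₀
  set J := m ^ (g - 2) with hJ
  have hJ0 : 0 < J := Nat.pos_of_ne_zero (by positivity)
  have hJn : J * n₀ = m ^ (d - 1) := by
    rw [hJ, hn₀, ← pow_add]
    congr 1
    omega
  have hπ0 := hU.nonneg
  -- the length
  have hT1 : (T : ℝ) ≤ C * (m : ℝ) ^ (d - 1) := by
    have h1 : (T : ℝ) * (m : ℝ) ^ d ≤ C * (m : ℝ) ^ (d - 1) * (m : ℝ) ^ d := by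
      refine hT.trans ?_
      rw [mul_assoc, ← pow_add]
      exact mul_le_mul_of_nonneg_left (pow_le_pow_right₀ hm1 (by omega)) (by linarith)
    exact le_of_mul_le_mul_right h1 (by positivity)
  have hTW : T + (J * n₀ + T) ≤ m ^ d := by
    have h1 : (m : ℝ) ^ d = m * (m : ℝ) ^ (d - 1) := by
      rw [← pow_succ']
      congr 1
      omega
    have h2 : (T : ℝ) + (m ^ (d - 1) + T) ≤ (m : ℝ) ^ d := by
      rw [h1]
      have h3 : (0 : ℝ) < (m : ℝ) ^ (d - 1) := by positivity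
      nlinarith
    rw [hJn]
    exact_mod_cast h2
  have hLam : T + J * n₀ + 1 ≤ 2 * m ^ d := by
    have h6 : 1 ≤ m ^ d := Nat.one_le_pow _ _ (by omega)
    omega
  have hE0 : 0 ≤ 0 + 3 * Real.log (2 * (n₀ : ℝ) + 1) := by
    have : 0 ≤ Real.log (2 * (n₀ : ℝ) + 1) := Real.log_nonneg (by
      have : (0 : ℝ) ≤ n₀ := Nat.cast_nonneg _
      linarith)
    linarith
  obtain ⟨W, hW⟩ := final (by positivity : 0 < μ⁻¹) hU hM0.le b1 b2 hE0 hJ0 hLam hH0 b3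
  set πW := π * (2 * (ρ : ℝ) / H + 2) / J with hπW
  set hWW := 2 * h + 2 * (π * (((2 * m ^ d : ℕ) : ℝ) * (((n₀ : ℝ) + 1) * (2 * ρ / H + 2) + T)))
    with hhW
  set MW := M ^ 2 * (Real.exp (0 + 3 * Real.log (2 * (n₀ : ℝ) + 1))
    * (((m ^ d : ℕ) : ℝ) + 1)) ^ J * (((m ^ d : ℕ) : ℝ) + 1) ^ 2 with hMW
  -- window factor
  have hwin : 2 * (ρ : ℝ) / H + 2 ≤ 6 * C * (m : ℝ) ^ (X - g) := by
    have h1 : 2 * (ρ : ℝ) / H ≤ 4 * C * (m : ℝ) ^ (X - g) := by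
      rw [div_le_iff₀ hH0']
      have e1 : (m : ℝ) ^ X = (m : ℝ) ^ (X - g) * (m : ℝ) ^ g := by
        rw [← pow_add]; congr 1; omega
      have h2 : (0 : ℝ) < (m : ℝ) ^ (X - g) := by positivity
      calc 2 * (ρ : ℝ) ≤ 2 * (C * ((m : ℝ) ^ (X - g) * (m : ℝ) ^ g)) := by rw [← e1]; linarith
        _ ≤ 2 * (C * ((m : ℝ) ^ (X - g) * (2 * H))) := by
            refine mul_le_mul_of_nonneg_left (mul_le_mul_of_nonneg_left
              (mul_le_mul_of_nonneg_left hH h2.le) (by linarith)) (by norm_num)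
        _ = _ := by ring
    have h3 : 1 ≤ (m : ℝ) ^ (X - g) := one_le_pow₀ hm1
    have h4 : 1 ≤ C * (m : ℝ) ^ (X - g) := by nlinarith
    linarith
  have hwin0 : 0 ≤ 2 * (ρ : ℝ) / H + 2 := by positivity
  have hn1 : (n₀ : ℝ) + 1 ≤ 2 * (m : ℝ) ^ (d - g + 1) := by
    rw [hn₀]
    push_cast
    have : 1 ≤ (m : ℝ) ^ (d - g + 1) := one_le_pow₀ hm1
    linarith
  -- π bound
  have hπC : π * (m : ℝ) ^ (3 * X) ≤ C := hπ
  have hq1 : π * (((2 * m ^ d : ℕ) : ℝ) * (((n₀ : ℝ) + 1) * (2 * ρ / H + 2)))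
      ≤ 24 * C ^ 2 * (m : ℝ) ^ g := by
    have h1 : (((2 * m ^ d : ℕ) : ℝ) * (((n₀ : ℝ) + 1) * (2 * ρ / H + 2)))
        ≤ 24 * C * ((m : ℝ) ^ (3 * X) * (m : ℝ) ^ g) := by
      calc (((2 * m ^ d : ℕ) : ℝ) * (((n₀ : ℝ) + 1) * (2 * ρ / H + 2)))
          ≤ (2 * (m : ℝ) ^ d) * ((2 * (m : ℝ) ^ (d - g + 1)) * (6 * C * (m : ℝ) ^ (X - g))) := by
            push_cast
            exact mul_le_mul_of_nonneg_left (mul_le_mul hn1 hwin hwin0 (by positivity))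
              (by positivity)
        _ = 24 * C * (m : ℝ) ^ (d + (d - g + 1) + (X - g)) := by rw [pow_add, pow_add]; ring
        _ ≤ 24 * C * (m : ℝ) ^ (3 * X + g) :=
            mul_le_mul_of_nonneg_left (pow_le_pow_right₀ hm1 (by omega)) (by positivity)
        _ = _ := by rw [pow_add]
    calc π * (((2 * m ^ d : ℕ) : ℝ) * (((n₀ : ℝ) + 1) * (2 * ρ / H + 2)))
        ≤ π * (24 * C * ((m : ℝ) ^ (3 * X) * (m : ℝ) ^ g)) := mul_le_mul_of_nonneg_left h1 hπ0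
      _ = 24 * C * (π * (m : ℝ) ^ (3 * X)) * (m : ℝ) ^ g := by ring
      _ ≤ 24 * C * C * (m : ℝ) ^ g :=
          mul_le_mul_of_nonneg_right (mul_le_mul_of_nonneg_left hπC (by positivity)) (by positivity)
      _ = _ := by ring
  have hq2 : π * (((2 * m ^ d : ℕ) : ℝ) * T) ≤ 2 * C ^ 2 * (m : ℝ) ^ g := by
    calc π * (((2 * m ^ d : ℕ) : ℝ) * T) = 2 * π * ((T : ℝ) * (m : ℝ) ^ d) := by push_cast; ring
      _ ≤ 2 * π * (C * (m : ℝ) ^ (g + 3 * X)) := mul_le_mul_of_nonneg_left hT (by positivity)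
      _ = 2 * C * (π * (m : ℝ) ^ (3 * X)) * (m : ℝ) ^ g := by rw [pow_add]; ring
      _ ≤ 2 * C * C * (m : ℝ) ^ g :=
          mul_le_mul_of_nonneg_right (mul_le_mul_of_nonneg_left hπC (by positivity)) (by positivity)
      _ = _ := by ring
  have hhW' : hWW ≤ (2 * C + 52 * C ^ 2) * (m : ℝ) ^ g := by
    have e1 : hWW = 2 * h + 2 * (π * (((2 * m ^ d : ℕ) : ℝ) * (((n₀ : ℝ) + 1) * (2 * ρ / H + 2))))
        + 2 * (π * (((2 * m ^ d : ℕ) : ℝ) * T)) := by rw [hhW]; ring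
    rw [e1]
    have e2 : (2 * C + 52 * C ^ 2) * (m : ℝ) ^ g = 2 * (C * (m : ℝ) ^ g)
        + 2 * (24 * C ^ 2 * (m : ℝ) ^ g) + 2 * (2 * C ^ 2 * (m : ℝ) ^ g) := by ring
    rw [e2]
    linarith
  have hπW' : ((m : ℝ) ^ d + 1) ^ 2 * πW ≤ 24 * C ^ 2 * (m : ℝ) ^ g := by
    have h1 : (m : ℝ) ^ d + 1 ≤ 2 * (m : ℝ) ^ d := by
      have : 1 ≤ (m : ℝ) ^ d := one_le_pow₀ hm1
      linarith
    have h2 : ((m : ℝ) ^ d + 1) ^ 2 ≤ 4 * (m : ℝ) ^ (2 * d) := by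
      calc ((m : ℝ) ^ d + 1) ^ 2 ≤ (2 * (m : ℝ) ^ d) ^ 2 := pow_le_pow_left₀ (by positivity) h1 2
        _ = _ := by rw [mul_pow, ← pow_mul, mul_comm d 2]; norm_num
    have hJ' : (J : ℝ) = (m : ℝ) ^ (g - 2) := by rw [hJ]; push_cast; rfl
    have h3 : πW * (m : ℝ) ^ (g - 2) = π * (2 * (ρ : ℝ) / H + 2) := by
      rw [hπW, hJ']
      field_simp
    have h4 : 4 * (m : ℝ) ^ (2 * d) * (2 * (ρ : ℝ) / H + 2)
        ≤ 24 * C * ((m : ℝ) ^ (3 * X) * (m : ℝ) ^ g) * (m : ℝ) ^ (g - 2) := by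
      calc 4 * (m : ℝ) ^ (2 * d) * (2 * (ρ : ℝ) / H + 2)
          ≤ 4 * (m : ℝ) ^ (2 * d) * (6 * C * (m : ℝ) ^ (X - g)) :=
            mul_le_mul_of_nonneg_left hwin (by positivity)
        _ = 24 * C * (m : ℝ) ^ (2 * d + (X - g)) := by rw [pow_add]; ring
        _ ≤ 24 * C * (m : ℝ) ^ (3 * X + g + (g - 2)) :=
            mul_le_mul_of_nonneg_left (pow_le_pow_right₀ hm1 (by omega)) (by positivity)
        _ = _ := by rw [pow_add, pow_add]; ring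
    have hg2 : (0 : ℝ) < (m : ℝ) ^ (g - 2) := by positivity
    have hπW0 : 0 ≤ πW := by rw [hπW]; positivity
    have h5 : ((m : ℝ) ^ d + 1) ^ 2 * πW * (m : ℝ) ^ (g - 2)
        ≤ 24 * C ^ 2 * (m : ℝ) ^ g * (m : ℝ) ^ (g - 2) := by
      calc ((m : ℝ) ^ d + 1) ^ 2 * πW * (m : ℝ) ^ (g - 2)
          ≤ 4 * (m : ℝ) ^ (2 * d) * πW * (m : ℝ) ^ (g - 2) :=
            mul_le_mul_of_nonneg_right (mul_le_mul_of_nonneg_right h2 hπW0) hg2.le
        _ = 4 * (m : ℝ) ^ (2 * d) * (πW * (m : ℝ) ^ (g - 2)) := by ring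
        _ = π * (4 * (m : ℝ) ^ (2 * d) * (2 * (ρ : ℝ) / H + 2)) := by rw [h3]; ring
        _ ≤ π * (24 * C * ((m : ℝ) ^ (3 * X) * (m : ℝ) ^ g) * (m : ℝ) ^ (g - 2)) :=
            mul_le_mul_of_nonneg_left h4 hπ0
        _ = 24 * C * (π * (m : ℝ) ^ (3 * X)) * (m : ℝ) ^ g * (m : ℝ) ^ (g - 2) := by ring
        _ ≤ 24 * C * C * (m : ℝ) ^ g * (m : ℝ) ^ (g - 2) := by
            refine mul_le_mul_of_nonneg_right (mul_le_mul_of_nonneg_right
              (mul_le_mul_of_nonneg_left hπC (by positivity)) (by positivity)) hg2.le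
        _ = _ := by ring
    exact le_of_mul_le_mul_right h5 hg2
  have hMW0 : 0 < MW := by rw [hMW]; positivity
  -- logarithms
  have hls := log_succ_le (m := m) (d := d) (by omega)
  have hgm : (m : ℝ) ^ g ≤ (m : ℝ) ^ (g + 1) := pow_le_pow_right₀ hm1 (Nat.le_succ g)
  have hgm1 : (m : ℝ) ≤ (m : ℝ) ^ (g + 1) := by
    calc (m : ℝ) = (m : ℝ) ^ 1 := (pow_one _).symm
      _ ≤ (m : ℝ) ^ (g + 1) := pow_le_pow_right₀ hm1 (by omega)
  have hlogMW : Real.log (2 * MW) ≤ C8 * (m : ℝ) ^ (g + 1) := by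
    have hm1' : (0 : ℝ) < ((m ^ d : ℕ) : ℝ) + 1 := by positivity
    have e1 : Real.log (2 * MW) = Real.log 2 + 2 * Real.log M
        + J * (3 * Real.log (2 * (n₀ : ℝ) + 1) + Real.log (((m ^ d : ℕ) : ℝ) + 1))
        + 2 * Real.log (((m ^ d : ℕ) : ℝ) + 1) := by
      rw [hMW, Real.log_mul (by positivity) (by positivity),
        Real.log_mul (by positivity) (by positivity), Real.log_mul (by positivity) (by positivity),
        Real.log_pow, Real.log_pow, Real.log_pow,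
        Real.log_mul (by positivity) (by positivity), Real.log_exp, zero_add]
      push_cast
      ring
    rw [e1]
    have hn2 : Real.log (2 * (n₀ : ℝ) + 1) ≤ (d + 1) * m := by
      refine le_trans (Real.log_le_log (by positivity) ?_) hls
      have h1 : 2 * n₀ ≤ m ^ d := by
        calc 2 * n₀ ≤ m * n₀ := Nat.mul_le_mul_right _ (by omega)
          _ = m ^ (d - g + 2) := by rw [hn₀, ← pow_succ']
          _ ≤ m ^ d := Nat.pow_le_pow_right (by omega) (by omega)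
      have h2 : 2 * (n₀ : ℝ) ≤ ((m ^ d : ℕ) : ℝ) := by exact_mod_cast h1
      linarith
    have hl2 : Real.log 2 ≤ 1 := by
      have := Real.log_two_lt_d9
      linarith
    have hJ1 : (J : ℝ) * m ≤ (m : ℝ) ^ g := by
      rw [hJ]
      push_cast
      rw [← pow_succ]
      exact pow_le_pow_right₀ hm1 (by omega)
    have h3 : (J : ℝ) * (3 * Real.log (2 * (n₀ : ℝ) + 1) + Real.log (((m ^ d : ℕ) : ℝ) + 1))
        ≤ 4 * (d + 1) * (m : ℝ) ^ g := by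
      calc (J : ℝ) * (3 * Real.log (2 * (n₀ : ℝ) + 1) + Real.log (((m ^ d : ℕ) : ℝ) + 1))
          ≤ J * (3 * ((d + 1) * m) + (d + 1) * m) :=
            mul_le_mul_of_nonneg_left (by linarith) (Nat.cast_nonneg _)
        _ = 4 * (d + 1) * (J * m) := by ring
        _ ≤ _ := mul_le_mul_of_nonneg_left hJ1 (by positivity)
    have h4 : (1 : ℝ) ≤ (m : ℝ) ^ (g + 1) := one_le_pow₀ hm1
    have h5 : (d + 1 : ℝ) * m ≤ (d + 1) * (m : ℝ) ^ (g + 1) :=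
      mul_le_mul_of_nonneg_left hgm1 (by positivity)
    have h6 : 4 * (d + 1 : ℝ) * (m : ℝ) ^ g ≤ 4 * (d + 1) * (m : ℝ) ^ (g + 1) :=
      mul_le_mul_of_nonneg_left hgm (by positivity)
    have h7 : C * (m : ℝ) ^ g ≤ C * (m : ℝ) ^ (g + 1) :=
      mul_le_mul_of_nonneg_left hgm (by linarith)
    have h8 : (0 : ℝ) ≤ (d + 1) * (m : ℝ) ^ (g + 1) := by positivity
    calc Real.log 2 + 2 * Real.log M
        + J * (3 * Real.log (2 * (n₀ : ℝ) + 1) + Real.log (((m ^ d : ℕ) : ℝ) + 1))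
        + 2 * Real.log (((m ^ d : ℕ) : ℝ) + 1)
        ≤ (m : ℝ) ^ (g + 1) + 2 * (C * (m : ℝ) ^ (g + 1)) + 4 * (d + 1) * (m : ℝ) ^ (g + 1)
          + 2 * ((d + 1) * (m : ℝ) ^ (g + 1)) := by linarith
      _ ≤ C8 * (m : ℝ) ^ (g + 1) := by rw [hC8]; linarith
  refine ⟨W, πW, _, _, hWW, MW, hW, hTW, hMW0, by rw [hπW]; positivity, ?_, ?_⟩
  · have e1 : C6 * (m : ℝ) ^ g = (2 * C + 52 * C ^ 2) * (m : ℝ) ^ g
        + 24 * C ^ 2 * (m : ℝ) ^ g := by rw [hC6]; ring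
    have e2 : (0 : ℝ) ≤ C8 * (m : ℝ) ^ g := by positivity
    rw [add_mul, e1]
    linarith
  · have e2 : (0 : ℝ) ≤ C6 * (m : ℝ) ^ (g + 1) := by positivity
    rw [add_mul]
    linarith

theorem log_prod {c A B F : ℝ} {h : ℕ} (hc : 0 < c) (hA : 0 < A) (hB : 0 < B) :
    Real.log (c * (A ^ h * (B * Real.exp F)))
      = Real.log c + (h * Real.log A + (Real.log B + F)) := by
  rw [Real.log_mul hc.ne' (by positivity), Real.log_mul (by positivity) (by positivity),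
    Real.log_pow, Real.log_mul hB.ne' (by positivity), Real.log_exp]

/-- the recursive inequality in the bad case -/
theorem bad_case {μ : ℝ} (hμ : 1 ≤ μ) (hb : ∀ n, ((brs n).card : ℝ) ≤ μ ^ n)
    (hc : ∀ n, μ ^ n ≤ (walks n).card) {d g : ℕ} (H1 : 7 * d + 60 ≤ 19 * g)
    (H2 : 13 * g ≤ 5 * d) : ∃ C : ℝ, 0 ≤ C ∧ ∀ᶠ m : ℕ in atTop, Bad μ d g m →
      2 * FF μ (m ^ d) ≤ FF μ (3 * m ^ d) + C * m ^ (g + 1) := by
  have hμ0 : 0 < μ := by linarith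
  have hlμ : 0 ≤ Real.log μ := Real.log_nonneg hμ
  obtain ⟨C6, hC6', hC⟩ := last_spreader hμ hb hc H1 H2
  set C7 := 8 + 4 * d + 2 * Real.log μ with hC7
  have hC7' : 0 < C7 := by positivity
  refine ⟨C6 + 2 * C6 * C7 + 2 * (d + 1), by positivity, ?_⟩
  filter_upwards [hC, eventually_ge_atTop 6] with m hm hm6 hbad
  obtain ⟨W, πW, ρ, T, hWW, MW, hW, hTW, hMW0, hπW0, hnum, hlogMW⟩ := hm hbad
  have hm1 : (1 : ℝ) ≤ m := by
    have : 1 ≤ m := by omega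
    exact_mod_cast this
  have hm6' : (6 : ℝ) ≤ m := by exact_mod_cast hm6
  have hm0 : (0 : ℝ) < m := by linarith
  have hls := log_succ_le (m := m) (d := d) (by omega)
  have hgm1 : (m : ℝ) ≤ (m : ℝ) ^ (g + 1) := by
    calc (m : ℝ) = (m : ℝ) ^ 1 := (pow_one _).symm
      _ ≤ (m : ℝ) ^ (g + 1) := pow_le_pow_right₀ hm1 (by omega)
  -- choice of the number of repetitions
  set hh' := ⌊2 * (C6 * (m : ℝ) ^ g)⌋₊ with hhh
  have hfl : (hh' : ℝ) ≤ 2 * (C6 * (m : ℝ) ^ g) := Nat.floor_le (by positivity)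
  have hfl2 : 2 * (C6 * (m : ℝ) ^ g) ≤ hh' + 1 := (Nat.lt_floor_add_one _).le
  have hlogQ : Real.log (1 + (((3 * m ^ d : ℕ) : ℝ) + 1) ^ 4 * μ ^ 2) ≤ C7 * m := by
    have h1 : (1 : ℝ) ≤ (m : ℝ) ^ d := one_le_pow₀ hm1
    have h2 : ((3 * m ^ d : ℕ) : ℝ) + 1 ≤ 4 * (m : ℝ) ^ d := by push_cast; linarith
    have h3 : (((3 * m ^ d : ℕ) : ℝ) + 1) ^ 4 ≤ (4 * (m : ℝ) ^ d) ^ 4 :=
      pow_le_pow_left₀ (by positivity) h2 4
    have h4 : 1 ≤ (4 * (m : ℝ) ^ d) ^ 4 * μ ^ 2 := by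
      have h5 : 1 ≤ (4 * (m : ℝ) ^ d) ^ 4 := one_le_pow₀ (by linarith)
      have h6 : 1 ≤ μ ^ 2 := one_le_pow₀ hμ
      nlinarith
    have h5 : 1 + (((3 * m ^ d : ℕ) : ℝ) + 1) ^ 4 * μ ^ 2
        ≤ 2 * ((4 * (m : ℝ) ^ d) ^ 4 * μ ^ 2) := by
      have := mul_le_mul_of_nonneg_right h3 (by positivity : (0 : ℝ) ≤ μ ^ 2)
      linarith
    refine (Real.log_le_log (by positivity) h5).trans ?_
    rw [Real.log_mul (by norm_num) (by positivity), Real.log_mul (by positivity) (by positivity),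
      Real.log_pow, Real.log_pow, Real.log_mul (by norm_num) (by positivity), Real.log_pow]
    have hl2 := Real.log_two_lt_d9
    have hl4 : Real.log 4 = 2 * Real.log 2 := by
      rw [show (4 : ℝ) = 2 ^ 2 by norm_num, Real.log_pow]; norm_num
    have hlm := log_cast_le (m := m) (by omega)
    have h6 : (d : ℝ) * Real.log m ≤ d * m := mul_le_mul_of_nonneg_left hlm (Nat.cast_nonneg _)
    have h7 : Real.log μ ≤ Real.log μ * m := le_mul_of_one_le_right hlμ hm1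
    push_cast
    have e3 : C7 * (m : ℝ) = 8 * m + 4 * (d * m) + 2 * (Real.log μ * m) := by rw [hC7]; ring
    rw [hl4, e3]
    linarith
  have hlogL : Real.log (((3 * m ^ d : ℕ) : ℝ) + 1) ≤ 2 * (d + 1) * (m : ℝ) ^ (g + 1) := by
    have h1 : (1 : ℝ) ≤ (m : ℝ) ^ d := one_le_pow₀ hm1
    have h2 : ((3 * m ^ d : ℕ) : ℝ) + 1 ≤ (((m ^ d : ℕ) : ℝ) + 1) ^ 2 := by
      push_cast
      nlinarith
    have h3 := Real.log_le_log (by positivity) h2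
    rw [Real.log_pow] at h3
    push_cast at h3 hls ⊢
    have h5 : (d + 1 : ℝ) * m ≤ (d + 1) * (m : ℝ) ^ (g + 1) :=
      mul_le_mul_of_nonneg_left hgm1 (by positivity)
    linarith
  -- conclusion
  have hmain : ∀ k ≤ m ^ d, 2 * Real.log (((walks k).card : ℝ) * μ⁻¹ ^ k)
      ≤ FF μ (3 * m ^ d) + (C6 + 2 * C6 * C7 + 2 * (d + 1)) * (m : ℝ) ^ (g + 1) := by
    intro k hk
    have hk' : (k : ℝ) ≤ (m : ℝ) ^ d := by exact_mod_cast hk
    have h1 : 2 * (hWW + ((k : ℝ) + 1) ^ 2 * πW) ≤ hh' + 1 := by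
      refine le_trans ?_ hfl2
      have h2 : ((k : ℝ) + 1) ^ 2 * πW ≤ ((m : ℝ) ^ d + 1) ^ 2 * πW := by
        refine mul_le_mul_of_nonneg_right (pow_le_pow_left₀ (by positivity) (by linarith) 2) hπW0
      linarith
    have hone : 1 ≤ m ^ d := Nat.one_le_pow _ _ (by omega)
    have h2 := join (by positivity : 0 < μ⁻¹) hW hMW0.le hTW (k := k) (by omega) h1
    have h3 := TT_le hμ hb hh' (2 * k + m ^ d)
    have h4 := TT_zero_le hμ (2 * k + m ^ d)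
    have hle : 2 * k + m ^ d ≤ 3 * m ^ d := by omega
    have h5 : TT μ⁻¹ hh' (2 * k + m ^ d) ≤ (1 + (((3 * m ^ d : ℕ) : ℝ) + 1) ^ 4 * μ ^ 2) ^ hh'
        * ((((3 * m ^ d : ℕ) : ℝ) + 1) * Real.exp (FF μ (3 * m ^ d))) := by
      have hle' : ((2 * k + m ^ d : ℕ) : ℝ) ≤ ((3 * m ^ d : ℕ) : ℝ) := by exact_mod_cast hle
      refine h3.trans (mul_le_mul ?_ (h4.trans ?_) (TT_nonneg (by positivity) _ _) (by positivity))
      · refine pow_le_pow_left₀ (by positivity) ?_ _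
        have h6 : (((2 * k + m ^ d : ℕ) : ℝ) + 1) ^ 4 ≤ (((3 * m ^ d : ℕ) : ℝ) + 1) ^ 4 :=
          pow_le_pow_left₀ (by positivity) (by linarith) 4
        have := mul_le_mul_of_nonneg_right h6 (by positivity : (0 : ℝ) ≤ μ ^ 2)
        linarith
      · exact mul_le_mul (by linarith) (Real.exp_le_exp.2 (FF_mono μ hle)) (Real.exp_pos _).le
          (by positivity)
    have hpos := term_pos hμ k
    have h6 : (((walks k).card : ℝ) * μ⁻¹ ^ k) ^ 2 ≤ 2 * MW *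
        ((1 + (((3 * m ^ d : ℕ) : ℝ) + 1) ^ 4 * μ ^ 2) ^ hh'
        * ((((3 * m ^ d : ℕ) : ℝ) + 1) * Real.exp (FF μ (3 * m ^ d)))) :=
      h2.trans (mul_le_mul_of_nonneg_left h5 (by positivity))
    have h7 := Real.log_le_log (pow_pos hpos 2) h6
    have hA : (0 : ℝ) < 1 + (((3 * m ^ d : ℕ) : ℝ) + 1) ^ 4 * μ ^ 2 := by positivity
    have hB : (0 : ℝ) < ((3 * m ^ d : ℕ) : ℝ) + 1 := by positivity
    rw [Real.log_pow, log_prod (by positivity) hA hB] at h7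
    have h8 : (hh' : ℝ) * Real.log (1 + (((3 * m ^ d : ℕ) : ℝ) + 1) ^ 4 * μ ^ 2)
        ≤ 2 * C6 * C7 * (m : ℝ) ^ (g + 1) := by
      calc (hh' : ℝ) * Real.log (1 + (((3 * m ^ d : ℕ) : ℝ) + 1) ^ 4 * μ ^ 2)
          ≤ hh' * (C7 * m) := mul_le_mul_of_nonneg_left hlogQ (Nat.cast_nonneg _)
        _ ≤ (2 * (C6 * (m : ℝ) ^ g)) * (C7 * m) :=
            mul_le_mul_of_nonneg_right hfl (by positivity)
        _ = _ := by rw [pow_succ]; ring
    push_cast at h7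
    push_cast at h8 hlogL ⊢
    have e2 : (C6 + 2 * C6 * C7 + 2 * (d + 1)) * (m : ℝ) ^ (g + 1) = C6 * (m : ℝ) ^ (g + 1)
        + 2 * C6 * C7 * (m : ℝ) ^ (g + 1) + 2 * (d + 1) * (m : ℝ) ^ (g + 1) := by ring
    rw [e2]
    linarith
  have hfin : FF μ (m ^ d)
      ≤ (FF μ (3 * m ^ d) + (C6 + 2 * C6 * C7 + 2 * (d + 1)) * (m : ℝ) ^ (g + 1)) / 2 :=
    FF_le fun k hk => by
      have := hmain k hk
      linarith
  linarith

end Pool.Agent.MP_794e6e_pr
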