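import Pool.Agent.MP_794e6e_pr.Pts

/-! Finite sets of words, numbers of walks and bridges, the connective constant. -/

namespace Pool.Agent.MP_794e6e_pr

open Finset Filter Topology
open scoped Classical

/-- words of length `n` -/
noncomputable def wd (n : ℕ) : Finset Word :=
  (Finset.univ : Finset (Fin n → Step)).image List.ofFn

theorem mem_wd {n : ℕ} {w : Word} : w ∈ wd n ↔ w.length = n := by
  unfold wd
  rw [mem_image]
  constructor
  · rintro ⟨f, _, rfl⟩; simp
  · intro h
    subst h
    exact ⟨w.get, mem_univ _, List.ofFn_get w⟩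

/-- words of length at most `L` -/
noncomputable def wle (L : ℕ) : Finset Word := (range (L + 1)).biUnion wd

theorem mem_wle {L : ℕ} {w : Word} : w ∈ wle L ↔ w.length ≤ L := by
  unfold wle
  simp only [mem_biUnion, mem_range, mem_wd]
  constructor
  · rintro ⟨n, hn, h⟩; omega
  · intro h; exact ⟨w.length, by omega, rfl⟩

theorem sum_wle (L : ℕ) (f : Word → ℝ) :
    ∑ w ∈ wle L, f w = ∑ n ∈ range (L + 1), ∑ w ∈ wd n, f w := by
  unfold wle
  rw [sum_biUnion]
  intro i _ j _ hij
  rw [Function.onFun, disjoint_left]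
  intro w h1 h2
  rw [mem_wd] at h1 h2
  exact hij (h1.symm.trans h2)

/-- walks of length `n` -/
noncomputable def walks (n : ℕ) : Finset Word := (wd n).filter saw
/-- bridges of length `n` -/
noncomputable def brs (n : ℕ) : Finset Word := (wd n).filter Br

theorem mem_walks {n : ℕ} {w : Word} : w ∈ walks n ↔ w.length = n ∧ saw w := by
  unfold walks; rw [mem_filter, mem_wd]

theorem mem_brs {n : ℕ} {w : Word} : w ∈ brs n ↔ w.length = n ∧ Br w := by
  unfold brs; rw [mem_filter, mem_wd]

/-- transfer of sums along an injection -/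
theorem sum_le_of_inj {α β : Type*} {S : Finset α} {T : Finset β} {f : α → ℝ} {g : β → ℝ}
    (i : α → β) (hi : ∀ a ∈ S, i a ∈ T) (inj : Set.InjOn i (S : Set α))
    (h : ∀ a ∈ S, f a ≤ g (i a)) (hg : ∀ b ∈ T, 0 ≤ g b) : ∑ a ∈ S, f a ≤ ∑ b ∈ T, g b := by
  calc ∑ a ∈ S, f a ≤ ∑ a ∈ S, g (i a) := sum_le_sum h
    _ = ∑ b ∈ S.image i, g b := by rw [sum_image inj]
    _ ≤ ∑ b ∈ T, g b := by
        refine sum_le_sum_of_subset_of_nonneg ?_ fun b hb _ => hg b hb
        intro b hb
        obtain ⟨a, ha, rfl⟩ := mem_image.1 hb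
        exact hi a ha

theorem take_left_append (u v : Word) : (u ++ v).take u.length = u := by simp
theorem drop_left_append (u v : Word) : (u ++ v).drop u.length = v := by simp

theorem card_walks_add (m n : ℕ) : (walks (m + n)).card ≤ (walks m).card * (walks n).card := by
  rw [← card_product]
  refine card_le_card_of_injOn (fun w => (w.take m, w.drop m)) ?_ ?_
  · intro w hw
    rw [mem_coe, mem_walks] at hw
    rw [mem_coe, mem_product, mem_walks, mem_walks]
    have h := hw.2
    rw [← List.take_append_drop m w] at h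
    refine ⟨⟨?_, h.left⟩, ?_, h.right⟩
    · rw [List.length_take]; omega
    · rw [List.length_drop]; omega
  · intro w _ w' _ heq
    simp only [Prod.mk.injEq] at heq
    rw [← List.take_append_drop m w, ← List.take_append_drop m w', heq.1, heq.2]

theorem card_brs_add (m n : ℕ) : (brs m).card * (brs n).card ≤ (brs (m + n)).card := by
  rw [← card_product]
  refine card_le_card_of_injOn (fun p => p.1 ++ p.2) ?_ ?_
  · rintro ⟨u, v⟩ h
    rw [mem_coe, mem_product, mem_brs, mem_brs] at h
    rw [mem_coe, mem_brs, List.length_append]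
    exact ⟨by omega, h.1.2.append h.2.2⟩
  · rintro ⟨u, v⟩ h ⟨u', v'⟩ h' heq
    rw [mem_coe, mem_product, mem_brs, mem_brs] at h h'
    simp only at heq
    obtain ⟨h1, h2⟩ := List.append_inj heq (h.1.1.trans h'.1.1.symm)
    rw [h1, h2]

theorem brs_subset_walks (n : ℕ) : brs n ⊆ walks n := by
  intro w hw
  rw [mem_brs] at hw
  rw [mem_walks]
  exact ⟨hw.1, hw.2.saw⟩

/-- the sum of the coordinates -/
def fs : Pt →+ ℤ := ev 0 + ev 1 + ev 2

theorem fs_D {w : Word} (h : ∀ s ∈ w, s.2 = true) : fs (D w) = w.length := by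
  induction w with
  | nil => simp
  | cons s w ih =>
    rw [D_cons, map_add, ih fun t ht => h t (by simp [ht])]
    have h1 : fs (vec s) = 1 := by
      have h2 := h s (by simp)
      obtain ⟨i, b⟩ := s
      simp only at h2
      subst h2
      fin_cases i <;> simp [fs, vec]
    rw [h1, List.length_cons]
    push_cast; ring

theorem saw_of_pos {w : Word} (h : ∀ s ∈ w, s.2 = true) : saw w := by
  intro a u b hw hne hcon
  have h1 : fs (D u) = u.length := fs_D fun s hs => h s (by rw [hw]; simp [hs])
  rw [hcon, map_zero] at h1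
  have := List.length_pos_of_ne_nil hne
  omega

theorem walks_card_pos (n : ℕ) : 0 < (walks n).card := by
  rw [card_pos]
  refine ⟨List.replicate n (0, true), ?_⟩
  rw [mem_walks]
  refine ⟨by simp, saw_of_pos ?_⟩
  intro s hs
  rw [(List.mem_replicate.1 hs).2]

theorem brs_pow (n k : ℕ) : (brs n).card ^ k ≤ (brs (k * n)).card := by
  induction k with
  | zero =>
    rw [pow_zero, zero_mul, Nat.one_le_iff_ne_zero, ← Nat.pos_iff_ne_zero, card_pos]
    exact ⟨[], mem_brs.2 ⟨rfl, Br_nil⟩⟩
  | succ k ih =>
    rw [pow_succ, Nat.succ_mul]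
    exact (Nat.mul_le_mul_right _ ih).trans (card_brs_add _ _)

/-- The connective constant. -/
theorem exists_mu : ∃ μ : ℝ, 1 ≤ μ ∧ (∀ n, μ ^ n ≤ (walks n).card) ∧
    (∀ n, ((brs n).card : ℝ) ≤ μ ^ n) ∧
    Tendsto (fun n : ℕ => ((walks n).card : ℝ) ^ (1 / (n : ℝ))) atTop (𝓝 μ) := by
  have hpos : ∀ n, (0 : ℝ) < (walks n).card := fun n => by exact_mod_cast walks_card_pos n
  have hone : ∀ n, (1 : ℝ) ≤ (walks n).card := fun n => by exact_mod_cast walks_card_pos n
  set u : ℕ → ℝ := fun n => Real.log (walks n).card with hu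
  have hsub : Subadditive u := by
    intro m n
    simp only [hu]
    rw [← Real.log_mul (hpos m).ne' (hpos n).ne']
    exact Real.log_le_log (hpos _) (by exact_mod_cast card_walks_add m n)
  have hu0 : ∀ n, 0 ≤ u n := fun n => Real.log_nonneg (hone n)
  have hbdd : BddBelow (Set.range fun n => u n / n) := by
    refine ⟨0, ?_⟩
    rintro _ ⟨n, rfl⟩
    exact div_nonneg (hu0 n) (Nat.cast_nonneg n)
  have hlim := hsub.tendsto_lim hbdd
  set ℓ := hsub.lim with hℓ
  have hℓ0 : 0 ≤ ℓ := ge_of_tendsto' hlim fun n => div_nonneg (hu0 n) (Nat.cast_nonneg n)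
  refine ⟨Real.exp ℓ, Real.one_le_exp hℓ0, ?_, ?_, ?_⟩
  · intro n
    rcases Nat.eq_zero_or_pos n with rfl | hn
    · rw [pow_zero]; exact hone 0
    · have h1 := hsub.lim_le_div hbdd hn.ne'
      have hn' : (0 : ℝ) < n := by exact_mod_cast hn
      rw [le_div_iff₀ hn'] at h1
      rw [← Real.exp_nat_mul]
      calc Real.exp (n * ℓ) ≤ Real.exp (u n) := Real.exp_le_exp.2 (by linarith)
        _ = (walks n).card := Real.exp_log (hpos n)
  · intro n
    rcases Nat.eq_zero_or_pos n with rfl | hn
    · rw [pow_zero]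
      have h1 : (brs 0).card ≤ 1 := by
        rw [card_le_one]
        intro a ha b hb
        rw [mem_brs] at ha hb
        rw [List.eq_nil_of_length_eq_zero ha.1, List.eq_nil_of_length_eq_zero hb.1]
      exact_mod_cast h1
    · rcases Nat.eq_zero_or_pos (brs n).card with h0 | h0
      · rw [h0]; push_cast; positivity
      · have hb : (0 : ℝ) < (brs n).card := by exact_mod_cast h0
        have hn' : (0 : ℝ) < n := by exact_mod_cast hn
        have key : ∀ k : ℕ, 0 < k → Real.log (brs n).card / n ≤ u (k * n) / ((k * n : ℕ) : ℝ) := by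
          intro k hk
          have hk' : (0 : ℝ) < k := by exact_mod_cast hk
          have h2 : ((brs n).card : ℝ) ^ k ≤ (walks (k * n)).card := by
            exact_mod_cast (brs_pow n k).trans (card_le_card (brs_subset_walks _))
          have h3 : (k : ℝ) * Real.log (brs n).card ≤ u (k * n) := by
            rw [← Real.log_pow]
            exact Real.log_le_log (by positivity) h2
          rw [Nat.cast_mul, div_le_div_iff₀ hn' (by positivity)]
          nlinarith
        have h4 : Tendsto (fun k : ℕ => u (k * n) / ((k * n : ℕ) : ℝ)) atTop (𝓝 ℓ) := by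
          refine hlim.comp ?_
          exact Filter.tendsto_id.atTop_mul_const' hn
        have h5 : Real.log (brs n).card / n ≤ ℓ := by
          refine ge_of_tendsto h4 ?_
          filter_upwards [eventually_gt_atTop 0] with k hk using key k hk
        rw [div_le_iff₀ hn'] at h5
        rw [← Real.exp_nat_mul]
        calc ((brs n).card : ℝ) = Real.exp (Real.log (brs n).card) := (Real.exp_log hb).symm
          _ ≤ Real.exp (n * ℓ) := Real.exp_le_exp.2 (by linarith)
  · have h1 : (fun n : ℕ => ((walks n).card : ℝ) ^ (1 / (n : ℝ)))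
        = fun n : ℕ => Real.exp (u n / n) := by
      funext n
      rw [Real.rpow_def_of_pos (hpos n)]
      congr 1
      simp only [hu]; ring
    rw [h1]
    exact (Real.continuous_exp.tendsto ℓ).comp hlim

end Pool.Agent.MP_794e6e_pr
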