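import Pool.Agent.MP_794e6e_pr.Bridge

/-! The Hammersley–Welsh decomposition, extents of walks, and three sources of bridges with a
large displacement. -/

namespace Pool.Agent.MP_794e6e_pr

open Finset
open scoped Classical

/-- the word reaches distance `s` in the direction of the coordinate `k` -/
def reach (k : Fin 3) (s : ℤ) (w : Word) : Prop :=
  ∃ c e c' e' : Word, w = c ++ e ∧ w = c' ++ e' ∧ s ≤ D c k - D c' k

/-- core of the decomposition at the last minimum -/
theorem HW_core {x : ℝ} (hx : 0 < x) (n : ℕ) (P S₁ S₂ : Finset Word) (A B : Word → Word)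
    (hAB : ∀ w, w = A w ++ B w) (hP : ∀ w ∈ P, w.length = n)
    (h1 : ∀ w ∈ P, ((0, true) : Step) :: rv (A w) ∈ S₁) (h2 : ∀ w ∈ P, B w ∈ S₂) :
    ∑ w ∈ P, x ^ n ≤ x⁻¹ * ((∑ w ∈ S₁, x ^ w.length) * (∑ w ∈ S₂, x ^ w.length)) := by
  rw [sum_mul_sum, ← sum_product', mul_sum]
  refine sum_le_of_inj (fun w : Word => (((0, true) : Step) :: rv (A w), B w)) ?_ ?_ ?_ ?_
  · intro w hw
    rw [mem_product]
    exact ⟨h1 w hw, h2 w hw⟩
  · intro w _ w' _ heq
    simp only [Prod.mk.injEq, List.cons.injEq, true_and] at heq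
    have h3 : A w = A w' := by
      have := congrArg rv heq.1
      rwa [rv_rv, rv_rv] at this
    rw [hAB w, hAB w', h3, heq.2]
  · intro w hw
    have h3 := congrArg List.length (hAB w)
    rw [List.length_append, hP w hw] at h3
    simp only [List.length_cons, length_rv]
    rw [h3, pow_succ, pow_add]
    have : x⁻¹ * (x ^ (A w).length * x * x ^ (B w).length)
        = (x⁻¹ * x) * (x ^ (A w).length * x ^ (B w).length) := by ring
    rw [this, inv_mul_cancel₀ hx.ne', one_mul]
  · intro p _
    positivity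

theorem saw_cons_up {t : Word} (ht : saw t) (hh : ∀ a b : Word, t = a ++ b → 0 ≤ D a 0) :
    saw (((0, true) : Step) :: t) := by
  intro a u b h hne hcon
  rcases List.cons_eq_append_iff.1 h with ⟨h1, h2⟩ | ⟨a', h1, h2⟩
  · rcases List.append_eq_cons_iff.1 h2 with ⟨h3, _⟩ | ⟨u', h3, h4⟩
    · exact hne h3
    · have h5 := hh u' b h4
      rw [h3, D_cons] at hcon
      have h6 := congrFun hcon 0
      rw [Pi.add_apply] at h6
      simp [vec] at h6
      omega
  · exact ht a' u b h2 hne hcon

theorem Hi_cons_up {t : Word} (hh : ∀ a b : Word, t = a ++ b → 0 ≤ D a 0) :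
    Hi (((0, true) : Step) :: t) := by
  intro u b h hne
  rcases List.cons_eq_append_iff.1 h with ⟨h1, _⟩ | ⟨u', h1, h2⟩
  · exact absurd h1 hne
  · have h5 := hh u' b h2
    rw [h1, D_cons, Pi.add_apply]
    simp only [vec, Pi.single_eq_same, if_true]
    omega

/-- the two halves of a walk cut at its last minimum are half-space walks -/
theorem halves {n : ℕ} {w a b : Word} (hw : w ∈ walks n) (hab : w = a ++ b)
    (ha : ∀ c e : Word, a = c ++ e → 0 ≤ (- ev 0) (D e))
    (hb : ∀ u e : Word, b = u ++ e → u ≠ [] → (- ev 0) (D u) < 0) :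
    ((0, true) : Step) :: rv a ∈ hs (n + 1) (n + 1) ∧ b ∈ hs (n + 1) (n + 1) := by
  rw [mem_walks] at hw
  obtain ⟨hlen, hs⟩ := hw
  have hl := congrArg List.length hab
  rw [List.length_append] at hl
  rw [hab] at hs
  have hnn : ∀ c e : Word, rv a = c ++ e → 0 ≤ D c 0 := by
    intro c e hce
    have h1 : a = rv e ++ rv c := by
      have := congrArg rv hce
      rwa [rv_rv, rv_append] at this
    have h2 := ha _ _ h1
    rw [D_rv] at h2
    simpa using h2
  constructor
  · rw [mem_hs]
    refine ⟨?_, saw_cons_up hs.left.rv hnn, Hi_cons_up hnn, ?_⟩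
    · rw [List.length_cons, length_rv]; omega
    · intro c e hce
      have h1 := abs_D_le c 0
      have h2 := congrArg List.length hce
      rw [List.length_append, List.length_cons, length_rv] at h2
      have h3 := le_abs_self (D c 0)
      push_cast
      omega
  · rw [mem_hs]
    refine ⟨by omega, hs.right, ?_, ?_⟩
    · intro u e hue hne
      have := hb u e hue hne
      simpa using this
    · intro c e hce
      have h1 := abs_D_le c 0
      have h2 := congrArg List.length hce
      rw [List.length_append] at h2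
      have h3 := le_abs_self (D c 0)
      push_cast
      omega

/-- **Hammersley–Welsh**, generating function form. -/
theorem HW_main {x : ℝ} (hx : 0 < x) (n : ℕ) :
    ((walks n).card : ℝ) * x ^ n ≤ x⁻¹ * Real.exp (2 * Zt x (n + 1)) := by
  choose A B hAB hA hB using exists_last_max (- ev 0)
  have h := HW_core hx n (walks n) (hs (n + 1) (n + 1)) (hs (n + 1) (n + 1)) A B hAB
    (fun w hw => (mem_walks.1 hw).1) (fun w hw => (halves hw (hAB w) (hA w) (hB w)).1)
    (fun w hw => (halves hw (hAB w) (hA w) (hB w)).2)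
  rw [sum_const, nsmul_eq_mul] at h
  refine h.trans ?_
  have h1 := Hs_le hx.le (n + 1) (n + 1)
  have h2 := Hs_nonneg hx.le (n + 1) (n + 1)
  have h3 : Hs x (n + 1) (n + 1) * Hs x (n + 1) (n + 1)
      ≤ Real.exp (Zt x (n + 1)) * Real.exp (Zt x (n + 1)) :=
    mul_le_mul h1 h1 h2 (Real.exp_pos _).le
  rw [← Real.exp_add, ← two_mul] at h3
  exact mul_le_mul_of_nonneg_left h3 (by positivity)

/-- total weight of bridges of height larger than `t` -/
noncomputable def Wh (x : ℝ) (L t : ℕ) : ℝ :=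
  ∑ w ∈ (wle L).filter (fun w => Br w ∧ (t : ℤ) < D w 0), x ^ w.length

theorem Wh_nonneg {x : ℝ} (hx : 0 ≤ x) (L t : ℕ) : 0 ≤ Wh x L t :=
  sum_nonneg fun _ _ => pow_nonneg hx _

theorem sum_Bs_le_Wh {x : ℝ} (hx : 0 ≤ x) (L t k : ℕ) :
    ∑ j ∈ range k, Bs x L (t + j + 1) ≤ Wh x L t := by
  unfold Bs Wh
  rw [← sum_biUnion]
  · refine sum_le_sum_of_subset_of_nonneg ?_ fun _ _ _ => pow_nonneg hx _
    intro w hw
    simp only [mem_biUnion, mem_range, mem_filter] at hw ⊢
    obtain ⟨s, _, h1, h2, h3⟩ := hw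
    refine ⟨h1, h2, ?_⟩
    rw [h3]; push_cast; omega
  · intro i _ j _ hij
    rw [Function.onFun, disjoint_left]
    intro w h1 h2
    simp only [mem_filter] at h1 h2
    apply hij
    have := h1.2.2.symm.trans h2.2.2
    omega

/-- first source: bridges are high because each height carries weight at most one -/
theorem source_one {μ : ℝ} (hμ : 1 ≤ μ) (hb : ∀ n, ((brs n).card : ℝ) ≤ μ ^ n) (L t : ℕ) :
    Zt μ⁻¹ L ≤ t + Wh μ⁻¹ L t := by
  have hx : (0 : ℝ) ≤ μ⁻¹ := by positivity
  have h1 : Zt μ⁻¹ L ≤ ∑ s ∈ range t, Bs μ⁻¹ L (s + 1) + Wh μ⁻¹ L t := by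
    unfold Bs Zt Wh
    rw [← sum_biUnion]
    · rw [← sum_union]
      · refine sum_le_sum_of_subset_of_nonneg ?_ fun _ _ _ => pow_nonneg hx _
        intro w hw
        simp only [mem_filter] at hw
        simp only [mem_union, mem_biUnion, mem_range, mem_filter]
        have h2 := hw.2.1.pos hw.2.2
        by_cases h3 : (t : ℤ) < D w 0
        · right; exact ⟨hw.1, hw.2.1, h3⟩
        · left
          refine ⟨(D w 0).toNat - 1, by omega, hw.1, hw.2.1, ?_⟩
          push_cast
          omega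
      · rw [disjoint_left]
        intro w h2 h3
        simp only [mem_biUnion, mem_range, mem_filter] at h2 h3
        obtain ⟨s, h4, _, _, h5⟩ := h2
        have := h3.2.2
        rw [h5] at this
        push_cast at this
        omega
    · intro i _ j _ hij
      rw [Function.onFun, disjoint_left]
      intro w h1 h2
      simp only [mem_filter] at h1 h2
      apply hij
      have := h1.2.2.symm.trans h2.2.2
      omega
  have h2 : ∑ s ∈ range t, Bs μ⁻¹ L (s + 1) ≤ t := by
    calc ∑ s ∈ range t, Bs μ⁻¹ L (s + 1) ≤ ∑ s ∈ range t, (1 : ℝ) :=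
          sum_le_sum fun s _ => Bs_le_one hμ hb L _
      _ = t := by simp
  linarith

/-- a self-avoiding word has a large extent in some direction -/
theorem exists_reach {w : Word} (hw : saw w) {t : ℕ} (ht : t ^ 3 < w.length + 1) :
    ∃ k, reach k t w := by
  by_contra hcon
  push Not at hcon
  have hne : (pts w).Nonempty := ⟨0, zero_mem_pts w⟩
  have hmin : ∀ k : Fin 3, ∃ p ∈ pts w, ∀ q ∈ pts w, p k ≤ q k := fun k =>
    exists_min_image (pts w) (fun p => p k) hne
  choose m hm1 hm2 using hmin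
  have hsub : pts w ⊆ Fintype.piFinset fun k : Fin 3 => Finset.Ico (m k k) (m k k + t) := by
    intro p hp
    rw [Fintype.mem_piFinset]
    intro k
    rw [mem_Ico]
    refine ⟨hm2 k p hp, ?_⟩
    by_contra h
    push Not at h
    apply hcon k
    obtain ⟨a, b, h1, h2⟩ := mem_pts.1 hp
    obtain ⟨a', b', h3, h4⟩ := mem_pts.1 (hm1 k)
    refine ⟨a, b, a', b', h1, h3, ?_⟩
    rw [h2, h4]; linarith
  have h1 := card_le_card hsub
  rw [hw.card_pts, Fintype.card_piFinset] at h1
  simp at h1
  omega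

theorem perm_swap_map (k : Fin 3) (w : Word) :
    (w.map (perm (Equiv.swap 0 k)).g).map (perm (Equiv.swap 0 k)).g = w := by
  rw [List.map_map]
  have : ((perm (Equiv.swap 0 k)).g ∘ (perm (Equiv.swap 0 k)).g) = id := by
    funext s
    simp [perm]
  rw [this, List.map_id]

theorem reach_swap {k : Fin 3} {s : ℤ} {w : Word} (h : reach k s w) :
    reach 0 s (w.map (perm (Equiv.swap 0 k)).g) := by
  obtain ⟨c, e, c', e', h1, h2, h3⟩ := h
  refine ⟨c.map (perm (Equiv.swap 0 k)).g, e.map (perm (Equiv.swap 0 k)).g,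
    c'.map (perm (Equiv.swap 0 k)).g, e'.map (perm (Equiv.swap 0 k)).g, ?_, ?_, ?_⟩
  · rw [← List.map_append, ← h1]
  · rw [← List.map_append, ← h2]
  · rw [Sy.D_map, Sy.D_map, perm_A, perm_A, Equiv.symm_swap, Equiv.swap_apply_left]
    exact h3

theorem card_reach (n t : ℕ) (ht : t ^ 3 < n + 1) :
    (walks n).card ≤ 3 * ((walks n).filter (reach 0 t)).card := by
  have h1 : walks n ⊆ (Finset.univ : Finset (Fin 3)).biUnion
      fun k => (walks n).filter (reach k t) := by
    intro w hw
    have hw' := mem_walks.1 hw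
    obtain ⟨k, hk⟩ := exists_reach hw'.2 (t := t) (by rw [hw'.1]; exact ht)
    rw [mem_biUnion]
    exact ⟨k, mem_univ k, mem_filter.2 ⟨hw, hk⟩⟩
  have h2 : ∀ k : Fin 3, ((walks n).filter (reach k t)).card
      ≤ ((walks n).filter (reach 0 t)).card := by
    intro k
    refine card_le_card_of_injOn (fun w => w.map (perm (Equiv.swap 0 k)).g) ?_ ?_
    · intro w hw
      rw [mem_coe, mem_filter, mem_walks] at hw ⊢
      exact ⟨⟨by rw [List.length_map]; exact hw.1.1, hw.1.2.map _⟩, reach_swap hw.2⟩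
    · intro w _ w' _ heq
      have := congrArg (List.map (perm (Equiv.swap 0 k)).g) heq
      simpa only [perm_swap_map] using this
  calc (walks n).card ≤ _ := card_le_card h1
    _ ≤ ∑ k : Fin 3, ((walks n).filter (reach k t)).card := card_biUnion_le
    _ ≤ ∑ k : Fin 3, ((walks n).filter (reach 0 t)).card := sum_le_sum fun k _ => h2 k
    _ = 3 * ((walks n).filter (reach 0 t)).card := by simp

/-- second source: an extended walk unfolds to a high bridge -/
theorem source_two {μ : ℝ} (hμ : 1 ≤ μ) (hc : ∀ n, μ ^ n ≤ (walks n).card) (n t : ℕ)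
    (ht : (t + 1) ^ 3 ≤ n) :
    1 ≤ 6 * μ * Wh μ⁻¹ (n + 1) t * Real.exp (2 * Zt μ⁻¹ (n + 1)) := by
  have hμ0 : 0 < μ := by linarith
  have hx : (0 : ℝ) < μ⁻¹ := by positivity
  set x := μ⁻¹ with hxdef
  choose A B hAB hA hB using exists_last_max (- ev 0)
  have htn : t + 1 ≤ n := (Nat.le_self_pow (by norm_num) _).trans ht
  have hdiff : ∑ w ∈ hs (n + 1) (n + 1) \ hs (n + 1) t, x ^ w.length
      ≤ Wh x (n + 1) t * Real.exp (Zt x (n + 1)) := by
    have h1 : ∑ w ∈ hs (n + 1) (n + 1) \ hs (n + 1) t, x ^ w.length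
        = Hs x (n + 1) (n + 1) - Hs x (n + 1) t := by
      unfold Hs
      rw [← sum_sdiff (hs_mono (show t ≤ n + 1 by omega))]
      ring
    rw [h1]
    have h2 := sum_high hx.le (n + 1) t (n + 1 - t)
    rw [show t + (n + 1 - t) = n + 1 by omega] at h2
    refine h2.trans (mul_le_mul_of_nonneg_right ?_ (Real.exp_pos _).le)
    exact sum_Bs_le_Wh hx.le _ _ _
  have hH := Hs_le hx.le (n + 1) (n + 1)
  have hW := Wh_nonneg hx.le (n + 1) t
  -- points above the minimum
  have hmin : ∀ w c e : Word, w = c ++ e → D (A w) 0 ≤ D c 0 := by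
    intro w c e hce
    rw [hAB w] at hce
    rcases List.append_eq_append_iff.1 hce with ⟨g, hg1, hg2⟩ | ⟨g, hg1, hg2⟩
    · rw [hg1, D_append, Pi.add_apply]
      by_cases hg : g = []
      · subst hg; simp
      · have := hB w g e hg2 hg
        simp only [AddMonoidHom.neg_apply, ev_apply] at this
        linarith
    · have := hA w c g hg1
      simp only [AddMonoidHom.neg_apply, ev_apply] at this
      rw [hg1, D_append, Pi.add_apply]
      linarith
  have hsplit : (walks n).filter (reach 0 ((t + 1 : ℕ) : ℤ)) ⊆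
      (walks n).filter (fun w => ((0, true) : Step) :: rv (A w) ∈ hs (n + 1) (n + 1) \ hs (n + 1) t)
      ∪ (walks n).filter (fun w => B w ∈ hs (n + 1) (n + 1) \ hs (n + 1) t) := by
    intro w hw
    rw [mem_filter] at hw
    obtain ⟨hw, c, e, c', e', h1, h2, h3⟩ := hw
    have hhalf := halves hw (hAB w) (hA w) (hB w)
    have h4 := hmin w c' e' h2
    have h5 : ((t + 1 : ℕ) : ℤ) ≤ D c 0 - D (A w) 0 := by linarith
    rw [mem_union, mem_filter, mem_filter, mem_sdiff, mem_sdiff]
    have h1' := h1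
    rw [hAB w] at h1'
    rcases List.append_eq_append_iff.1 h1' with ⟨g, hg1, hg2⟩ | ⟨g, hg1, hg2⟩
    · right
      refine ⟨hw, hhalf.2, ?_⟩
      intro hmem
      rw [mem_hs] at hmem
      have h6 := hmem.2.2.2 g e hg2
      rw [hg1, D_append, Pi.add_apply] at h5
      push_cast at h5
      omega
    · left
      refine ⟨hw, hhalf.1, ?_⟩
      intro hmem
      rw [mem_hs] at hmem
      have h6 := hmem.2.2.2 (((0, true) : Step) :: rv g) (rv c) (by
        rw [hg1, rv_append, List.cons_append])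
      rw [D_cons, Pi.add_apply, D_rv, Pi.neg_apply] at h6
      rw [hg1, D_append, Pi.add_apply] at h5
      simp only [vec, Pi.single_eq_same, if_true] at h6
      push_cast at h5
      omega
  have e1 := HW_core hx n
    ((walks n).filter (fun w => ((0, true) : Step) :: rv (A w) ∈ hs (n + 1) (n + 1) \ hs (n + 1) t))
    (hs (n + 1) (n + 1) \ hs (n + 1) t) (hs (n + 1) (n + 1)) A B hAB
    (fun w hw => (mem_walks.1 (mem_filter.1 hw).1).1)
    (fun w hw => (mem_filter.1 hw).2)
    (fun w hw => (halves (mem_filter.1 hw).1 (hAB w) (hA w) (hB w)).2)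
  have e2 := HW_core hx n
    ((walks n).filter (fun w => B w ∈ hs (n + 1) (n + 1) \ hs (n + 1) t))
    (hs (n + 1) (n + 1)) (hs (n + 1) (n + 1) \ hs (n + 1) t) A B hAB
    (fun w hw => (mem_walks.1 (mem_filter.1 hw).1).1)
    (fun w hw => (halves (mem_filter.1 hw).1 (hAB w) (hA w) (hB w)).1)
    (fun w hw => (mem_filter.1 hw).2)
  rw [sum_const, nsmul_eq_mul] at e1 e2
  have hcard : ((walks n).card : ℝ) ≤ 3 * (((walks n).filter (fun w => ((0, true) : Step) ::
      rv (A w) ∈ hs (n + 1) (n + 1) \ hs (n + 1) t)).card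
      + ((walks n).filter (fun w => B w ∈ hs (n + 1) (n + 1) \ hs (n + 1) t)).card) := by
    have h1 := card_reach n (t + 1) (by omega)
    have h2 := (card_le_card hsplit).trans (card_union_le _ _)
    have h3 := h1.trans (Nat.mul_le_mul_left 3 h2)
    exact_mod_cast h3
  have hxn : 0 < x ^ n := by positivity
  have hone : 1 ≤ ((walks n).card : ℝ) * x ^ n := by
    rw [hxdef, inv_pow, ← div_eq_mul_inv, le_div_iff₀ (by positivity), one_mul]
    exact hc n
  have hxinv : x⁻¹ = μ := by rw [hxdef, inv_inv]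
  set T := ∑ w ∈ hs (n + 1) (n + 1) \ hs (n + 1) t, x ^ w.length with hT
  have hT0 : 0 ≤ T := sum_nonneg fun _ _ => by positivity
  have hHs : ∑ w ∈ hs (n + 1) (n + 1), x ^ w.length = Hs x (n + 1) (n + 1) := rfl
  rw [hHs, hxinv] at e1 e2
  have hH0 := Hs_nonneg hx.le (n + 1) (n + 1)
  have hprod : T * Hs x (n + 1) (n + 1)
      ≤ Wh x (n + 1) t * Real.exp (2 * Zt x (n + 1)) := by
    calc T * Hs x (n + 1) (n + 1)
        ≤ (Wh x (n + 1) t * Real.exp (Zt x (n + 1))) * Real.exp (Zt x (n + 1)) :=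
          mul_le_mul hdiff hH hH0 (by positivity)
      _ = _ := by rw [mul_assoc, ← Real.exp_add, ← two_mul]
  calc (1 : ℝ) ≤ ((walks n).card : ℝ) * x ^ n := hone
    _ ≤ 3 * (((walks n).filter (fun w => ((0, true) : Step) ::
      rv (A w) ∈ hs (n + 1) (n + 1) \ hs (n + 1) t)).card
      + ((walks n).filter (fun w => B w ∈ hs (n + 1) (n + 1) \ hs (n + 1) t)).card) * x ^ n :=
        mul_le_mul_of_nonneg_right hcard hxn.le
    _ ≤ 3 * (μ * (T * Hs x (n + 1) (n + 1)) + μ * (Hs x (n + 1) (n + 1) * T)) := by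
        rw [mul_assoc, add_mul]
        linarith
    _ = 6 * μ * (T * Hs x (n + 1) (n + 1)) := by ring
    _ ≤ 6 * μ * (Wh x (n + 1) t * Real.exp (2 * Zt x (n + 1))) :=
        mul_le_mul_of_nonneg_left hprod (by positivity)
    _ = _ := by ring

end Pool.Agent.MP_794e6e_pr
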