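import Pool.Agent.MP_794e6e_pr.Stage

/-! Joining two walks through a spreader. -/

namespace Pool.Agent.MP_794e6e_pr
set_option maxHeartbeats 400000

open Finset
open scoped Classical

theorem join_rep {x : ℝ} {L Λ : ℕ} {W : Law} {π : ℝ} {ρ T : ℕ} {h M : ℝ}
    (hW : Spr x L Λ W π ρ T h M) {k : ℕ} (hk : k + 1 ≤ Λ) {A B : Word}
    (hA : A ∈ walks k) (hB : B ∈ walks k) :
    W.E (fun w => (rep (A ++ (w ++ B)) : ℝ)) ≤ h + (k + 1) ^ 2 * π := by
  rw [mem_walks] at hA hB
  have hπ := hW.nonneg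
  have cA : (pts A).card ≤ k + 1 := by rw [← hA.1]; exact card_pts_le A
  have cB : (pts B).card ≤ k + 1 := by rw [← hB.1]; exact card_pts_le B
  have h1 : W.E (fun w => (rep (A ++ (w ++ B)) : ℝ))
      ≤ W.E (fun w => (hit w (tr (- D A) (pts A)) (pts B) : ℝ)
        + ((tr (D w + 0) (pts B) ∩ tr (- D A) (pts A)).card : ℝ)) := by
    refine W.E_mono fun i => ?_
    have h2 := rep_sandwich A (W.f i) B
    rw [hA.2.rep, hB.2.rep, zero_add, zero_add] at h2
    rw [add_zero, inter_comm]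
    exact_mod_cast h2
  refine h1.trans ?_
  rw [Law.E_add]
  have h3 : W.E (fun w => (hit w (tr (- D A) (pts A)) (pts B) : ℝ)) ≤ h :=
    hW.hits _ _ (by rw [card_tr]; omega) (by omega)
  have h4 := E_hits' hW.spread hπ hW.box 0 (pts B) (tr (- D A) (pts A))
  have h5 : π * (((tr (- D A) (pts A)).card : ℝ) * ((pts B).card : ℝ))
      ≤ (k + 1) ^ 2 * π := by
    rw [card_tr, mul_comm, sq]
    refine mul_le_mul_of_nonneg_right ?_ hπ
    have cA' : ((pts A).card : ℝ) ≤ k + 1 := by exact_mod_cast cA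
    have cB' : ((pts B).card : ℝ) ≤ k + 1 := by exact_mod_cast cB
    exact mul_le_mul cA' cB' (Nat.cast_nonneg _) (by positivity)
  linarith

theorem join_half {x : ℝ} {L Λ : ℕ} {W : Law} {π : ℝ} {ρ T : ℕ} {h M : ℝ}
    (hW : Spr x L Λ W π ρ T h M) {k : ℕ} (hk : k + 1 ≤ Λ) {hh : ℕ}
    (hhh : 2 * (h + (k + 1) ^ 2 * π) ≤ hh + 1) {A B : Word}
    (hA : A ∈ walks k) (hB : B ∈ walks k) :
    1 / 2 ≤ W.E (fun w => if rep (A ++ (w ++ B)) ≤ hh then (1 : ℝ) else 0) := by
  have h1 := join_rep hW hk hA hB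
  have h2 : 1 ≤ W.E (fun w => (if rep (A ++ (w ++ B)) ≤ hh then (1 : ℝ) else 0)
      + ((hh : ℝ) + 1)⁻¹ * (rep (A ++ (w ++ B)) : ℝ)) := by
    refine W.le_E fun i => ?_
    split_ifs with h3
    · have : (0 : ℝ) ≤ ((hh : ℝ) + 1)⁻¹ * (rep (A ++ (W.f i ++ B)) : ℝ) := by positivity
      linarith
    · rw [zero_add]
      push Not at h3
      have h4 : (hh : ℝ) + 1 ≤ rep (A ++ (W.f i ++ B)) := by exact_mod_cast h3
      rw [inv_mul_eq_div, le_div_iff₀ (by positivity), one_mul]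
      exact h4
  rw [Law.E_add, Law.E_smul] at h2
  have h5 : ((hh : ℝ) + 1)⁻¹ * W.E (fun w => (rep (A ++ (w ++ B)) : ℝ)) ≤ 1 / 2 := by
    rw [inv_mul_eq_div, div_le_iff₀ (by positivity)]
    linarith
  linarith

/-- **The join inequality.** -/
theorem join {x : ℝ} (hx : 0 < x) {L Λ : ℕ} {W : Law} {π : ℝ} {ρ T : ℕ} {h M : ℝ}
    (hW : Spr x L Λ W π ρ T h M) (hM : 0 ≤ M) (hTL : T ≤ L) {k : ℕ} (hk : k + 1 ≤ Λ) {hh : ℕ}
    (hhh : 2 * (h + (k + 1) ^ 2 * π) ≤ hh + 1) :
    (((walks k).card : ℝ) * x ^ k) ^ 2 ≤ 2 * M * TT x hh (2 * k + L) := by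
  set S := walks k ×ˢ walks k with hS
  set φ : Word → ℝ := fun w => if w.length ≤ L then
    ∑ q ∈ S, (if rep (q.1 ++ (w ++ q.2)) ≤ hh then (1 : ℝ) else 0) else 0 with hφ
  have h0 : ∀ w, 0 ≤ φ w := by
    intro w
    simp only [hφ]
    split_ifs
    · exact sum_nonneg fun q _ => by split_ifs <;> norm_num
    · exact le_rfl
  have hL : ∀ w, L < w.length → φ w = 0 := by
    intro w hw
    simp only [hφ]
    rw [if_neg (by omega)]
  have h1 : ((walks k).card : ℝ) ^ 2 * (1 / 2) ≤ W.E φ := by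
    have h2 : W.E φ = W.E (fun w => ∑ q ∈ S, if rep (q.1 ++ (w ++ q.2)) ≤ hh then (1 : ℝ) else 0) := by
      unfold Law.E
      refine sum_congr rfl fun i _ => ?_
      simp only [hφ]
      rw [if_pos ((hW.len i).trans hTL)]
    rw [h2, Law.E_sum]
    calc ((walks k).card : ℝ) ^ 2 * (1 / 2) = ∑ _q ∈ S, (1 / 2 : ℝ) := by
          rw [sum_const, hS, card_product, nsmul_eq_mul]
          push_cast
          ring
      _ ≤ _ := by
          refine sum_le_sum fun q hq => ?_
          rw [hS, mem_product] at hq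
          exact join_half hW hk hhh hq.1 hq.2
  have h3 := hW.dom φ h0 hL
  have h4 : x ^ (2 * k) * ∑ w ∈ wle L, x ^ w.length * φ w ≤ TT x hh (2 * k + L) := by
    have e1 : x ^ (2 * k) * ∑ w ∈ wle L, x ^ w.length * φ w
        = ∑ p ∈ (wle L ×ˢ S).filter (fun p : Word × (Word × Word) =>
          rep (p.2.1 ++ (p.1 ++ p.2.2)) ≤ hh), x ^ (2 * k + p.1.length) := by
      rw [sum_filter, sum_product, mul_sum]
      refine sum_congr rfl fun w hw => ?_
      rw [mem_wle] at hw
      simp only [hφ]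
      rw [if_pos hw, mul_sum, mul_sum]
      refine sum_congr rfl fun q _ => ?_
      split_ifs
      · rw [pow_add]; ring
      · ring
    rw [e1]
    unfold TT
    refine sum_le_of_inj (fun p : Word × (Word × Word) => p.2.1 ++ (p.1 ++ p.2.2)) ?_ ?_ ?_ ?_
    · rintro ⟨w, A, B⟩ hp
      rw [mem_filter, mem_product, hS, mem_product, mem_wle, mem_walks, mem_walks] at hp
      rw [mem_filter, mem_wle]
      refine ⟨?_, hp.2⟩
      have a1 := hp.1.1
      have a2 := hp.1.2.1.1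
      have a3 := hp.1.2.2.1
      simp only at a1 a2 a3
      rw [List.length_append, List.length_append]
      omega
    · rintro ⟨w, A, B⟩ hp ⟨w', A', B'⟩ hp' heq
      rw [mem_coe, mem_filter, mem_product, hS, mem_product, mem_walks, mem_walks] at hp hp'
      simp only at heq
      have a2 : A.length = k := hp.1.2.1.1
      have a3 : B.length = k := hp.1.2.2.1
      have a2' : A'.length = k := hp'.1.2.1.1
      have a3' : B'.length = k := hp'.1.2.2.1
      obtain ⟨e1, e2⟩ := List.append_inj heq (by omega)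
      obtain ⟨e3, e4⟩ := List.append_inj' e2 (by omega)
      rw [e1, e3, e4]
    · rintro ⟨w, A, B⟩ hp
      rw [mem_filter, mem_product, hS, mem_product, mem_walks, mem_walks] at hp
      have a2 : A.length = k := hp.1.2.1.1
      have a3 : B.length = k := hp.1.2.2.1
      apply le_of_eq
      congr 1
      rw [List.length_append, List.length_append, a2, a3]
      simp only
      ring
    · intro w _
      exact pow_nonneg hx.le _
  have hx2 : 0 ≤ x ^ (2 * k) := pow_nonneg hx.le _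
  calc (((walks k).card : ℝ) * x ^ k) ^ 2
      = 2 * (x ^ (2 * k) * (((walks k).card : ℝ) ^ 2 * (1 / 2))) := by
        rw [mul_pow, ← pow_mul, mul_comm k 2]; ring
    _ ≤ 2 * (x ^ (2 * k) * (M * ∑ w ∈ wle L, x ^ w.length * φ w)) :=
        mul_le_mul_of_nonneg_left (mul_le_mul_of_nonneg_left (h1.trans h3) hx2) (by norm_num)
    _ = 2 * M * (x ^ (2 * k) * ∑ w ∈ wle L, x ^ w.length * φ w) := by ring
    _ ≤ _ := mul_le_mul_of_nonneg_left h4 (by positivity)

end Pool.Agent.MP_794e6e_pr
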