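import Pool.Agent.MP_794e6e_pr.Chain
import Pool.Agent.MP_794e6e_pr.Block

/-! One level of the spreading construction. -/

namespace Pool.Agent.MP_794e6e_pr
set_option maxHeartbeats 400000

open Finset
open scoped Classical

theorem Spr.mono {x : ℝ} (hx : 0 ≤ x) {L Λ : ℕ} {U : Law} {π π' : ℝ} {ρ ρ' T T' : ℕ}
    {h h' M M' : ℝ} (hU : Spr x L Λ U π ρ T h M) (h1 : π ≤ π') (h2 : ρ ≤ ρ') (h3 : T ≤ T')
    (h4 : h ≤ h') (h5 : M ≤ M') : Spr x L Λ U π' ρ' T' h' M' where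
  spread := fun y => (hU.spread y).trans h1
  box := fun i k => (hU.box i k).trans (by exact_mod_cast h2)
  len := fun i => (hU.len i).trans h3
  hits := fun X Z hX hZ => (hU.hits X Z hX hZ).trans h4
  dom := hU.dom.mono hx h5

theorem Spr.spread' {x : ℝ} {L Λ : ℕ} {U : Law} {π π' : ℝ} {ρ T : ℕ}
    {h M : ℝ} (hU : Spr x L Λ U π ρ T h M) (h1 : ∀ z, op U dz z ≤ π') :
    Spr x L Λ U π' ρ T h M where
  spread := fun y => by rw [E_eq_op]; exact h1 y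
  box := hU.box
  len := hU.len
  hits := hU.hits
  dom := hU.dom

theorem win_a {P : Law} {π : ℝ} {ρ : ℕ} (hπ : ∀ y, P.E (fun w => if D w = y then 1 else 0) ≤ π)
    (hbox : ∀ i k, |D (P.f i) k| ≤ ρ) (hπ0 : 0 ≤ π) (k : Word) (X : Finset Pt) {Λ : ℕ} {W : ℝ}
    (hX : X.card ≤ Λ) (hW0 : 0 ≤ W)
    (hW : ∀ c : ℤ, (((pts k).filter (fun p => |c - p 0| ≤ ρ)).card : ℝ) ≤ W) :
    P.E (fun u => ((tr (D u) ((pts k).erase 0) ∩ X).card : ℝ)) ≤ π * (Λ * W) := by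
  have h := E_hits hπ hbox 0 ((pts k).erase 0) X
  simp only [add_zero] at h
  refine h.trans (mul_le_mul_of_nonneg_left ?_ hπ0)
  calc ∑ y ∈ X, ((((pts k).erase 0).filter (fun p => |y 0 - p 0 - (0 : Pt) 0| ≤ ρ)).card : ℝ)
      ≤ ∑ _y ∈ X, W := by
        refine sum_le_sum fun y _ => ?_
        refine le_trans ?_ (hW (y 0))
        have : (((pts k).erase 0).filter (fun p => |y 0 - p 0 - (0 : Pt) 0| ≤ ρ)).card
            ≤ ((pts k).filter (fun p => |y 0 - p 0| ≤ ρ)).card := by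
          refine card_le_card fun p hp => ?_
          rw [mem_filter] at hp ⊢
          refine ⟨erase_subset _ _ hp.1, ?_⟩
          have := hp.2
          rwa [Pi.zero_apply, sub_zero] at this
        exact_mod_cast this
    _ = X.card * W := by rw [sum_const, nsmul_eq_mul]
    _ ≤ Λ * W := mul_le_mul_of_nonneg_right (by exact_mod_cast hX) hW0

theorem win_b {P : Law} {π : ℝ} {ρ : ℕ} (hπ : ∀ y, P.E (fun w => if D w = y then 1 else 0) ≤ π)
    (hbox : ∀ i k, |D (P.f i) k| ≤ ρ) (hπ0 : 0 ≤ π) (k : Word) (Z : Finset Pt) {Λ : ℕ} {W : ℝ}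
    (hZ : Z.card ≤ Λ) (hW0 : 0 ≤ W)
    (hW : ∀ c : ℤ, (((pts k).filter (fun p => |c - p 0| ≤ ρ)).card : ℝ) ≤ W) :
    P.E (fun v => (((pts k).erase (D k) ∩ tr (D k + D v) Z).card : ℝ)) ≤ π * (Λ * W) := by
  have e1 : (fun v => (((pts k).erase (D k) ∩ tr (D k + D v) Z).card : ℝ))
      = fun v => ((tr (D v + D k) Z ∩ (pts k).erase (D k)).card : ℝ) := by
    funext v
    rw [inter_comm, add_comm (D v)]
  rw [e1]
  refine (E_hits hπ hbox (D k) Z ((pts k).erase (D k))).trans (mul_le_mul_of_nonneg_left ?_ hπ0)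
  have e2 : ∑ y ∈ (pts k).erase (D k), ((Z.filter (fun p => |y 0 - p 0 - D k 0| ≤ ρ)).card : ℝ)
      = ∑ p ∈ Z, ((((pts k).erase (D k)).filter (fun y => |y 0 - p 0 - D k 0| ≤ ρ)).card : ℝ) := by
    have e3 : ∀ y : Pt, ((Z.filter (fun p => |y 0 - p 0 - D k 0| ≤ ρ)).card : ℝ)
        = ∑ p ∈ Z, if |y 0 - p 0 - D k 0| ≤ (ρ : ℤ) then (1 : ℝ) else 0 := fun y => by
      rw [sum_boole]
    have e4 : ∀ p : Pt, ((((pts k).erase (D k)).filter (fun y => |y 0 - p 0 - D k 0| ≤ ρ)).card : ℝ)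
        = ∑ y ∈ (pts k).erase (D k), if |y 0 - p 0 - D k 0| ≤ (ρ : ℤ) then (1 : ℝ) else 0 :=
      fun p => by rw [sum_boole]
    simp only [e3, e4]
    rw [sum_comm]
  rw [e2]
  calc ∑ p ∈ Z, ((((pts k).erase (D k)).filter (fun y => |y 0 - p 0 - D k 0| ≤ ρ)).card : ℝ)
      ≤ ∑ _p ∈ Z, W := by
        refine sum_le_sum fun p _ => ?_
        refine le_trans ?_ (hW (p 0 + D k 0))
        have : (((pts k).erase (D k)).filter (fun y => |y 0 - p 0 - D k 0| ≤ ρ)).card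
            ≤ ((pts k).filter (fun y => |p 0 + D k 0 - y 0| ≤ ρ)).card := by
          refine card_le_card fun y hy => ?_
          rw [mem_filter] at hy ⊢
          refine ⟨erase_subset _ _ hy.1, ?_⟩
          have h5 := hy.2
          rw [← abs_neg] at h5
          have e5 : -(y 0 - p 0 - D k 0) = p 0 + D k 0 - y 0 := by ring
          rwa [e5] at h5
        exact_mod_cast this
    _ = Z.card * W := by rw [sum_const, nsmul_eq_mul]
    _ ≤ Λ * W := mul_le_mul_of_nonneg_right (by exact_mod_cast hZ) hW0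

/-- composition of spreaders, with windows -/
theorem Spr.comp' {x : ℝ} (hx : 0 ≤ x) {L Λ : ℕ} {U V K : Law} {π π' : ℝ} {ρ ρ' T T' : ℕ}
    {h h' M M' : ℝ} (hU : Spr x L Λ U π ρ T h M) (hV : Spr x L Λ V π' ρ' T' h' M')
    {ρK s : ℕ} {MK W : ℝ} (hM : 0 ≤ M) (hM' : 0 ≤ M') (hMK : 0 ≤ MK) (hW0 : 0 ≤ W)
    (hKs : ∀ i, saw (K.f i)) (hKl : ∀ i, (K.f i).length ≤ s) (hKb : ∀ i k, |D (K.f i) k| ≤ ρK)
    (hKd : Dom x L K MK) (hΛ : s + T' + 1 ≤ Λ)
    (hWa : ∀ i, ∀ c : ℤ, (((pts (K.f i)).filter (fun p => |c - p 0| ≤ ρ)).card : ℝ) ≤ W)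
    (hWb : ∀ i, ∀ c : ℤ, (((pts (K.f i)).filter (fun p => |c - p 0| ≤ ρ')).card : ℝ) ≤ W) :
    Spr x L Λ (U.conv (K.conv V)) π (ρ + (ρK + ρ')) (T + (s + T'))
      (h + h' + π * (Λ * W) + π' * (Λ * W) + π * (Λ * T') + π' * (Λ * T))
      (M * (MK * M' * (L + 1)) * (L + 1)) :=
  Spr.comp hx hU hV hM hM' hMK hKs hKl hKb hKd hΛ
    (fun i X hX => win_a hU.spread hU.box hU.nonneg _ X hX hW0 (hWa i))
    (fun i Z hZ => win_b hV.spread hV.box hV.nonneg _ Z hZ hW0 (hWb i))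

theorem one_le_base {E : ℝ} (hE : 0 ≤ E) (L : ℕ) : 1 ≤ Real.exp E * (L + 1) := by
  have h1 := Real.one_le_exp hE
  have h2 : (0 : ℝ) ≤ L := Nat.cast_nonneg _
  nlinarith

/-- the law of a chain with a random number of blocks -/
theorem exists_chain {x : ℝ} (hx : 0 < x) {F : Finset Word} {E : ℝ} {v : Pt} {n : ℕ}
    (hF : ∀ w ∈ F, Br w ∧ D w = v ∧ w.length ≤ n) (hE : Real.exp (-E) ≤ ∑ w ∈ F, x ^ w.length)
    (hE0 : 0 ≤ E) {J : ℕ} (hJ : 0 < J) :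
    ∃ K : Law, (∀ i, ∃ j < J, Ch v n j (K.f i)) ∧
      (∀ L : ℕ, Dom x L K ((Real.exp E * (L + 1)) ^ J)) ∧
      (∀ φ : Pt → ℝ, K.E (fun w => φ (D w)) = (J : ℝ)⁻¹ * ∑ j ∈ range J, φ (j • v)) := by
  obtain ⟨B, hB1, hB2⟩ := exists_law hx hE
  have hB : ∀ i, Br (B.f i) ∧ D (B.f i) = v ∧ (B.f i).length ≤ n := fun i => hF _ (hB1 i)
  refine ⟨Law.mix J hJ (fun j => B.pow j), ?_, ?_, ?_⟩
  · rintro ⟨j, i⟩
    exact ⟨j, j.2, Ch.pow hB j i⟩
  · intro L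
    refine Dom.mix hJ fun j => ?_
    refine (Dom.pow hx (Real.exp_pos E).le (hB2 L) j).mono hx.le ?_
    exact pow_le_pow_right₀ (one_le_base hE0 L) j.2.le
  · intro φ
    rw [Law.E_mix]
    congr 1
    rw [← Fin.sum_univ_eq_sum_range (fun j => φ (j • v)) J]
    refine sum_congr rfl fun j _ => ?_
    have h1 : ∀ i, D ((B.pow j).f i) = (j : ℕ) • v := fun i => (Ch.pow hB j i).D
    rw [← (B.pow j).E_const (φ ((j : ℕ) • v))]
    unfold Law.E
    exact sum_congr rfl fun i _ => by simp only [h1]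

theorem abs_nsmul_le {j J a : ℕ} (hj : j < J) {v : Pt} {k : Fin 3} (hv : |v k| ≤ a) :
    |(j • v) k| ≤ ((J * a : ℕ) : ℤ) := by
  rw [Pi.smul_apply, nsmul_eq_mul, abs_mul, Nat.abs_cast]
  push_cast
  exact mul_le_mul (by exact_mod_cast hj.le) hv (abs_nonneg _) (by positivity)

/-- a spreader of a larger scale from a spreader and a block -/
theorem level {x : ℝ} (hx : 0 < x) {L Λ : ℕ} {U : Law} {π : ℝ} {ρ T : ℕ} {h M : ℝ}
    (hU : Spr x L Λ U π ρ T h M) (hM : 0 ≤ M) {F : Finset Word} {E : ℝ} {v : Pt} {n : ℕ}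
    (hF : ∀ w ∈ F, Br w ∧ D w = v ∧ w.length ≤ n) (hE : Real.exp (-E) ≤ ∑ w ∈ F, x ^ w.length)
    (hE0 : 0 ≤ E) {J : ℕ} (hJ : 0 < J) (hΛ : 3 * T + 3 * (J * n) + 1 ≤ Λ) {a : ℕ} (ha : 0 < a)
    (ha1 : ∀ i, (v i).natAbs ≤ a) (ha2 : ∃ i, (v i).natAbs = a) :
    ∃ W, Spr x L Λ W (π * (24 * ρ / a + 1) ^ 3 / J ^ 3) (4 * ρ + 3 * (J * a))
      (4 * T + 3 * (J * n)) (4 * h + 9 * (π * (Λ * (T + J * n + 1))))
      (M ^ 4 * ((Real.exp E * (L + 1)) ^ J) ^ 3 * (L + 1) ^ 6) := by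
  obtain ⟨K, hK1, hK2, hK3⟩ := exists_chain hx hF hE hE0 hJ
  obtain ⟨S₁, S₂, S₃, a', b, c, hcb, hba, hS1, hS2, hS3, hm1, hm2⟩ := exists_three v
  have haa : a' = a := by
    obtain ⟨i, hi⟩ := hm2
    obtain ⟨j, hj⟩ := ha2
    have h1 := ha1 i
    have h2 := hm1 j
    omega
  subst haa
  have hπ := hU.nonneg
  have hca : c ≤ a' := hcb.trans hba
  set s := J * n with hs
  set MK := (Real.exp E * (L + 1)) ^ J with hMK
  have hMK0 : 0 ≤ MK := by positivity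
  -- properties of the mapped chains
  have key : ∀ S : Sy, (∀ k, |S.A v k| ≤ a') → (∀ i, saw ((K.map S.g).f i)) ∧
      (∀ i, ((K.map S.g).f i).length ≤ s) ∧ (∀ i k, |D ((K.map S.g).f i) k| ≤ ((J * a' : ℕ) : ℤ)) ∧
      Dom x L (K.map S.g) MK ∧ (∀ ψ z, op (K.map S.g) ψ z
        = (J : ℝ)⁻¹ * ∑ j ∈ range J, ψ (z - j • S.A v)) ∧
      (∀ (ρ : ℕ) (i) (c : ℤ), (((pts ((K.map S.g).f i)).filter (fun p => |c - p 0| ≤ ρ)).card : ℝ)
        ≤ (s : ℝ) + 1) := by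
    intro S hS
    have hlen : ∀ i, ((K.map S.g).f i).length ≤ s := by
      intro i
      obtain ⟨j, hj, hc⟩ := hK1 i
      change ((K.f i).map S.g).length ≤ s
      rw [List.length_map]
      exact hc.length.trans (Nat.mul_le_mul_right _ hj.le)
    refine ⟨?_, hlen, ?_, (hK2 L).map hx.le hMK0 S.ginj, ?_, ?_⟩
    · intro i
      obtain ⟨j, hj, hc⟩ := hK1 i
      exact hc.br.saw.map S
    · intro i k
      obtain ⟨j, hj, hc⟩ := hK1 i
      change |D ((K.f i).map S.g) k| ≤ _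
      rw [S.D_map, hc.D, map_nsmul]
      exact abs_nsmul_le hj (hS k)
    · intro ψ z
      have := hK3 (fun p => ψ (z - S.A p))
      simp only [map_nsmul] at this
      rw [← this]
      unfold op
      rw [Law.E_map]
      congr 1
      funext w
      rw [S.D_map]
    · intro ρ i c
      have h1 : ((pts ((K.map S.g).f i)).filter (fun p => |c - p 0| ≤ ρ)).card ≤ s + 1 :=
        (card_filter_le _ _).trans ((card_pts_le _).trans (Nat.succ_le_succ (hlen i)))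
      exact_mod_cast h1
  have hb1 : ∀ k, |S₁.A v k| ≤ a' := by
    intro k; rw [hS1]; fin_cases k <;> simp <;> omega
  have hb2 : ∀ k, |S₂.A v k| ≤ a' := by
    intro k; rw [hS2]; fin_cases k <;> simp <;> omega
  have hb3 : ∀ k, |S₃.A v k| ≤ a' := by
    intro k; rw [hS3]; fin_cases k <;> simp <;> omega
  obtain ⟨p11, p12, p13, p14, p15, p16⟩ := key S₁ hb1
  obtain ⟨p21, p22, p23, p24, p25, p26⟩ := key S₂ hb2
  obtain ⟨p31, p32, p33, p34, p35, p36⟩ := key S₃ hb3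
  set K₁ := K.map S₁.g with hK₁
  set K₂ := K.map S₂.g with hK₂
  set K₃ := K.map S₃.g with hK₃
  have hs1 : (0 : ℝ) ≤ (s : ℝ) + 1 := by positivity
  have c1 := Spr.comp' hx.le hU hU hM hM hMK0 hs1 p11 p12 p13 p14 (by omega) (p16 ρ) (p16 ρ)
  have hM1 : 0 ≤ M * (MK * M * (L + 1)) * (L + 1) := by positivity
  have c2 := Spr.comp' hx.le hU c1 hM hM1 hMK0 hs1 p21 p22 p23 p24 (by omega) (p26 _) (p26 _)
  have hM2 : 0 ≤ M * (MK * (M * (MK * M * (L + 1)) * (L + 1)) * (L + 1)) * (L + 1) := by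
    positivity
  have c3 := Spr.comp' hx.le hU c2 hM hM2 hMK0 hs1 p31 p32 p33 p34 (by omega) (p36 _) (p36 _)
  refine ⟨U.conv (K₃.conv (U.conv (K₂.conv (U.conv (K₁.conv U))))), ?_⟩
  have c4 := Spr.spread' (π' := π * (24 * ρ / a' + 1) ^ 3 / J ^ 3) c3 (by
    intro z
    rw [op_conv, op_conv, op_conv, op_conv, op_conv, op_conv]
    rw [op_comm K₂ U, op_comm K₃ U, op_comm K₃ U]
    refine op_le (fun z1 => op_le (fun z2 => op_le (fun z3 => ?_) U z2) U z1) U z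
    have q1 : op K₃ (op K₂ (op K₁ (op U dz))) z3
        ≤ op K₃ (op K₂ (op K₁ (fun z => π * bx ρ z))) z3 :=
      op_mono (fun z => op_mono (fun z => op_mono (fun z => op_dz_le hU.spread hU.box z) _ z) _ z)
        _ z3
    refine q1.trans ?_
    rw [p35]
    simp only [p25, p15]
    have q2 : (J : ℝ)⁻¹ * ∑ j3 ∈ range J, (J : ℝ)⁻¹ * ∑ j2 ∈ range J, (J : ℝ)⁻¹ *
        ∑ j1 ∈ range J, π * bx ρ (z3 - j3 • S₃.A v - j2 • S₂.A v - j1 • S₁.A v)
        = π / (J : ℝ) ^ 3 * ((range J ×ˢ (range J ×ˢ range J)).filter (fun j : ℕ × ℕ × ℕ =>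
      ∀ k, |(z3 - j.1 • ![(a' : ℤ), b, -c] - j.2.1 • ![(-c : ℤ), a', b]
        - j.2.2 • ![(b : ℤ), -c, a']) k| ≤ ρ)).card := by
      have q3 : (((range J ×ˢ (range J ×ˢ range J)).filter (fun j : ℕ × ℕ × ℕ =>
          ∀ k, |(z3 - j.1 • ![(a' : ℤ), b, -c] - j.2.1 • ![(-c : ℤ), a', b]
          - j.2.2 • ![(b : ℤ), -c, a']) k| ≤ ρ)).card : ℝ)
          = ∑ j1 ∈ range J, ∑ j2 ∈ range J, ∑ j3 ∈ range J,
            bx ρ (z3 - j3 • S₃.A v - j2 • S₂.A v - j1 • S₁.A v) := by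
        rw [← sum_boole, sum_product]
        refine sum_congr rfl fun j1 _ => ?_
        rw [sum_product]
        refine sum_congr rfl fun j2 _ => sum_congr rfl fun j3 _ => ?_
        rw [hS1, hS2, hS3]
        have e : z3 - j3 • ![(b : ℤ), -c, a'] - j2 • ![(-c : ℤ), a', b] - j1 • ![(a' : ℤ), b, -c]
            = z3 - j1 • ![(a' : ℤ), b, -c] - j2 • ![(-c : ℤ), a', b]
              - j3 • ![(b : ℤ), -c, a'] := by
          abel
        rw [e]
        rfl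
      rw [q3]
      have q4 : ∑ j1 ∈ range J, ∑ j2 ∈ range J, ∑ j3 ∈ range J,
            bx ρ (z3 - j3 • S₃.A v - j2 • S₂.A v - j1 • S₁.A v)
          = ∑ j3 ∈ range J, ∑ j2 ∈ range J, ∑ j1 ∈ range J,
            bx ρ (z3 - j3 • S₃.A v - j2 • S₂.A v - j1 • S₁.A v) := by
        have : ∀ j1 : ℕ, ∑ j2 ∈ range J, ∑ j3 ∈ range J,
            bx ρ (z3 - j3 • S₃.A v - j2 • S₂.A v - j1 • S₁.A v)
            = ∑ j3 ∈ range J, ∑ j2 ∈ range J,
            bx ρ (z3 - j3 • S₃.A v - j2 • S₂.A v - j1 • S₁.A v) := fun j1 => sum_comm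
        simp only [this]
        rw [sum_comm]
        refine sum_congr rfl fun j3 _ => ?_
        rw [sum_comm]
      rw [q4]
      simp only [← mul_sum]
      ring
    rw [q2]
    have q5 := card_near hcb hba ha z3 ρ J
    rw [mul_div_right_comm]
    exact mul_le_mul_of_nonneg_left q5 (by positivity))
  refine c4.mono hx.le le_rfl ?_ ?_ ?_ ?_
  · apply le_of_eq; ring
  · apply le_of_eq; ring
  · have hΛ0 : (0 : ℝ) ≤ Λ := Nat.cast_nonneg _
    have hT0 : (0 : ℝ) ≤ T := Nat.cast_nonneg _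
    have hs0 : (0 : ℝ) ≤ s := Nat.cast_nonneg _
    have e0 : ((J * n : ℕ) : ℝ) = s := by rw [hs]
    push_cast
    have e1 : (J : ℝ) * n = s := by rw [hs]; push_cast; ring
    rw [e1]
    have r1 : 0 ≤ π * (Λ * (s : ℝ)) := by positivity
    have r2 : 0 ≤ π * (Λ : ℝ) := by positivity
    have r3 : 0 ≤ π * (Λ * (T : ℝ)) := by positivity
    nlinarith
  · apply le_of_eq; ring

end Pool.Agent.MP_794e6e_pr
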