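import Pool.Agent.MP_794e6e_pr.Count

/-! Self-avoiding words and self-avoiding paths. -/

namespace Pool.Agent.MP_794e6e_pr
set_option maxHeartbeats 400000

open Finset
open scoped Classical

/-- the path of a word -/
def path (n : ℕ) (w : Word) : Fin (n + 1) → (Fin 3 → ℤ) := fun j => D (w.take j)

/-- the set of self-avoiding paths from the origin -/
def SP (n : ℕ) : Set (Fin (n + 1) → (Fin 3 → ℤ)) :=
  {f | f 0 = 0 ∧ Function.Injective f ∧ ∀ i : Fin n, ∑ j : Fin 3, |f i.succ j - f i.castSucc j| = 1}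

theorem sum_abs_vec (s : Step) : ∑ j : Fin 3, |vec s j| = 1 := by
  obtain ⟨i, b⟩ := s
  rw [Fin.sum_univ_three]
  fin_cases i <;> cases b <;> simp [vec]

theorem exists_step {v : Pt} (h : ∑ j : Fin 3, |v j| = 1) : ∃ s : Step, vec s = v := by
  rw [Fin.sum_univ_three] at h
  simp only [Int.abs_eq_natAbs] at h
  have hc : (v 0 = 1 ∧ v 1 = 0 ∧ v 2 = 0) ∨ (v 0 = -1 ∧ v 1 = 0 ∧ v 2 = 0) ∨
      (v 0 = 0 ∧ v 1 = 1 ∧ v 2 = 0) ∨ (v 0 = 0 ∧ v 1 = -1 ∧ v 2 = 0) ∨
      (v 0 = 0 ∧ v 1 = 0 ∧ v 2 = 1) ∨ (v 0 = 0 ∧ v 1 = 0 ∧ v 2 = -1) := by omega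
  rcases hc with ⟨h0, h1, h2⟩ | ⟨h0, h1, h2⟩ | ⟨h0, h1, h2⟩ | ⟨h0, h1, h2⟩ | ⟨h0, h1, h2⟩ |
    ⟨h0, h1, h2⟩
  · refine ⟨(0, true), ?_⟩
    ext j; fin_cases j <;> simp [vec, h0, h1, h2]
  · refine ⟨(0, false), ?_⟩
    ext j; fin_cases j <;> simp [vec, h0, h1, h2]
  · refine ⟨(1, true), ?_⟩
    ext j; fin_cases j <;> simp [vec, h0, h1, h2]
  · refine ⟨(1, false), ?_⟩
    ext j; fin_cases j <;> simp [vec, h0, h1, h2]
  · refine ⟨(2, true), ?_⟩
    ext j; fin_cases j <;> simp [vec, h0, h1, h2]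
  · refine ⟨(2, false), ?_⟩
    ext j; fin_cases j <;> simp [vec, h0, h1, h2]

theorem vec_injective : Function.Injective vec := by
  rintro ⟨i, b⟩ ⟨i', b'⟩ h
  have h1 := congrFun h i
  have h2 : i = i' := by
    by_contra hne
    simp only [vec, Pi.single_eq_same, Pi.single_eq_of_ne hne] at h1
    split_ifs at h1 <;> omega
  subst h2
  simp only [vec, Pi.single_eq_same] at h1
  cases b <;> cases b' <;> simp at h1 ⊢

theorem D_take_succ {w : Word} {j : ℕ} (hj : j < w.length) :
    D (w.take (j + 1)) = D (w.take j) + vec w[j] := by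
  rw [List.take_add_one, List.getElem?_eq_getElem hj, D_append]
  simp [D]

theorem path_mem {n : ℕ} {w : Word} (hw : w ∈ walks n) : path n w ∈ SP n := by
  rw [mem_walks] at hw
  obtain ⟨hlen, hsaw⟩ := hw
  refine ⟨?_, ?_, ?_⟩
  · simp [path]
  · intro i j hij
    rw [saw_iff] at hsaw
    rcases lt_trichotomy (i : ℕ) (j : ℕ) with h | h | h
    · exact absurd hij (hsaw i j h (by omega))
    · exact Fin.ext h
    · exact absurd hij.symm (hsaw j i h (by omega))
  · intro i
    have hi : (i : ℕ) < w.length := by rw [hlen]; exact i.2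
    have e : ∀ j, path n w i.succ j - path n w i.castSucc j = vec w[(i : ℕ)] j := by
      intro j
      have h1 := congrFun (D_take_succ hi) j
      rw [Pi.add_apply] at h1
      simp only [path, Fin.val_succ, Fin.val_castSucc]
      rw [h1]
      ring
    simp only [e]
    exact sum_abs_vec _

theorem path_injOn (n : ℕ) : Set.InjOn (path n) (walks n : Set Word) := by
  intro w hw w' hw' heq
  rw [Finset.mem_coe, mem_walks] at hw hw'
  have hx : ∀ j ≤ n, D (w.take j) = D (w'.take j) := by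
    intro j hj
    exact congrFun heq ⟨j, by omega⟩
  refine List.ext_getElem (by rw [hw.1, hw'.1]) ?_
  intro j h1 h2
  apply vec_injective
  have a1 := D_take_succ h1
  have a2 := D_take_succ h2
  rw [hx (j + 1) (by omega), hx j (by omega), a2] at a1
  exact (add_left_cancel a1).symm

theorem path_surj {n : ℕ} {f : Fin (n + 1) → (Fin 3 → ℤ)} (hf : f ∈ SP n) :
    ∃ w ∈ walks n, path n w = f := by
  obtain ⟨h0, hinj, hn⟩ := hf
  have hst : ∀ j : Fin n, ∃ s : Step, vec s = f j.succ - f j.castSucc := fun j =>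
    exists_step (v := f j.succ - f j.castSucc) (hn j)
  choose st hst using hst
  set w : Word := List.ofFn st with hw
  have hlen : w.length = n := by rw [hw]; simp
  have hpos : ∀ j : ℕ, ∀ hj : j ≤ n, D (w.take j) = f ⟨j, by omega⟩ := by
    intro j
    induction j with
    | zero =>
      intro _
      have e : (⟨0, by omega⟩ : Fin (n + 1)) = 0 := rfl
      rw [e, h0]
      simp
    | succ j ih =>
      intro hj
      have i1 := ih (by omega)
      have hjl : j < w.length := by omega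
      have hwj : w[j] = st ⟨j, by omega⟩ := by simp [hw]
      have s1 := hst ⟨j, by omega⟩
      have e1 : (⟨j, by omega⟩ : Fin n).succ = (⟨j + 1, by omega⟩ : Fin (n + 1)) := rfl
      have e2 : (⟨j, by omega⟩ : Fin n).castSucc = (⟨j, by omega⟩ : Fin (n + 1)) := rfl
      rw [e1, e2] at s1
      rw [D_take_succ hjl, hwj, i1, s1]
      abel
  refine ⟨w, ?_, ?_⟩
  · rw [mem_walks]
    refine ⟨hlen, ?_⟩
    rw [saw_iff]
    intro i j hij hj heq
    rw [hpos i (by omega), hpos j (by omega)] at heq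
    have := hinj heq
    rw [Fin.mk.injEq] at this
    omega
  · funext j
    exact hpos j (by omega)

theorem SP_eq (n : ℕ) : SP n = path n '' (walks n : Set Word) := by
  ext f
  constructor
  · intro h
    obtain ⟨w, hw, rfl⟩ := path_surj h
    exact ⟨w, hw, rfl⟩
  · rintro ⟨w, hw, rfl⟩
    exact path_mem hw

theorem card_SP (n : ℕ) : Nat.card {f : Fin (n + 1) → (Fin 3 → ℤ) //
    f 0 = 0 ∧ Function.Injective f ∧
    ∀ i : Fin n, ∑ j : Fin 3, |f i.succ j - f i.castSucc j| = 1} = (walks n).card := by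
  have h1 : Nat.card (SP n) = (SP n).ncard := Nat.card_coe_set_eq _
  have h2 : (SP n).ncard = (walks n).card := by
    rw [SP_eq, (path_injOn n).ncard_image, Set.ncard_coe_finset]
  exact h1.trans h2

end Pool.Agent.MP_794e6e_pr
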