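import Pool.Agent.MP_794e6e_pr.Walk

/-! Sets of visited points and numbers of repetitions. -/

namespace Pool.Agent.MP_794e6e_pr

open Finset
open scoped Classical

/-- the visited points -/
noncomputable def pts (w : Word) : Finset Pt := (range (w.length + 1)).image fun i => D (w.take i)

/-- translation of a finite set of points -/
noncomputable def tr (c : Pt) (S : Finset Pt) : Finset Pt := S.image fun p => c + p

theorem mem_pts {w : Word} {p : Pt} : p ∈ pts w ↔ ∃ a b : Word, w = a ++ b ∧ D a = p := by
  constructor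
  · intro h
    obtain ⟨i, _, hi⟩ := mem_image.1 h
    exact ⟨w.take i, w.drop i, (List.take_append_drop i w).symm, hi⟩
  · rintro ⟨a, b, rfl, rfl⟩
    refine mem_image.2 ⟨a.length, ?_, by simp⟩
    rw [mem_range, List.length_append]; omega

theorem mem_tr {c p : Pt} {S : Finset Pt} : p ∈ tr c S ↔ p - c ∈ S := by
  constructor
  · intro h
    obtain ⟨q, hq, rfl⟩ := mem_image.1 h
    simpa using hq
  · intro h
    exact mem_image.2 ⟨p - c, h, by simp⟩

@[simp] theorem card_tr (c : Pt) (S : Finset Pt) : (tr c S).card = S.card :=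
  card_image_of_injective _ (fun _ _ h => add_left_cancel h)

theorem zero_mem_pts (w : Word) : (0 : Pt) ∈ pts w := mem_pts.2 ⟨[], w, rfl, rfl⟩

theorem D_mem_pts (w : Word) : D w ∈ pts w := mem_pts.2 ⟨w, [], by simp, rfl⟩

theorem card_pts_le (w : Word) : (pts w).card ≤ w.length + 1 := by
  refine card_image_le.trans ?_
  simp

theorem pts_append (u v : Word) : pts (u ++ v) = pts u ∪ tr (D u) (pts v) := by
  ext p
  rw [mem_union, mem_tr]
  constructor
  · intro h
    obtain ⟨a, b, hab, rfl⟩ := mem_pts.1 h
    rcases List.append_eq_append_iff.1 hab with ⟨e, he1, he2⟩ | ⟨e, he1, he2⟩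
    · right
      rw [he1, D_append]
      exact mem_pts.2 ⟨e, b, he2, by simp⟩
    · left
      exact mem_pts.2 ⟨a, e, he1, rfl⟩
  · rintro (h | h)
    · obtain ⟨a, b, rfl, rfl⟩ := mem_pts.1 h
      exact mem_pts.2 ⟨a, b ++ v, by simp, rfl⟩
    · obtain ⟨a, b, rfl, hab⟩ := mem_pts.1 h
      refine mem_pts.2 ⟨u ++ a, b, by simp, ?_⟩
      rw [D_append, hab]; simp

/-- the number of repetitions -/
noncomputable def rep (w : Word) : ℕ := w.length + 1 - (pts w).card

theorem rep_add (w : Word) : rep w + (pts w).card = w.length + 1 := by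
  have := card_pts_le w
  unfold rep; omega

theorem saw.card_pts {w : Word} (h : saw w) : (pts w).card = w.length + 1 := by
  unfold pts
  rw [card_image_of_injOn, card_range]
  intro i hi j hj hij
  rw [coe_range, Set.mem_Iio] at hi hj
  rw [saw_iff] at h
  rcases lt_trichotomy i j with h1 | h1 | h1
  · exact absurd hij (h i j h1 (by omega))
  · exact h1
  · exact absurd hij.symm (h j i h1 (by omega))

theorem saw.rep {w : Word} (h : saw w) : MP_794e6e_pr.rep w = 0 := by
  unfold MP_794e6e_pr.rep
  rw [h.card_pts]; simp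

theorem rep_append (u v : Word) : rep (u ++ v) = rep u + rep v +
    ((pts u).erase (D u) ∩ tr (D u) (pts v)).card := by
  have h1 := rep_add (u ++ v)
  have h2 := rep_add u
  have h3 := rep_add v
  have h4 := card_union_add_card_inter (pts u) (tr (D u) (pts v))
  rw [← pts_append, card_tr] at h4
  have h5 : (pts u ∩ tr (D u) (pts v)).card
      = ((pts u).erase (D u) ∩ tr (D u) (pts v)).card + 1 := by
    rw [erase_inter, card_erase_add_one]
    rw [mem_inter, mem_tr]
    exact ⟨D_mem_pts u, by simpa using zero_mem_pts v⟩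
  rw [List.length_append] at h1
  omega

/-- the number of repetitions inside `u` and of coincidences with earlier points `X` and later
points `Z` -/
noncomputable def hit (u : Word) (X Z : Finset Pt) : ℕ :=
  rep u + ((pts u).erase 0 ∩ X).card + ((pts u).erase (D u) ∩ tr (D u) Z).card

theorem erase_inter_tr (k v : Word) :
    ((pts k).erase (D k) ∩ tr (D k) (pts v)).card
      = ((pts v).erase 0 ∩ tr (- D k) (pts k)).card := by
  have : ((pts k).erase (D k) ∩ tr (D k) (pts v))
      = tr (D k) ((pts v).erase 0 ∩ tr (- D k) (pts k)) := by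
    ext p
    simp only [mem_inter, mem_erase, mem_tr, ne_eq]
    constructor
    · rintro ⟨⟨h1, h2⟩, h3⟩
      refine ⟨⟨?_, h3⟩, ?_⟩
      · intro h; exact h1 (sub_eq_zero.1 h)
      · simpa using h2
    · rintro ⟨⟨h1, h2⟩, h3⟩
      refine ⟨⟨?_, ?_⟩, h2⟩
      · intro h; exact h1 (sub_eq_zero.2 h)
      · simpa using h3
  rw [this, card_tr]

theorem hit_append (u k v : Word) (X Z : Finset Pt) :
    hit (u ++ (k ++ v)) X Z ≤ hit u X (pts (k ++ v)) + hit v (tr (- D k) (pts k)) Z + rep k
      + (tr (D u) ((pts k).erase 0) ∩ X).card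
      + (tr (D u + D k) ((pts v).erase 0) ∩ X).card
      + ((pts k).erase (D k) ∩ tr (D k + D v) Z).card
      + ((pts u).erase (D u) ∩ tr (D u + D k + D v) Z).card := by
  have hX : ((pts (u ++ (k ++ v))).erase 0 ∩ X).card ≤ ((pts u).erase 0 ∩ X).card
      + (tr (D u) ((pts k).erase 0) ∩ X).card + (tr (D u + D k) ((pts v).erase 0) ∩ X).card := by
    refine (card_le_card ?_).trans ((card_union_le _ _).trans
      (Nat.add_le_add_right (card_union_le _ _) _))
    intro p hp
    simp only [pts_append, mem_inter, mem_erase, mem_union, mem_tr, ne_eq] at hp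
    obtain ⟨⟨h1, h2⟩, h3⟩ := hp
    simp only [mem_inter, mem_erase, mem_union, mem_tr, ne_eq]
    rcases h2 with h2 | h2 | h2
    · left; left; exact ⟨⟨h1, h2⟩, h3⟩
    · by_cases h4 : p - D u = 0
      · left; left
        refine ⟨⟨h1, ?_⟩, h3⟩
        rw [sub_eq_zero.1 h4]; exact D_mem_pts u
      · left; right; exact ⟨⟨h4, h2⟩, h3⟩
    · by_cases h4 : p - D u = 0
      · left; left
        refine ⟨⟨h1, ?_⟩, h3⟩
        rw [sub_eq_zero.1 h4]; exact D_mem_pts u
      by_cases h5 : p - (D u + D k) = 0
      · left; right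
        refine ⟨⟨h4, ?_⟩, h3⟩
        have : p - D u = D k := by rw [sub_eq_zero.1 h5]; simp
        rw [this]; exact D_mem_pts k
      · right
        refine ⟨⟨h5, ?_⟩, h3⟩
        rwa [← sub_sub]
  have hZ : ((pts (u ++ (k ++ v))).erase (D (u ++ (k ++ v))) ∩ tr (D (u ++ (k ++ v))) Z).card
      ≤ ((pts u).erase (D u) ∩ tr (D u + D k + D v) Z).card
      + (tr (D u) ((pts k).erase (D k) ∩ tr (D k + D v) Z)).card
      + (tr (D u + D k) ((pts v).erase (D v) ∩ tr (D v) Z)).card := by
    refine (card_le_card ?_).trans ((card_union_le _ _).trans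
      (Nat.add_le_add_right (card_union_le _ _) _))
    intro p hp
    simp only [pts_append, mem_inter, mem_erase, mem_union, mem_tr, ne_eq, D_append] at hp
    obtain ⟨⟨h1, h2⟩, h3⟩ := hp
    simp only [mem_inter, mem_erase, mem_union, mem_tr, ne_eq]
    have e1 : p - (D u + D k + D v) ∈ Z := by rwa [← add_assoc] at h3
    have e2 : p - D u - (D k + D v) ∈ Z := by
      have : p - D u - (D k + D v) = p - (D u + D k + D v) := by abel
      rwa [this]
    have e3 : p - (D u + D k) - D v ∈ Z := by
      have : p - (D u + D k) - D v = p - (D u + D k + D v) := by abel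
      rwa [this]
    have key : p - (D u + D k) ∈ pts v →
        ¬ p - (D u + D k) = D v ∧ p - (D u + D k) ∈ pts v := by
      intro h
      refine ⟨?_, h⟩
      intro h4
      apply h1
      rw [sub_eq_iff_eq_add] at h4
      rw [h4]; abel
    have key2 : p - D u ∈ pts k → ((¬p - D u = D k ∧ p - D u ∈ pts k) ∧ p - D u - (D k + D v) ∈ Z)
        ∨ (¬ p - (D u + D k) = D v ∧ p - (D u + D k) ∈ pts v) ∧ p - (D u + D k) - D v ∈ Z := by
      intro h
      by_cases h4 : p - D u = D k
      · right
        refine ⟨key ?_, e3⟩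
        have : p - (D u + D k) = 0 := by
          rw [← sub_sub, h4, sub_self]
        rw [this]; exact zero_mem_pts v
      · left; exact ⟨⟨h4, h⟩, e2⟩
    rcases h2 with h2 | h2 | h2
    · by_cases h4 : p = D u
      · have h5 : p - D u ∈ pts k := by rw [h4, sub_self]; exact zero_mem_pts k
        rcases key2 h5 with h6 | h6
        · left; right; exact h6
        · right; exact h6
      · left; left; exact ⟨⟨h4, h2⟩, e1⟩
    · rcases key2 h2 with h6 | h6
      · left; right; exact h6
      · right; exact h6
    · right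
      refine ⟨key ?_, e3⟩
      rwa [← sub_sub]
  rw [card_tr, card_tr] at hZ
  have hr1 := rep_append u (k ++ v)
  have hr2 := rep_append k v
  rw [erase_inter_tr k v] at hr2
  unfold hit
  omega

theorem rep_sandwich (A w B : Word) : rep (A ++ (w ++ B)) ≤ rep A + rep B
    + hit w (tr (- D A) (pts A)) (pts B)
    + (tr (- D A) (pts A) ∩ tr (D w) (pts B)).card := by
  have h1 := rep_append A (w ++ B)
  have h2 := rep_append w B
  rw [erase_inter_tr A (w ++ B)] at h1
  have h3 : ((pts (w ++ B)).erase 0 ∩ tr (- D A) (pts A)).card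
      ≤ ((pts w).erase 0 ∩ tr (- D A) (pts A)).card
        + (tr (- D A) (pts A) ∩ tr (D w) (pts B)).card := by
    refine (card_le_card ?_).trans (card_union_le _ _)
    intro p hp
    simp only [pts_append, mem_inter, mem_erase, mem_union, ne_eq] at hp ⊢
    obtain ⟨⟨h4, h5⟩, h6⟩ := hp
    rcases h5 with h5 | h5
    · left; exact ⟨⟨h4, h5⟩, h6⟩
    · right; exact ⟨h6, h5⟩
  unfold hit
  omega

/-- removing a shortest block with zero displacement -/
theorem exists_loop {w : Word} (hw : ¬ saw w) : ∃ a u b : Word, w = a ++ (u ++ b) ∧ u ≠ [] ∧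
    D u = 0 ∧ (∀ c e d : Word, u = c ++ (e ++ d) → e ≠ [] → (c ≠ [] ∨ d ≠ []) → D e ≠ 0) ∧
    rep (a ++ b) + 1 ≤ rep w := by
  unfold saw at hw
  push Not at hw
  obtain ⟨a0, u0, b0, h0, hne0, hD0⟩ := hw
  have hex : ∃ n : ℕ, ∃ a u b : Word, w = a ++ (u ++ b) ∧ u ≠ [] ∧ D u = 0 ∧ u.length = n :=
    ⟨u0.length, a0, u0, b0, h0, hne0, hD0, rfl⟩
  obtain ⟨a, u, b, h1, hne, hD, hlen⟩ := Nat.find_spec hex
  refine ⟨a, u, b, h1, hne, hD, ?_, ?_⟩
  · intro c e d hu hene hcd hDe
    have hmin : Nat.find hex ≤ e.length := by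
      refine Nat.find_min' hex ⟨a ++ c, e, d ++ b, ?_, hene, hDe, rfl⟩
      rw [h1, hu]; simp
    have hl := congrArg List.length hu
    rw [List.length_append, List.length_append] at hl
    rcases hcd with h | h
    · have := List.length_pos_of_ne_nil h; omega
    · have := List.length_pos_of_ne_nil h; omega
  · have hulen := List.length_pos_of_ne_nil hne
    have hsub : pts w ⊆ pts (a ++ b) ∪ (Finset.Ioo 0 u.length).image
        (fun i => D a + D (u.take i)) := by
      intro p hp
      rw [h1, pts_append, pts_append] at hp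
      simp only [mem_union, mem_tr] at hp
      rw [mem_union, pts_append, mem_union, mem_tr]
      rcases hp with hp | hp | hp
      · left; left; exact hp
      · obtain ⟨i, hi, hi2⟩ := mem_image.1 hp
        rw [mem_range] at hi
        by_cases hi0 : i = 0
        · left; left
          subst hi0
          simp only [List.take_zero, D_nil] at hi2
          rw [sub_eq_zero.1 hi2.symm]
          exact D_mem_pts a
        by_cases hi1 : i = u.length
        · left; left
          subst hi1
          rw [List.take_length, hD] at hi2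
          rw [sub_eq_zero.1 hi2.symm]
          exact D_mem_pts a
        · right
          refine mem_image.2 ⟨i, ?_, ?_⟩
          · rw [mem_Ioo]; omega
          · rw [hi2]; abel
      · left; right
        rwa [hD, sub_zero] at hp
    have hc := card_le_card hsub
    have hc2 := hc.trans (card_union_le _ _)
    have hc3 : ((Finset.Ioo 0 u.length).image (fun i => D a + D (u.take i))).card
        ≤ u.length - 1 := by
      refine card_image_le.trans ?_
      simp
    have r1 := rep_add w
    have r2 := rep_add (a ++ b)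
    have hl := congrArg List.length h1
    rw [List.length_append, List.length_append] at hl
    rw [List.length_append] at r2
    omega

theorem saw_of_rep {w : Word} (h : rep w = 0) : saw w := by
  by_contra hw
  obtain ⟨a, u, b, -, -, -, -, h5⟩ := exists_loop hw
  omega

end Pool.Agent.MP_794e6e_pr
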