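import Pool.Agent.MP_794e6e_pr.Law

/-! Spreaders and their composition. -/

namespace Pool.Agent.MP_794e6e_pr
set_option maxHeartbeats 200000

open Finset
open scoped Classical

/-- A law whose end point is spread out and which has few coincidences with given finite sets. -/
structure Spr (x : ℝ) (L Λ : ℕ) (U : Law) (π : ℝ) (ρ T : ℕ) (h M : ℝ) : Prop where
  spread : ∀ y, U.E (fun w => if D w = y then 1 else 0) ≤ π
  box : ∀ i k, |D (U.f i) k| ≤ ρ
  len : ∀ i, (U.f i).length ≤ T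
  hits : ∀ X Z : Finset Pt, X.card ≤ Λ → Z.card ≤ Λ → U.E (fun w => (hit w X Z : ℝ)) ≤ h
  dom : Dom x L U M

theorem Spr.nonneg {x : ℝ} {L Λ : ℕ} {U : Law} {π : ℝ} {ρ T : ℕ} {h M : ℝ}
    (hU : Spr x L Λ U π ρ T h M) : 0 ≤ π :=
  (U.le_E fun i => by split_ifs <;> norm_num).trans (hU.spread 0)

theorem Spr.hit_nonneg {x : ℝ} {L Λ : ℕ} {U : Law} {π : ℝ} {ρ T : ℕ} {h M : ℝ}
    (hU : Spr x L Λ U π ρ T h M) : 0 ≤ h :=
  (U.le_E fun i => Nat.cast_nonneg _).trans (hU.hits ∅ ∅ (by simp) (by simp))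

theorem E_hits_aux {d c : Pt} {ρ : ℕ} (hbox : |d 0| ≤ (ρ : ℤ)) (S X : Finset Pt) :
    ((tr (d + c) S ∩ X).card : ℝ) ≤ ∑ y ∈ X,
      ∑ p ∈ S.filter (fun p => |y 0 - p 0 - c 0| ≤ (ρ : ℤ)),
        (if d = y - p - c then (1 : ℝ) else 0) := by
  have h2 : ((tr (d + c) S ∩ X).card : ℝ)
      = ∑ y ∈ X, if y ∈ tr (d + c) S then (1 : ℝ) else 0 := by
    rw [Finset.sum_boole]
    congr 2
    ext y
    rw [mem_inter, mem_filter, and_comm]
  rw [h2]
  refine sum_le_sum fun y _ => ?_
  by_cases hy : y ∈ tr (d + c) S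
  · rw [if_pos hy]
    rw [mem_tr] at hy
    have hp : y - (d + c) ∈ S.filter (fun p => |y 0 - p 0 - c 0| ≤ (ρ : ℤ)) := by
      rw [mem_filter]
      refine ⟨hy, ?_⟩
      have h4 : y 0 - (y - (d + c)) 0 - c 0 = d 0 := by
        simp only [Pi.sub_apply, Pi.add_apply]; ring
      rw [h4]; exact hbox
    have hp2 : d = y - (y - (d + c)) - c := by abel
    exact (if_pos hp2).ge.trans
      (single_le_sum (f := fun p => if d = y - p - c then (1 : ℝ) else 0)
        (fun p _ => by split_ifs <;> norm_num) hp)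
  · rw [if_neg hy]
    exact sum_nonneg fun p _ => by split_ifs <;> norm_num

/-- expected number of coincidences, with a window -/
theorem E_hits {P : Law} {π : ℝ} {ρ : ℕ} (hπ : ∀ y, P.E (fun w => if D w = y then 1 else 0) ≤ π)
    (hbox : ∀ i k, |D (P.f i) k| ≤ ρ) (c : Pt) (S X : Finset Pt) :
    P.E (fun u => ((tr (D u + c) S ∩ X).card : ℝ))
      ≤ π * ∑ y ∈ X, ((S.filter (fun p => |y 0 - p 0 - c 0| ≤ ρ)).card : ℝ) := by
  have h2 : P.E (fun u => ((tr (D u + c) S ∩ X).card : ℝ)) ≤ P.E (fun u => ∑ y ∈ X,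
      ∑ p ∈ S.filter (fun p => |y 0 - p 0 - c 0| ≤ ρ),
        (if D u = y - p - c then (1 : ℝ) else 0)) := by
    exact sum_le_sum fun i _ => mul_le_mul_of_nonneg_left (E_hits_aux (hbox i 0) S X) (P.nn i)
  refine h2.trans ?_
  rw [P.E_sum, mul_sum]
  refine sum_le_sum fun y _ => ?_
  rw [P.E_sum]
  calc ∑ p ∈ S.filter (fun p => |y 0 - p 0 - c 0| ≤ ρ),
      P.E (fun w => if D w = y - p - c then (1 : ℝ) else 0)
      ≤ ∑ _p ∈ S.filter (fun p => |y 0 - p 0 - c 0| ≤ ρ), π := sum_le_sum fun p _ => hπ _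
    _ = _ := by rw [sum_const, nsmul_eq_mul, mul_comm]

theorem E_hits' {P : Law} {π : ℝ} {ρ : ℕ} (hπ : ∀ y, P.E (fun w => if D w = y then 1 else 0) ≤ π)
    (hπ0 : 0 ≤ π) (hbox : ∀ i k, |D (P.f i) k| ≤ ρ) (c : Pt) (S X : Finset Pt) :
    P.E (fun u => ((tr (D u + c) S ∩ X).card : ℝ)) ≤ π * (X.card * S.card) := by
  refine (E_hits hπ hbox c S X).trans (mul_le_mul_of_nonneg_left ?_ hπ0)
  calc ∑ y ∈ X, ((S.filter (fun p => |y 0 - p 0 - c 0| ≤ ρ)).card : ℝ)
      ≤ ∑ _y ∈ X, (S.card : ℝ) := sum_le_sum fun y _ => by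
        exact_mod_cast card_filter_le _ _
    _ = _ := by rw [sum_const, nsmul_eq_mul]

theorem card_erase_pts_le (w : Word) (p : Pt) (hp : p ∈ pts w) :
    ((pts w).erase p).card ≤ w.length := by
  rw [card_erase_of_mem hp]
  have := card_pts_le w
  omega

/-- **Composition of spreaders.** -/
theorem Spr.comp {x : ℝ} (hx : 0 ≤ x) {L Λ : ℕ} {U V K : Law} {π π' : ℝ} {ρ ρ' T T' : ℕ}
    {h h' M M' : ℝ} (hU : Spr x L Λ U π ρ T h M) (hV : Spr x L Λ V π' ρ' T' h' M')
    {ρK s : ℕ} {MK a b : ℝ} (hM : 0 ≤ M) (hM' : 0 ≤ M') (hMK : 0 ≤ MK)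
    (hKs : ∀ i, saw (K.f i)) (hKl : ∀ i, (K.f i).length ≤ s) (hKb : ∀ i k, |D (K.f i) k| ≤ ρK)
    (hKd : Dom x L K MK) (hΛ : s + T' + 1 ≤ Λ)
    (ha : ∀ i, ∀ X : Finset Pt, X.card ≤ Λ →
      U.E (fun u => ((tr (D u) ((pts (K.f i)).erase 0) ∩ X).card : ℝ)) ≤ a)
    (hb : ∀ i, ∀ Z : Finset Pt, Z.card ≤ Λ → V.E (fun v =>
      (((pts (K.f i)).erase (D (K.f i)) ∩ tr (D (K.f i) + D v) Z).card : ℝ)) ≤ b) :
    Spr x L Λ (U.conv (K.conv V)) π (ρ + (ρK + ρ')) (T + (s + T'))
      (h + h' + a + b + π * (Λ * T') + π' * (Λ * T)) (M * (MK * M' * (L + 1)) * (L + 1)) where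
  spread := by
    intro y
    have e1 : (U.conv (K.conv V)).E (fun w => if D w = y then (1 : ℝ) else 0)
        = (K.conv V).E (fun q => U.E (fun u => if D u = y - D q then (1 : ℝ) else 0)) := by
      rw [Law.E_conv, Law.E_comm]
      congr 1
      funext q
      congr 1
      funext u
      rw [D_append]
      by_cases h1 : D u + D q = y
      · rw [if_pos h1, if_pos (by rw [← h1]; abel)]
      · rw [if_neg h1, if_neg (fun h2 => h1 (by rw [h2]; abel))]
    rw [e1]
    exact Law.E_le _ fun i => hU.spread _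
  box := by
    rintro ⟨i, j, l⟩ k
    change |D (U.f i ++ (K.f j ++ V.f l)) k| ≤ _
    rw [D_append, D_append, Pi.add_apply, Pi.add_apply]
    have h1 := hU.box i k
    have h2 := hKb j k
    have h3 := hV.box l k
    have h4 := abs_add_le (D (U.f i) k) (D (K.f j) k + D (V.f l) k)
    have h5 := abs_add_le (D (K.f j) k) (D (V.f l) k)
    push_cast
    linarith
  len := by
    rintro ⟨i, j, l⟩
    change (U.f i ++ (K.f j ++ V.f l)).length ≤ _
    rw [List.length_append, List.length_append]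
    have h1 := hU.len i
    have h2 := hKl j
    have h3 := hV.len l
    omega
  dom := Dom.conv hx hM (by positivity) hU.dom (Dom.conv hx hMK hM' hKd hV.dom)
  hits := by
    intro X Z hX hZ
    have hπ := hU.nonneg
    have hπ' := hV.nonneg
    rw [Law.E_conv]
    simp only [Law.E_conv]
    -- pointwise bound
    have hpt : ∀ i j l, (hit (U.f i ++ (K.f j ++ V.f l)) X Z : ℝ)
        ≤ hit (U.f i) X (pts (K.f j ++ V.f l)) + hit (V.f l) (tr (- D (K.f j)) (pts (K.f j))) Z
        + (tr (D (U.f i)) ((pts (K.f j)).erase 0) ∩ X).card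
        + (tr (D (U.f i) + D (K.f j)) ((pts (V.f l)).erase 0) ∩ X).card
        + ((pts (K.f j)).erase (D (K.f j)) ∩ tr (D (K.f j) + D (V.f l)) Z).card
        + ((pts (U.f i)).erase (D (U.f i)) ∩ tr (D (U.f i) + D (K.f j) + D (V.f l)) Z).card := by
      intro i j l
      have h1 := hit_append (U.f i) (K.f j) (V.f l) X Z
      rw [(hKs j).rep] at h1
      exact_mod_cast h1
    have step1 : U.E (fun u => K.E (fun k => V.E (fun v => (hit (u ++ (k ++ v)) X Z : ℝ))))
        ≤ U.E (fun u => K.E (fun k => V.E (fun v =>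
          (hit u X (pts (k ++ v)) : ℝ) + hit v (tr (- D k) (pts k)) Z
          + (tr (D u) ((pts k).erase 0) ∩ X).card
          + (tr (D u + D k) ((pts v).erase 0) ∩ X).card
          + ((pts k).erase (D k) ∩ tr (D k + D v) Z).card
          + ((pts u).erase (D u) ∩ tr (D u + D k + D v) Z).card))) :=
      U.E_mono fun i => K.E_mono fun j => V.E_mono fun l => hpt i j l
    refine step1.trans ?_
    simp only [Law.E_add]
    have t1 : U.E (fun u => K.E (fun k => V.E (fun v => (hit u X (pts (k ++ v)) : ℝ)))) ≤ h := by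
      rw [Law.E_comm U K]
      refine K.E_le fun j => ?_
      rw [Law.E_comm U V]
      refine V.E_le fun l => ?_
      refine hU.hits X _ hX ?_
      have h1 := card_pts_le (K.f j ++ V.f l)
      rw [List.length_append] at h1
      have h2 := hKl j
      have h3 := hV.len l
      omega
    have t2 : U.E (fun _ => K.E (fun k => V.E (fun v =>
        (hit v (tr (- D k) (pts k)) Z : ℝ)))) ≤ h' := by
      refine U.E_le fun i => K.E_le fun j => ?_
      refine hV.hits _ Z ?_ hZ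
      rw [card_tr]
      have h1 := card_pts_le (K.f j)
      have h2 := hKl j
      omega
    have t3 : U.E (fun u => K.E (fun k => V.E (fun _ =>
        ((tr (D u) ((pts k).erase 0) ∩ X).card : ℝ)))) ≤ a := by
      simp only [Law.E_const]
      rw [Law.E_comm]
      exact K.E_le fun j => ha j X hX
    have t4 : U.E (fun u => K.E (fun k => V.E (fun v =>
        ((tr (D u + D k) ((pts v).erase 0) ∩ X).card : ℝ)))) ≤ π * (Λ * T') := by
      rw [Law.E_comm U K]
      refine K.E_le fun j => ?_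
      rw [Law.E_comm U V]
      refine V.E_le fun l => ?_
      refine (E_hits' hU.spread hπ hU.box _ _ _).trans (mul_le_mul_of_nonneg_left ?_ hπ)
      have h1 := card_erase_pts_le (V.f l) 0 (zero_mem_pts _)
      have h2 := hV.len l
      have h3 : (((pts (V.f l)).erase 0).card : ℝ) ≤ T' := by exact_mod_cast h1.trans h2
      have h4 : (X.card : ℝ) ≤ Λ := by exact_mod_cast hX
      exact mul_le_mul h4 h3 (Nat.cast_nonneg _) (Nat.cast_nonneg _)
    have t5 : U.E (fun _ => K.E (fun k => V.E (fun v =>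
        (((pts k).erase (D k) ∩ tr (D k + D v) Z).card : ℝ)))) ≤ b :=
      U.E_le fun i => K.E_le fun j => hb j Z hZ
    have t6 : U.E (fun u => K.E (fun k => V.E (fun v =>
        (((pts u).erase (D u) ∩ tr (D u + D k + D v) Z).card : ℝ)))) ≤ π' * (Λ * T) := by
      refine U.E_le fun i => K.E_le fun j => ?_
      have h1 := E_hits' hV.spread hπ' hV.box (D (U.f i) + D (K.f j)) Z
        ((pts (U.f i)).erase (D (U.f i)))
      have e1 : (fun v => (((pts (U.f i)).erase (D (U.f i)) ∩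
          tr (D (U.f i) + D (K.f j) + D v) Z).card : ℝ))
          = fun v => ((tr (D v + (D (U.f i) + D (K.f j))) Z ∩
            (pts (U.f i)).erase (D (U.f i))).card : ℝ) := by
        funext v
        rw [inter_comm, add_comm (D v)]
      rw [e1]
      refine h1.trans (mul_le_mul_of_nonneg_left ?_ hπ')
      have h2 := card_erase_pts_le (U.f i) _ (D_mem_pts _)
      have h3 := hU.len i
      have h4 : (((pts (U.f i)).erase (D (U.f i))).card : ℝ) ≤ T := by exact_mod_cast h2.trans h3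
      have h5 : (Z.card : ℝ) ≤ Λ := by exact_mod_cast hZ
      rw [mul_comm]
      exact mul_le_mul h5 h4 (Nat.cast_nonneg _) (Nat.cast_nonneg _)
    linarith

end Pool.Agent.MP_794e6e_pr
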