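import Pool.Agent.MP_794e6e_pr.Level

/-! The first and the last spreader. -/

namespace Pool.Agent.MP_794e6e_pr
set_option maxHeartbeats 400000

open Finset
open scoped Classical

/-- straight words -/
def sw (i : ℕ × ℕ × ℕ) : Word :=
  List.replicate i.1 ((0, true) : Step) ++ (List.replicate i.2.1 ((1, true) : Step) ++
    List.replicate i.2.2 ((2, true) : Step))

theorem D_replicate (n : ℕ) (s : Step) : D (List.replicate n s) = n • vec s := by
  induction n with
  | zero => simp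
  | succ n ih => rw [List.replicate_succ, D_cons, ih, succ_nsmul, add_comm]

theorem D_sw (i : ℕ × ℕ × ℕ) : D (sw i) = ![(i.1 : ℤ), i.2.1, i.2.2] := by
  unfold sw
  rw [D_append, D_append, D_replicate, D_replicate, D_replicate]
  funext k
  fin_cases k <;> simp [vec, Pi.single_apply]

theorem length_sw (i : ℕ × ℕ × ℕ) : (sw i).length = i.1 + (i.2.1 + i.2.2) := by
  simp [sw]

theorem saw_sw (i : ℕ × ℕ × ℕ) : saw (sw i) := by
  apply saw_of_pos
  intro s hs
  unfold sw at hs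
  simp only [List.mem_append, List.mem_replicate] at hs
  rcases hs with ⟨_, rfl⟩ | ⟨_, rfl⟩ | ⟨_, rfl⟩ <;> rfl

/-- the first spreader -/
theorem base {x : ℝ} (hx : 0 < x) (hx1 : x ≤ 1) (L Λ : ℕ) {r : ℕ} (hr : 0 < r) :
    ∃ U, Spr x L Λ U (1 / (r : ℝ) ^ 3) r (3 * r) (6 * r) (x⁻¹ ^ (3 * r)) := by
  have hr' : (0 : ℝ) < r := by exact_mod_cast hr
  let U : Law := ⟨Fin r × Fin r × Fin r, inferInstance, fun _ => ((r : ℝ) ^ 3)⁻¹,
    fun i => sw (i.1, i.2.1, i.2.2), fun _ => by positivity, by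
      rw [sum_const, card_univ, Fintype.card_prod, Fintype.card_prod, Fintype.card_fin,
        nsmul_eq_mul]
      push_cast
      field_simp⟩
  have hlen : ∀ i, (U.f i).length ≤ 3 * r := by
    rintro ⟨a, b, c⟩
    change (sw (a, b, c)).length ≤ 3 * r
    rw [length_sw]
    have := a.2
    have := b.2
    have := c.2
    simp only
    omega
  refine ⟨U, ?_, ?_, hlen, ?_, ?_⟩
  · intro y
    have h1 : U.E (fun w => if D w = y then (1 : ℝ) else 0)
        = ((r : ℝ) ^ 3)⁻¹ * ((univ.filter (fun i : U.ι => D (U.f i) = y)).card : ℝ) := by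
      rw [← sum_boole, mul_sum]
      rfl
    have h2 : (univ.filter (fun i : U.ι => D (U.f i) = y)).card ≤ 1 := by
      rw [card_le_one]
      rintro ⟨a, b, c⟩ h3 ⟨a', b', c'⟩ h4
      rw [mem_filter] at h3 h4
      have h5 : D (sw (a, b, c)) = D (sw (a', b', c')) := h3.2.trans h4.2.symm
      rw [D_sw, D_sw] at h5
      have e0 := congrFun h5 0
      have e1 := congrFun h5 1
      have e2 := congrFun h5 2
      simp at e0 e1 e2
      rw [Prod.mk.injEq, Prod.mk.injEq]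
      exact ⟨Fin.ext e0, Fin.ext e1, Fin.ext e2⟩
    rw [h1, one_div]
    have h3 : ((univ.filter (fun i : U.ι => D (U.f i) = y)).card : ℝ) ≤ 1 := by exact_mod_cast h2
    calc ((r : ℝ) ^ 3)⁻¹ * ((univ.filter (fun i : U.ι => D (U.f i) = y)).card : ℝ)
        ≤ ((r : ℝ) ^ 3)⁻¹ * 1 := mul_le_mul_of_nonneg_left h3 (by positivity)
      _ = _ := mul_one _
  · rintro ⟨a, b, c⟩ k
    change |D (sw (a, b, c)) k| ≤ r
    rw [D_sw]
    have := a.2
    have := b.2
    have := c.2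
    fin_cases k <;> simp <;> omega
  · intro X Z _ _
    refine U.E_le fun i => ?_
    have h0 : rep (U.f i) = 0 := (saw_sw _).rep
    have h1 : ((pts (U.f i)).erase 0 ∩ X).card ≤ 3 * r :=
      (card_le_card inter_subset_left).trans
        ((card_erase_pts_le _ _ (zero_mem_pts _)).trans (hlen i))
    have h2 : ((pts (U.f i)).erase (D (U.f i)) ∩ tr (D (U.f i)) Z).card ≤ 3 * r :=
      (card_le_card inter_subset_left).trans
        ((card_erase_pts_le _ _ (D_mem_pts _)).trans (hlen i))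
    have h3 : hit (U.f i) X Z ≤ 6 * r := by
      unfold hit
      rw [h0]
      omega
    exact_mod_cast h3
  · intro φ h0 hL
    refine U.E_le fun i => ?_
    have h1 := Dom.dirac hx (L := L) (U.f i) φ h0 hL
    rw [Law.E_dirac] at h1
    refine h1.trans (mul_le_mul_of_nonneg_right ?_
      (sum_nonneg fun w _ => mul_nonneg (pow_nonneg hx.le _) (h0 _)))
    exact pow_le_pow_right₀ ((one_le_inv₀ hx).2 hx1) (hlen i)

/-- the last spreader -/
theorem final {x : ℝ} (hx : 0 < x) {L Λ : ℕ} {U : Law} {π : ℝ} {ρ T : ℕ} {h M : ℝ}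
    (hU : Spr x L Λ U π ρ T h M) (hM : 0 ≤ M) {F : Finset Word} {E : ℝ} {v : Pt} {n : ℕ}
    (hF : ∀ w ∈ F, Br w ∧ D w = v ∧ w.length ≤ n) (hE : Real.exp (-E) ≤ ∑ w ∈ F, x ^ w.length)
    (hE0 : 0 ≤ E) {J : ℕ} (hJ : 0 < J) (hΛ : T + J * n + 1 ≤ Λ) {H : ℕ} (hH : 0 < H)
    (hv : v 0 = H) :
    ∃ W, Spr x L Λ W (π * (2 * ρ / H + 2) / J) (ρ + (J * n + ρ))
      (T + (J * n + T)) (2 * h + 2 * (π * (Λ * ((n + 1) * (2 * ρ / H + 2) + T))))
      (M ^ 2 * (Real.exp E * (L + 1)) ^ J * (L + 1) ^ 2) := by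
  obtain ⟨K, hK1, hK2, hK3⟩ := exists_chain hx hF hE hE0 hJ
  have hπ := hU.nonneg
  have hH' : (0 : ℝ) < H := by exact_mod_cast hH
  have hdiv : ((2 * ρ / H : ℕ) : ℝ) ≤ 2 * ρ / H := by
    have h1 : ((2 * ρ / H : ℕ) : ℝ) ≤ ((2 * ρ : ℕ) : ℝ) / H := Nat.cast_div_le
    push_cast at h1
    exact h1
  have hlen : ∀ i, (K.f i).length ≤ J * n := by
    intro i
    obtain ⟨j, hj, hc⟩ := hK1 i
    exact hc.length.trans (Nat.mul_le_mul_right _ hj.le)
  have hW : ∀ i, ∀ c : ℤ, (((pts (K.f i)).filter (fun p => |c - p 0| ≤ ρ)).card : ℝ)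
      ≤ (n + 1) * (2 * ρ / H + 2) := by
    intro i c
    obtain ⟨j, hj, hc⟩ := hK1 i
    have h1 := hc.window hv hH ρ c
    have h2 : (((pts (K.f i)).filter (fun p => |c - p 0| ≤ ρ)).card : ℝ)
        ≤ (n + 1) * (((2 * ρ / H : ℕ) : ℝ) + 2) := by exact_mod_cast h1
    refine h2.trans (mul_le_mul_of_nonneg_left (by linarith) (by positivity))
  have hMK0 : 0 ≤ (Real.exp E * ((L : ℝ) + 1)) ^ J := by positivity
  have c1 := Spr.comp' hx.le hU hU hM hM hMK0
    (by positivity : (0 : ℝ) ≤ (n + 1) * (2 * ρ / H + 2))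
    (fun i => by obtain ⟨j, hj, hc⟩ := hK1 i; exact hc.br.saw) hlen
    (fun i k => (abs_D_le _ k).trans (by exact_mod_cast hlen i)) (hK2 L) (by omega) hW hW
  refine ⟨U.conv (K.conv U), ?_⟩
  have c4 := Spr.spread' (π' := π * (2 * ρ / H + 2) / J) c1 (by
    intro z
    rw [op_conv, op_conv]
    refine op_le (fun z1 => ?_) U z
    have q1 : op K (op U dz) z1 ≤ op K (fun z => π * bx ρ z) z1 :=
      op_mono (fun z => op_dz_le hU.spread hU.box z) _ z1
    refine q1.trans ?_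
    have q2 : op K (fun z => π * bx ρ z) z1
        = (J : ℝ)⁻¹ * ∑ j ∈ range J, π * bx ρ (z1 - j • v) := hK3 (fun p => π * bx ρ (z1 - p))
    rw [q2, ← mul_sum]
    have q3 : ∑ j ∈ range J, bx ρ (z1 - j • v) ≤ 2 * ρ / H + 2 := by
      have q4 : ∑ j ∈ range J, bx ρ (z1 - j • v)
          = ((range J).filter (fun j : ℕ => ∀ k, |(z1 - j • v) k| ≤ ρ)).card := by
        rw [← sum_boole]; rfl
      have q5 : ((range J).filter (fun j : ℕ => ∀ k, |(z1 - j • v) k| ≤ ρ)).card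
          ≤ ((range J).filter (fun i : ℕ => z1 0 - ρ ≤ (i + 1) * H ∧
            (i : ℤ) * H ≤ z1 0 + ρ)).card := by
        refine card_le_card fun j hj => ?_
        rw [mem_filter] at hj ⊢
        refine ⟨hj.1, ?_⟩
        have h1 := hj.2 0
        rw [Pi.sub_apply, Pi.smul_apply, nsmul_eq_mul, hv, abs_le] at h1
        have h2 : (0 : ℤ) ≤ H := by positivity
        constructor
        · have := h1.2; linarith
        · have := h1.1; linarith
      have q6 := card_near_int hH (z1 0 - ρ) (z1 0 + ρ) (2 * ρ) J (by push_cast; linarith)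
      rw [q4]
      have q7 : (((range J).filter (fun j : ℕ => ∀ k, |(z1 - j • v) k| ≤ ρ)).card : ℝ)
          ≤ ((2 * ρ / H : ℕ) : ℝ) + 2 := by exact_mod_cast q5.trans q6
      linarith
    calc (J : ℝ)⁻¹ * (π * ∑ j ∈ range J, bx ρ (z1 - j • v))
        ≤ (J : ℝ)⁻¹ * (π * (2 * ρ / H + 2)) :=
          mul_le_mul_of_nonneg_left (mul_le_mul_of_nonneg_left q3 hπ) (by positivity)
      _ = _ := by ring)
  refine c4.mono hx.le le_rfl le_rfl le_rfl ?_ ?_
  · apply le_of_eq; ring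
  · apply le_of_eq; ring

end Pool.Agent.MP_794e6e_pr
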