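import Pool.Agent.MP_794e6e_pr.Join
import Pool.Agent.MP_794e6e_pr.Block2

/-! The induction over the scales. -/

namespace Pool.Agent.MP_794e6e_pr
set_option maxHeartbeats 400000

open Finset Filter
open scoped Classical

/-- the number of bridges is large at the scale `m ^ (d - g + 1)` -/
def Bad (μ : ℝ) (d g m : ℕ) : Prop := (m : ℝ) ^ g < Zt μ⁻¹ (m ^ (d - g + 1))

/-- spreaders exist at the scale `m ^ X` -/
def Lev (μ : ℝ) (d g X : ℕ) : Prop :=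
  ∃ C : ℝ, 1 ≤ C ∧ ∀ᶠ m : ℕ in atTop, Bad μ d g m →
    ∃ (U : Law) (π : ℝ) (ρ T : ℕ) (h M : ℝ), Spr μ⁻¹ (m ^ d) (2 * m ^ d) U π ρ T h M ∧ 0 < M ∧
      (ρ : ℝ) ≤ C * m ^ X ∧ π * m ^ (3 * X) ≤ C ∧ (T : ℝ) * m ^ d ≤ C * m ^ (g + 3 * X) ∧
      h ≤ C * m ^ g ∧ Real.log M ≤ C * m ^ g

theorem Lev_base {μ : ℝ} (hμ : 1 ≤ μ) {d g : ℕ} (hdg : d ≤ 3 * g) : Lev μ d g g := by
  have hμ0 : 0 < μ := by linarith
  have hl : 0 ≤ Real.log μ := Real.log_nonneg hμ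
  refine ⟨6 + 3 * Real.log μ, by linarith, ?_⟩
  filter_upwards [eventually_ge_atTop 1] with m hm _
  have hm' : (1 : ℝ) ≤ m := by exact_mod_cast hm
  have hm0 : (0 : ℝ) < m := by linarith
  have hr : 0 < m ^ g := Nat.pos_of_ne_zero (by positivity)
  obtain ⟨U, hU⟩ := base (x := μ⁻¹) (by positivity) (inv_le_one_of_one_le₀ hμ) (m ^ d) (2 * m ^ d) hr
  have hg0 : (0 : ℝ) < (m : ℝ) ^ g := by positivity
  refine ⟨U, _, _, _, _, _, hU, by positivity, ?_, ?_, ?_, ?_, ?_⟩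
  · push_cast
    nlinarith
  · push_cast
    have : (1 : ℝ) / ((m : ℝ) ^ g) ^ 3 * (m : ℝ) ^ (3 * g) = 1 := by
      rw [← pow_mul, mul_comm g 3, one_div, inv_mul_cancel₀ (by positivity)]
    rw [this]
    linarith
  · push_cast
    have h1 : (m : ℝ) ^ d ≤ (m : ℝ) ^ (3 * g) := pow_le_pow_right₀ hm' hdg
    have h2 : (0 : ℝ) < (m : ℝ) ^ (g + 3 * g) := by positivity
    calc 3 * (m : ℝ) ^ g * (m : ℝ) ^ d ≤ 3 * (m : ℝ) ^ g * (m : ℝ) ^ (3 * g) :=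
          mul_le_mul_of_nonneg_left h1 (by positivity)
      _ = 3 * (m : ℝ) ^ (g + 3 * g) := by rw [pow_add]; ring
      _ ≤ _ := mul_le_mul_of_nonneg_right (by linarith) h2.le
  · push_cast
    nlinarith
  · rw [inv_inv, Real.log_pow]
    push_cast
    nlinarith

theorem choose_e {d g X : ℕ} (H1 : 7 * d + 60 ≤ 19 * g) (H2 : 13 * g ≤ 5 * d) (hX : g ≤ X)
    (hX2 : 2 * X + 2 ≤ d) : ∃ e, X + 2 - g ≤ e ∧ 3 * e ≤ X ∧ 2 * e + d + 1 ≤ g + 2 * X ∧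
      (6 * (X + 2 - g) + 1 ≤ 3 * e ∨ X + d + 4 - 3 * g ≤ 3 * e) := by
  by_cases h : 2 * X + d + 11 ≤ 5 * g
  · exact ⟨2 * (X + 2 - g) + 1, by omega, by omega, by omega, by omega⟩
  · exact ⟨(X + d + 6 - 3 * g) / 3, by omega, by omega, by omega, by omega⟩

/-- lower bound for the bridges in the bad case -/
theorem bad_lower {μ : ℝ} (hμ : 1 ≤ μ) (hb : ∀ n, ((brs n).card : ℝ) ≤ μ ^ n) {d g X m : ℕ}
    (hm : 6 ≤ m) (H1 : 7 * d + 60 ≤ 19 * g) (H2 : 13 * g ≤ 5 * d) (hX : g ≤ X)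
    (hX2 : 2 * X + 2 ≤ d) (hbad : Bad μ d g m) :
    ((m ^ (X + 2 - g) : ℕ) : ℝ) ≤ Zt μ⁻¹ (m ^ (X + d + 4 - 3 * g)) := by
  have h1 := V_mul hμ hb (m ^ (2 * g - X - 3)) (m ^ (X + d + 4 - 3 * g))
  rw [← pow_add] at h1
  have e1 : 2 * g - X - 3 + (X + d + 4 - 3 * g) = d - g + 1 := by omega
  rw [e1, V_eq, V_eq] at h1
  unfold Bad at hbad
  have hm' : (6 : ℝ) ≤ m := by exact_mod_cast hm
  have hm1 : (1 : ℝ) ≤ m := by linarith
  push_cast at h1 ⊢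
  set k : ℝ := (m : ℝ) ^ (2 * g - X - 3) with hk
  set q : ℝ := (m : ℝ) ^ (X + 2 - g) with hq
  have hk1 : 1 ≤ k := one_le_pow₀ hm1
  have hq1 : 1 ≤ q := one_le_pow₀ hm1
  have e2 : (m : ℝ) ^ g = k * q * m := by
    rw [hk, hq, ← pow_add, ← pow_succ]
    congr 1
    omega
  rw [e2] at hbad
  set Z := Zt μ⁻¹ (m ^ (X + d + 4 - 3 * g)) with hZ
  by_contra hcon
  push Not at hcon
  have h3 : k * q * m < k * (1 + Z) := by linarith
  have h4 : k * (1 + Z) < k * (1 + q) := by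
    apply mul_lt_mul_of_pos_left _ (by linarith)
    linarith
  have h5 : k * q * m < k * (1 + q) := h3.trans h4
  have h6 : q * m < 1 + q := by
    have : k * (q * m) < k * (1 + q) := by linarith
    exact lt_of_mul_lt_mul_left this (by linarith)
  nlinarith

/-- blocks are available at every scale in the bad case -/
theorem bad_block {μ : ℝ} (hμ : 1 ≤ μ) (hb : ∀ n, ((brs n).card : ℝ) ≤ μ ^ n)
    (hc : ∀ n, μ ^ n ≤ (walks n).card) {d g X m e : ℕ}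
    (hm : 6 ≤ m) (H1 : 7 * d + 60 ≤ 19 * g) (H2 : 13 * g ≤ 5 * d) (hX : g ≤ X)
    (hX2 : 2 * X + 2 ≤ d) (hbad : Bad μ d g m) (he1 : X + 2 - g ≤ e)
    (he4 : 6 * (X + 2 - g) + 1 ≤ 3 * e ∨ X + d + 4 - 3 * g ≤ 3 * e) :
    IsBlock μ (m ^ (X + 2 - g)) (m ^ e) := by
  have hm1 : 1 ≤ m := by omega
  refine exists_block hμ hb hc ?_ (Nat.pow_le_pow_right hm1 he1) ?_
  · calc 4 ≤ m ^ 1 := by rw [pow_one]; omega
      _ ≤ m ^ (X + 2 - g) := Nat.pow_le_pow_right hm1 (by omega)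
  · rcases he4 with h | h
    · left
      rw [← pow_mul, ← pow_mul, mul_comm _ 6, mul_comm e 3]
      have h2 : 1 ≤ m ^ (6 * (X + 2 - g)) := Nat.one_le_pow _ _ (by omega)
      calc m ^ (6 * (X + 2 - g)) + 1 ≤ m ^ (6 * (X + 2 - g)) * m := by nlinarith
        _ = m ^ (6 * (X + 2 - g) + 1) := (pow_succ _ _).symm
        _ ≤ _ := Nat.pow_le_pow_right hm1 h
    · right
      refine (bad_lower hμ hb hm H1 H2 hX hX2 hbad).trans (Zt_mono (by positivity) ?_)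
      rw [← pow_mul, mul_comm e 3]
      exact Nat.pow_le_pow_right hm1 h

end Pool.Agent.MP_794e6e_pr
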