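import Pool.Agent.MP_794e6e_pr.Step

/-! The induction step over the scales. -/

namespace Pool.Agent.MP_794e6e_pr
set_option maxHeartbeats 1000000

open Finset Filter
open scoped Classical

theorem log_cast_le {m : ℕ} (hm : 1 ≤ m) : Real.log m ≤ m := by
  have h : (0 : ℝ) < m := by exact_mod_cast hm
  have := Real.log_le_sub_one_of_pos h
  linarith

theorem log_succ_le {m d : ℕ} (hm : 2 ≤ m) : Real.log (((m ^ d : ℕ) : ℝ) + 1) ≤ (d + 1) * m := by
  have hm' : (2 : ℝ) ≤ m := by exact_mod_cast hm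
  have h1 : (1 : ℝ) ≤ (m : ℝ) ^ d := one_le_pow₀ (by linarith)
  have h2 : ((m ^ d : ℕ) : ℝ) + 1 ≤ (m : ℝ) ^ (d + 1) := by
    push_cast
    rw [pow_succ]
    nlinarith
  calc Real.log (((m ^ d : ℕ) : ℝ) + 1) ≤ Real.log ((m : ℝ) ^ (d + 1)) :=
        Real.log_le_log (by positivity) h2
    _ = (d + 1) * Real.log m := by rw [Real.log_pow]; push_cast; ring
    _ ≤ _ := mul_le_mul_of_nonneg_left (log_cast_le (by omega)) (by positivity)

theorem block_norm {μ : ℝ} {q P : ℕ} (h : IsBlock μ q P) : ∃ (v : Pt) (n : ℕ) (F : Finset Word)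
    (E : ℝ) (a : ℕ), (∀ w ∈ F, Br w ∧ D w = v ∧ w.length ≤ n) ∧
    Real.exp (-E) ≤ ∑ w ∈ F, μ⁻¹ ^ w.length ∧ 0 ≤ E ∧ (∀ i, (v i).natAbs ≤ a) ∧
    (∃ i, (v i).natAbs = a) ∧ a ≤ P ^ 3 ∧ q ≤ 4 * a ∧ n ≤ 16 * a * P ^ 2 ∧
    (0 ≤ (36 + Real.log (6 * μ)) * (1 + Real.log P) →
      E * q ≤ a * ((36 + Real.log (6 * μ)) * (1 + Real.log P))) := by
  obtain ⟨v, n, F, E, i, h1, h2, h3, h4, h5, h6, h7⟩ := h
  obtain ⟨S₁, S₂, S₃, a, b, c, -, -, -, -, -, hm1, hm2⟩ := exists_three v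
  have hne : F.Nonempty := by
    by_contra h
    rw [not_nonempty_iff_eq_empty] at h
    rw [h, sum_empty] at h2
    exact absurd h2 (not_le.2 (Real.exp_pos _))
  have hi : (v i).natAbs ≤ a := hm1 i
  have han : a ≤ n := by
    obtain ⟨w, hw⟩ := hne
    obtain ⟨j, hj⟩ := hm2
    obtain ⟨_, hD, hl⟩ := h1 w hw
    have h8 := abs_D_le w j
    rw [hD, Int.abs_eq_natAbs] at h8
    omega
  refine ⟨v, n, F, E, a, h1, h2, h3, hm1, hm2, han.trans h4, by omega, ?_, ?_⟩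
  · refine h6.trans (Nat.mul_le_mul_right _ (Nat.mul_le_mul_left _ hi))
  · intro h0
    refine h7.trans (mul_le_mul_of_nonneg_right ?_ h0)
    exact_mod_cast hi

theorem Lev_step {μ : ℝ} (hμ : 1 ≤ μ) (hb : ∀ n, ((brs n).card : ℝ) ≤ μ ^ n)
    (hc : ∀ n, μ ^ n ≤ (walks n).card) {d g X : ℕ} (H1 : 7 * d + 60 ≤ 19 * g)
    (H2 : 13 * g ≤ 5 * d) (hX : g ≤ X) (hX2 : 2 * X + 2 ≤ d) (hL : Lev μ d g X) :
    Lev μ d g (X + 1) := by
  have hμ0 : 0 < μ := by linarith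
  obtain ⟨C, hC1, hC⟩ := hL
  obtain ⟨e, he1, he2, he3, he4⟩ := choose_e H1 H2 hX hX2
  have hl6 : 0 ≤ Real.log (6 * μ) := Real.log_nonneg (by linarith)
  set K := 36 + Real.log (6 * μ) with hK
  have hK0 : 0 < K := by linarith
  set C1 := 4 * C + 6 with hC1'
  set C2 := (25 * C) ^ 3 * C with hC2'
  set C3 := 4 * C + 96 with hC3'
  set C4 := 4 * C + 18 * C * (C + 33) with hC4'
  set C5 := 4 * C + 6 * K * (1 + e) + 30 * (d + 1) with hC5'
  have p1 : 0 < C1 := by positivity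
  have p2 : 0 < C2 := by positivity
  have p3 : 0 < C3 := by positivity
  have p4 : 0 < C4 := by positivity
  have p5 : 0 < C5 := by positivity
  refine ⟨C1 + C2 + C3 + C4 + C5, by linarith, ?_⟩
  filter_upwards [hC, eventually_ge_atTop 6,
    (tendsto_natCast_atTop_atTop (R := ℝ)).eventually_ge_atTop (3 * (C + 33))] with m hm hm6 hmC hbad
  obtain ⟨U, π, ρ, T, h, M, hU, hM0, hρ, hπ, hT, hh, hM⟩ := hm hbad
  obtain ⟨v, n, F, E, a, b1, b2, b3, b4, b5, b6, b7, b8, b9⟩ :=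
    block_norm (bad_block hμ hb hc hm6 H1 H2 hX hX2 hbad he1 he4)
  have hm1 : (1 : ℝ) ≤ m := by
    have : 1 ≤ m := by omega
    exact_mod_cast this
  have hm6' : (6 : ℝ) ≤ m := by exact_mod_cast hm6
  have hm0 : (0 : ℝ) < m := by linarith
  have hq1 : 1 ≤ m ^ (X + 2 - g) := Nat.one_le_pow _ _ (by omega)
  have ha0 : 0 < a := by omega
  have ha0' : (0 : ℝ) < a := by exact_mod_cast ha0
  -- size of the block
  have haX : (a : ℝ) ≤ (m : ℝ) ^ X := by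
    have h1 : a ≤ m ^ X := b6.trans (by
      rw [← pow_mul]
      exact Nat.pow_le_pow_right (by omega) (by omega))
    exact_mod_cast h1
  have hq4 : (m : ℝ) ^ (X + 2 - g) ≤ 4 * a := by exact_mod_cast b7
  have hn : (n : ℝ) ≤ 16 * a * (m : ℝ) ^ (2 * e) := by
    have h1 : (n : ℝ) ≤ 16 * a * ((m : ℝ) ^ e) ^ 2 := by exact_mod_cast b8
    rwa [← pow_mul, mul_comm e 2] at h1
  have hlogP : 0 ≤ Real.log ((m ^ e : ℕ) : ℝ) := Real.log_nonneg (by
    have : 1 ≤ m ^ e := Nat.one_le_pow _ _ (by omega)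
    exact_mod_cast this)
  have hlogm : Real.log m ≤ m := log_cast_le (by omega)
  have hEq : E * (m : ℝ) ^ (X + 2 - g) ≤ a * (K * ((1 + e) * m)) := by
    have h1 := b9 (by positivity)
    push_cast at h1
    refine h1.trans (mul_le_mul_of_nonneg_left (mul_le_mul_of_nonneg_left ?_ hK0.le) ha0'.le)
    rw [Real.log_pow]
    have h2 : (e : ℝ) * Real.log m ≤ e * m := mul_le_mul_of_nonneg_left hlogm (Nat.cast_nonneg _)
    linarith
  -- the number of blocks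
  set J := m ^ (X + 1) / a + 1 with hJ
  have hJ0 : 0 < J := Nat.succ_pos _
  have hJ0' : (0 : ℝ) < J := by exact_mod_cast hJ0
  have hJ1 : (m : ℝ) ^ (X + 1) ≤ J * a := by
    have h1 : m ^ (X + 1) ≤ J * a := by
      have h2 := Nat.div_add_mod (m ^ (X + 1)) a
      have h3 := Nat.mod_lt (m ^ (X + 1)) ha0
      rw [hJ, Nat.succ_mul, mul_comm]
      omega
    exact_mod_cast h1
  have hmX : (m : ℝ) ^ X ≤ (m : ℝ) ^ (X + 1) := pow_le_pow_right₀ hm1 (Nat.le_succ X)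
  have hJ2 : (J : ℝ) * a ≤ 2 * (m : ℝ) ^ (X + 1) := by
    have h1 : J * a ≤ m ^ (X + 1) + a := by
      rw [hJ, Nat.succ_mul]
      have := Nat.div_mul_le_self (m ^ (X + 1)) a
      omega
    have h2 : (J : ℝ) * a ≤ (m : ℝ) ^ (X + 1) + a := by exact_mod_cast h1
    linarith
  have hJn : (J : ℝ) * n ≤ 32 * ((m : ℝ) ^ (X + 1) * (m : ℝ) ^ (2 * e)) := by
    calc (J : ℝ) * n ≤ J * (16 * a * (m : ℝ) ^ (2 * e)) := mul_le_mul_of_nonneg_left hn hJ0'.le
      _ = 16 * (J * a) * (m : ℝ) ^ (2 * e) := by ring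
      _ ≤ 16 * (2 * (m : ℝ) ^ (X + 1)) * (m : ℝ) ^ (2 * e) := by
          refine mul_le_mul_of_nonneg_right ?_ (by positivity)
          linarith
      _ = _ := by ring
  have hJnd : (J : ℝ) * n * (m : ℝ) ^ d ≤ 32 * (m : ℝ) ^ (g + 3 * X) := by
    calc (J : ℝ) * n * (m : ℝ) ^ d
        ≤ 32 * ((m : ℝ) ^ (X + 1) * (m : ℝ) ^ (2 * e)) * (m : ℝ) ^ d :=
          mul_le_mul_of_nonneg_right hJn (by positivity)
      _ = 32 * (m : ℝ) ^ (X + 1 + 2 * e + d) := by rw [pow_add, pow_add]; ring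
      _ ≤ _ := by
          refine mul_le_mul_of_nonneg_left (pow_le_pow_right₀ hm1 (by omega)) (by norm_num)
  have hd1 : (m : ℝ) ^ (g + 3 * X) * (m : ℝ) ≤ (m : ℝ) ^ (2 * d) := by
    rw [← pow_succ]
    exact pow_le_pow_right₀ hm1 (by omega)
  -- the length fits
  have hfit : 3 * T + 3 * (J * n) + 1 ≤ 2 * m ^ d := by
    have h1 : (3 * (T : ℝ) + 3 * (J * n)) * (m : ℝ) ^ d ≤ (3 * (C + 32)) * (m : ℝ) ^ (g + 3 * X) := by
      calc (3 * (T : ℝ) + 3 * (J * n)) * (m : ℝ) ^ d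
          = 3 * ((T : ℝ) * (m : ℝ) ^ d) + 3 * (J * n * (m : ℝ) ^ d) := by ring
        _ ≤ 3 * (C * (m : ℝ) ^ (g + 3 * X)) + 3 * (32 * (m : ℝ) ^ (g + 3 * X)) := by linarith
        _ = _ := by ring
    have h2 : (3 * (C + 32)) * (m : ℝ) ^ (g + 3 * X) ≤ (m : ℝ) ^ (2 * d) := by
      refine le_trans ?_ hd1
      rw [mul_comm]
      refine mul_le_mul_of_nonneg_left ?_ (by positivity)
      linarith
    have h3 : (3 * (T : ℝ) + 3 * (J * n)) * (m : ℝ) ^ d ≤ (m : ℝ) ^ d * (m : ℝ) ^ d := by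
      rw [← pow_add, ← two_mul]
      exact h1.trans h2
    have h4 : 3 * (T : ℝ) + 3 * (J * n) ≤ (m : ℝ) ^ d :=
      le_of_mul_le_mul_right h3 (by positivity)
    have h5 : 3 * T + 3 * (J * n) ≤ m ^ d := by exact_mod_cast h4
    have h6 : 1 ≤ m ^ d := Nat.one_le_pow _ _ (by omega)
    omega
  obtain ⟨W, hW⟩ := level (by positivity : 0 < μ⁻¹) hU hM0.le b1 b2 b3 hJ0 hfit ha0 b4 b5
  refine ⟨W, _, _, _, _, _, hW, by positivity, ?_, ?_, ?_, ?_, ?_⟩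
  · -- ρ
    have hy : 0 < (m : ℝ) ^ (X + 1) := by positivity
    calc ((4 * ρ + 3 * (J * a) : ℕ) : ℝ) = 4 * ρ + 3 * (J * a) := by push_cast; ring
      _ ≤ 4 * (C * (m : ℝ) ^ X) + 3 * (2 * (m : ℝ) ^ (X + 1)) := by linarith
      _ ≤ 4 * (C * (m : ℝ) ^ (X + 1)) + 3 * (2 * (m : ℝ) ^ (X + 1)) := by
          have : C * (m : ℝ) ^ X ≤ C * (m : ℝ) ^ (X + 1) :=
            mul_le_mul_of_nonneg_left hmX (by linarith)
          linarith
      _ = C1 * (m : ℝ) ^ (X + 1) := by rw [hC1']; ring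
      _ ≤ _ := mul_le_mul_of_nonneg_right (by linarith) hy.le
  · -- π
    have hπ0 := hU.nonneg
    have h1 : (24 * (ρ : ℝ) / a + 1) / J * (m : ℝ) ^ (X + 1) ≤ 25 * C * (m : ℝ) ^ X := by
      have e1 : (24 * (ρ : ℝ) / a + 1) / J = (24 * ρ + a) / (J * a) := by
        field_simp
      rw [e1, div_mul_eq_mul_div, div_le_iff₀ (by positivity)]
      have h2 : 24 * (ρ : ℝ) + a ≤ 25 * C * (m : ℝ) ^ X := by
        have h3 : (m : ℝ) ^ X ≤ C * (m : ℝ) ^ X := by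
          have : (0 : ℝ) < (m : ℝ) ^ X := by positivity
          nlinarith
        linarith
      exact mul_le_mul h2 hJ1 (by positivity) (by positivity)
    have h2 : 0 ≤ (24 * (ρ : ℝ) / a + 1) / J * (m : ℝ) ^ (X + 1) := by positivity
    have h3 := pow_le_pow_left₀ h2 h1 3
    calc π * (24 * (ρ : ℝ) / a + 1) ^ 3 / (J : ℝ) ^ 3 * (m : ℝ) ^ (3 * (X + 1))
        = π * ((24 * (ρ : ℝ) / a + 1) / J * (m : ℝ) ^ (X + 1)) ^ 3 := by
          rw [mul_comm 3 (X + 1), pow_mul]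
          ring
      _ ≤ π * (25 * C * (m : ℝ) ^ X) ^ 3 := mul_le_mul_of_nonneg_left h3 hπ0
      _ = (25 * C) ^ 3 * (π * (m : ℝ) ^ (3 * X)) := by
          rw [mul_comm 3 X, pow_mul]
          ring
      _ ≤ (25 * C) ^ 3 * C := mul_le_mul_of_nonneg_left hπ (by positivity)
      _ ≤ _ := by rw [← hC2']; linarith
  · -- T
    calc ((4 * T + 3 * (J * n) : ℕ) : ℝ) * (m : ℝ) ^ d
        = 4 * ((T : ℝ) * (m : ℝ) ^ d) + 3 * ((J : ℝ) * n * (m : ℝ) ^ d) := by push_cast; ring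
      _ ≤ 4 * (C * (m : ℝ) ^ (g + 3 * X)) + 3 * (32 * (m : ℝ) ^ (g + 3 * X)) := by linarith
      _ = C3 * (m : ℝ) ^ (g + 3 * X) := by rw [hC3']; ring
      _ ≤ C3 * (m : ℝ) ^ (g + 3 * (X + 1)) := by
          refine mul_le_mul_of_nonneg_left (pow_le_pow_right₀ hm1 (by omega)) p3.le
      _ ≤ _ := by
          refine mul_le_mul_of_nonneg_right (by linarith) (by positivity)
  · -- h
    have hπ0 := hU.nonneg
    have h1 : ((2 * m ^ d : ℕ) : ℝ) * (T + J * n + 1) ≤ 2 * (C + 33) * (m : ℝ) ^ (g + 3 * X) := by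
      have h2 : (m : ℝ) ^ d ≤ (m : ℝ) ^ (g + 3 * X) := pow_le_pow_right₀ hm1 (by omega)
      calc ((2 * m ^ d : ℕ) : ℝ) * (T + J * n + 1)
          = 2 * ((T : ℝ) * (m : ℝ) ^ d + J * n * (m : ℝ) ^ d + (m : ℝ) ^ d) := by
            push_cast; ring
        _ ≤ 2 * (C * (m : ℝ) ^ (g + 3 * X) + 32 * (m : ℝ) ^ (g + 3 * X)
            + (m : ℝ) ^ (g + 3 * X)) := by linarith
        _ = _ := by ring
    have h2 : π * (((2 * m ^ d : ℕ) : ℝ) * (T + J * n + 1)) ≤ 2 * (C + 33) * C * (m : ℝ) ^ g := by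
      calc π * (((2 * m ^ d : ℕ) : ℝ) * (T + J * n + 1))
          ≤ π * (2 * (C + 33) * (m : ℝ) ^ (g + 3 * X)) := mul_le_mul_of_nonneg_left h1 hπ0
        _ = 2 * (C + 33) * (π * (m : ℝ) ^ (3 * X)) * (m : ℝ) ^ g := by rw [pow_add]; ring
        _ ≤ 2 * (C + 33) * C * (m : ℝ) ^ g := by
            refine mul_le_mul_of_nonneg_right (mul_le_mul_of_nonneg_left hπ (by positivity))
              (by positivity)
    calc 4 * h + 9 * (π * (((2 * m ^ d : ℕ) : ℝ) * (T + J * n + 1)))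
        ≤ 4 * (C * (m : ℝ) ^ g) + 9 * (2 * (C + 33) * C * (m : ℝ) ^ g) := by linarith
      _ = C4 * (m : ℝ) ^ g := by rw [hC4']; ring
      _ ≤ _ := mul_le_mul_of_nonneg_right (by linarith) (by positivity)
  · -- M
    have hg0 : (0 : ℝ) < (m : ℝ) ^ g := by positivity
    have e1 : Real.log (M ^ 4 * ((Real.exp E * (((m ^ d : ℕ) : ℝ) + 1)) ^ J) ^ 3
        * (((m ^ d : ℕ) : ℝ) + 1) ^ 6)
        = 4 * Real.log M + 3 * (J * (E + Real.log (((m ^ d : ℕ) : ℝ) + 1)))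
          + 6 * Real.log (((m ^ d : ℕ) : ℝ) + 1) := by
      have hm1' : (0 : ℝ) < ((m ^ d : ℕ) : ℝ) + 1 := by positivity
      rw [Real.log_mul (by positivity) (by positivity), Real.log_mul (by positivity) (by positivity),
        Real.log_pow, Real.log_pow, Real.log_pow, Real.log_pow,
        Real.log_mul (by positivity) (by positivity), Real.log_exp]
      push_cast
      ring
    rw [e1]
    have hls := log_succ_le (m := m) (d := d) (by omega)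
    have hls0 : 0 ≤ Real.log (((m ^ d : ℕ) : ℝ) + 1) := Real.log_nonneg (by
      have : (0 : ℝ) ≤ ((m ^ d : ℕ) : ℝ) := by positivity
      linarith)
    have hgm : (m : ℝ) ≤ (m : ℝ) ^ g := by
      calc (m : ℝ) = (m : ℝ) ^ 1 := (pow_one _).symm
        _ ≤ (m : ℝ) ^ g := pow_le_pow_right₀ hm1 (by omega)
    have hq0 : (0 : ℝ) < (m : ℝ) ^ (X + 2 - g) := by positivity
    -- the cost of the blocks
    have c1 : (J : ℝ) * E ≤ 2 * K * (1 + e) * (m : ℝ) ^ g := by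
      have h1 : (J : ℝ) * E * (m : ℝ) ^ (X + 2 - g)
          ≤ 2 * K * (1 + e) * (m : ℝ) ^ g * (m : ℝ) ^ (X + 2 - g) := by
        calc (J : ℝ) * E * (m : ℝ) ^ (X + 2 - g) = J * (E * (m : ℝ) ^ (X + 2 - g)) := by ring
          _ ≤ J * (a * (K * ((1 + e) * m))) := mul_le_mul_of_nonneg_left hEq hJ0'.le
          _ = (J * a) * (K * (1 + e) * m) := by ring
          _ ≤ (2 * (m : ℝ) ^ (X + 1)) * (K * (1 + e) * m) :=
              mul_le_mul_of_nonneg_right hJ2 (by positivity)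
          _ = 2 * K * (1 + e) * ((m : ℝ) ^ (X + 2)) := by rw [pow_succ _ (X + 1)]; ring
          _ = _ := by
              rw [mul_assoc (2 * K * (1 + (e : ℝ))) ((m : ℝ) ^ g), ← pow_add]
              congr 2
              omega
      exact le_of_mul_le_mul_right h1 hq0
    have c2 : (J : ℝ) * Real.log (((m ^ d : ℕ) : ℝ) + 1) ≤ 8 * (d + 1) * (m : ℝ) ^ g := by
      have h1 : (J : ℝ) * (m : ℝ) ^ (X + 2 - g) ≤ 8 * (m : ℝ) ^ (X + 1) := by
        calc (J : ℝ) * (m : ℝ) ^ (X + 2 - g) ≤ J * (4 * a) :=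
              mul_le_mul_of_nonneg_left hq4 hJ0'.le
          _ = 4 * (J * a) := by ring
          _ ≤ 8 * (m : ℝ) ^ (X + 1) := by linarith
      have h2 : (J : ℝ) * Real.log (((m ^ d : ℕ) : ℝ) + 1) * (m : ℝ) ^ (X + 2 - g)
          ≤ 8 * (d + 1) * (m : ℝ) ^ g * (m : ℝ) ^ (X + 2 - g) := by
        calc (J : ℝ) * Real.log (((m ^ d : ℕ) : ℝ) + 1) * (m : ℝ) ^ (X + 2 - g)
            = ((J : ℝ) * (m : ℝ) ^ (X + 2 - g)) * Real.log (((m ^ d : ℕ) : ℝ) + 1) := by ring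
          _ ≤ (8 * (m : ℝ) ^ (X + 1)) * ((d + 1) * m) :=
              mul_le_mul h1 hls hls0 (by positivity)
          _ = 8 * (d + 1) * (m : ℝ) ^ (X + 2) := by rw [pow_succ _ (X + 1)]; ring
          _ = _ := by
              rw [mul_assoc (8 * ((d : ℝ) + 1)) ((m : ℝ) ^ g), ← pow_add]
              congr 2
              omega
      exact le_of_mul_le_mul_right h2 hq0
    have c3 : Real.log (((m ^ d : ℕ) : ℝ) + 1) ≤ (d + 1) * (m : ℝ) ^ g :=
      hls.trans (mul_le_mul_of_nonneg_left hgm (by positivity))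
    calc 4 * Real.log M + 3 * (J * (E + Real.log (((m ^ d : ℕ) : ℝ) + 1)))
          + 6 * Real.log (((m ^ d : ℕ) : ℝ) + 1)
        = 4 * Real.log M + 3 * (J * E) + 3 * (J * Real.log (((m ^ d : ℕ) : ℝ) + 1))
          + 6 * Real.log (((m ^ d : ℕ) : ℝ) + 1) := by ring
      _ ≤ 4 * (C * (m : ℝ) ^ g) + 3 * (2 * K * (1 + e) * (m : ℝ) ^ g)
          + 3 * (8 * (d + 1) * (m : ℝ) ^ g) + 6 * ((d + 1) * (m : ℝ) ^ g) := by linarith
      _ = C5 * (m : ℝ) ^ g := by rw [hC5']; ring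
      _ ≤ _ := mul_le_mul_of_nonneg_right (by linarith) hg0.le

end Pool.Agent.MP_794e6e_pr
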